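import Mathlib

/-!
# Varieties of associative rings (not necessarily unital): basic definitions

Rings are associative, not necessarily unital (`NonUnitalRing`), in `Type`.  A variety is given by
a set of identities `t = 0`, where `t` is a term in the signature `(+, -, 0, *)` and countably many
variables.
-/

namespace Pool.Agent.N57.EN

/-- Terms in the signature `(0, -, +, *)` in the variables `x_0, x_1, ...`. -/
inductive RTerm : Type
  | var : ℕ → RTerm
  | zero : RTerm
  | neg : RTerm → RTerm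
  | add : RTerm → RTerm → RTerm
  | mul : RTerm → RTerm → RTerm

/-- The value of a term under an assignment of the variables. -/
def RTerm.eval {R : Type*} [NonUnitalRing R] (v : ℕ → R) : RTerm → R
  | .var n => v n
  | .zero => 0
  | .neg t => - t.eval v
  | .add s t => s.eval v + t.eval v
  | .mul s t => s.eval v * t.eval v

/-- The ring `R` satisfies the identity `t = 0`. -/
def Holds (R : Type*) [NonUnitalRing R] (t : RTerm) : Prop := ∀ v : ℕ → R, t.eval v = 0

/-- `R` belongs to the variety defined by the set of identities `S`. -/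
def InVar (S : Set RTerm) (R : Type*) [NonUnitalRing R] : Prop := ∀ t ∈ S, Holds R t

/-- The variety defined by `S` is contained in the variety defined by `T`. -/
def VarLE (S T : Set RTerm) : Prop :=
  ∀ (R : Type) [NonUnitalRing R], InVar S R → InVar T R

/-- The set of all identities of the ring `A`; the variety it defines is the variety generated
by `A`. -/
def Id (A : Type*) [NonUnitalRing A] : Set RTerm := {t | Holds A t}

/-- The Engel commutators: `engel 0 x y = x`, `engel (n+1) x y = [engel n x y, y]`. -/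
def engel {R : Type*} [NonUnitalRing R] : ℕ → R → R → R
  | 0, x, _ => x
  | n + 1, x, y => engel n x y * y - y * engel n x y

/-- The variety defined by `S` is Engel. -/
def IsEngel (S : Set RTerm) : Prop :=
  ∃ n : ℕ, 1 ≤ n ∧ ∀ (R : Type) [NonUnitalRing R], InVar S R → ∀ x y : R, engel n x y = 0

/-- The variety defined by `S` is not Engel, but all its proper subvarieties are. -/
def MinimalNonEngel (S : Set RTerm) : Prop :=
  ¬ IsEngel S ∧ ∀ T : Set RTerm, VarLE T S → ¬ VarLE S T → IsEngel T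

/-- The variety defined by `S` can be defined by finitely many identities. -/
def FinitelyBased (S : Set RTerm) : Prop :=
  ∃ T : Set RTerm, T.Finite ∧ VarLE T S ∧ VarLE S T

/-- Every finitely generated ring of the variety is finite. -/
def IsLocallyFinite (S : Set RTerm) : Prop :=
  ∀ (R : Type) [NonUnitalRing R], InVar S R →
    ∀ s : Set R, s.Finite → NonUnitalSubring.closure s = ⊤ → Finite R

/-- `F` is a factor of `R`: a homomorphic image of a subring of `R`. -/
def IsFactor (F R : Type) [NonUnitalRing F] [NonUnitalRing R] : Prop :=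
  ∃ (H : NonUnitalSubring R) (f : H →ₙ+* F), Function.Surjective f

/-- A finite ring is critical if it is not in the variety generated by its proper factors
(those not isomorphic to it). -/
def Critical (R : Type) [NonUnitalRing R] : Prop :=
  Finite R ∧ ¬ ∀ t : RTerm,
    (∀ (F : Type) [NonUnitalRing F], IsFactor F R → ¬ Nonempty (F ≃+* R) → Holds F t) → Holds R t

/-- Up to isomorphism the variety contains only finitely many critical rings. -/
def FinitelyManyCritical (S : Set RTerm) : Prop :=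
  ∃ (m : ℕ) (C : Fin m → Type) (_ : ∀ i, NonUnitalRing (C i)),
    ∀ (R : Type) [NonUnitalRing R], Critical R → InVar S R → ∃ i, Nonempty (R ≃+* C i)

/-- Cross varieties. -/
def IsCross (S : Set RTerm) : Prop :=
  FinitelyBased S ∧ IsLocallyFinite S ∧ FinitelyManyCritical S

/-- For a field `K` and `a b : K` the ring of upper triangular `2 × 2` matrices generated by
`diag(a, b)` and all the matrices with a single entry in the upper right corner, i.e. the ring
of the matrices `(g(a), u; 0, g(b))`, `g ∈ tℤ[t]`, `u ∈ K`. -/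
def TRing (K : Type) [Field K] (a b : K) : NonUnitalSubring (Matrix (Fin 2) (Fin 2) K) :=
  NonUnitalSubring.closure ({!![a, 0; 0, b]} ∪ {x | ∃ u : K, x = !![0, u; 0, 0]})

/-! ## Basic closure properties -/

section Basic

variable {S : Set RTerm}

theorem map_eval {R R' : Type*} [NonUnitalRing R] [NonUnitalRing R'] (f : R →ₙ+* R')
    (v : ℕ → R) (t : RTerm) : f (t.eval v) = t.eval (fun i => f (v i)) := by
  induction t with
  | var n => rfl
  | zero => simp [RTerm.eval]
  | neg t ih => simp [RTerm.eval, ih]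
  | add s t ihs iht => simp [RTerm.eval, ihs, iht]
  | mul s t ihs iht => simp [RTerm.eval, ihs, iht]

theorem map_engel {R R' : Type*} [NonUnitalRing R] [NonUnitalRing R'] (f : R →ₙ+* R')
    (n : ℕ) (x y : R) : f (engel n x y) = engel n (f x) (f y) := by
  induction n with
  | zero => rfl
  | succ n ih => simp [engel, ih]

theorem InVar.of_corr {G B R : Type*} [NonUnitalRing G] [NonUnitalRing B] [NonUnitalRing R]
    (φ : G →ₙ+* R) (ψ : G →ₙ+* B) (hψ : Function.Surjective ψ) (h : ∀ g, φ g = 0 → ψ g = 0)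
    (hR : InVar S R) : InVar S B := by
  intro t ht v
  choose g hg using hψ
  have h1 : v = fun i => ψ (g (v i)) := by funext i; exact (hg (v i)).symm
  rw [h1, ← map_eval ψ (fun i => g (v i)) t]
  apply h
  rw [map_eval]
  exact hR t ht _

theorem InVar.of_surj {R B : Type*} [NonUnitalRing B] [NonUnitalRing R]
    (ψ : R →ₙ+* B) (hψ : Function.Surjective ψ) (hR : InVar S R) : InVar S B :=
  InVar.of_corr (NonUnitalRingHom.id R) ψ hψ (fun g hg => by
    have : g = 0 := hg
    rw [this, map_zero]) hR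

theorem InVar.of_inj {R B : Type*} [NonUnitalRing B] [NonUnitalRing R]
    (φ : B →ₙ+* R) (hφ : Function.Injective φ) (hR : InVar S R) : InVar S B :=
  InVar.of_corr φ (NonUnitalRingHom.id B) (fun b => ⟨b, rfl⟩) (fun g hg => by
    have : g = 0 := hφ (by rw [hg, map_zero])
    rw [this, map_zero]) hR

theorem eval_pi {ι : Type*} {R : ι → Type*} [∀ i, NonUnitalRing (R i)] (t : RTerm)
    (v : ℕ → ∀ i, R i) (i : ι) : t.eval v i = t.eval (fun n => v n i) :=
  map_eval (Pi.evalNonUnitalRingHom R i) v t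

theorem InVar.pi {ι : Type*} {R : ι → Type*} [∀ i, NonUnitalRing (R i)]
    (h : ∀ i, InVar S (R i)) : InVar S (∀ i, R i) := by
  intro t ht v
  funext i
  rw [eval_pi]
  exact h i t ht _

theorem InVar.prod {A B : Type*} [NonUnitalRing A] [NonUnitalRing B]
    (hA : InVar S A) (hB : InVar S B) : InVar S (A × B) := by
  intro t ht v
  have h1 : (t.eval v).1 = t.eval (fun n => (v n).1) := map_eval (NonUnitalRingHom.fst A B) v t
  have h2 : (t.eval v).2 = t.eval (fun n => (v n).2) := map_eval (NonUnitalRingHom.snd A B) v t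
  ext
  · rw [h1]; exact hA t ht _
  · rw [h2]; exact hB t ht _

/-- the quotient map -/
def qmk {R : Type*} [NonUnitalRing R] (I : TwoSidedIdeal R) : R →ₙ+* I.ringCon.Quotient where
  toFun := fun x => (x : I.ringCon.Quotient)
  map_mul' := fun _ _ => rfl
  map_zero' := rfl
  map_add' := fun _ _ => rfl

theorem qmk_surj {R : Type*} [NonUnitalRing R] (I : TwoSidedIdeal R) :
    Function.Surjective (qmk I) := by
  intro x
  obtain ⟨r, rfl⟩ := Quotient.exists_rep x
  exact ⟨r, rfl⟩

theorem qmk_eq_zero {R : Type*} [NonUnitalRing R] (I : TwoSidedIdeal R) (x : R) :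
    qmk I x = 0 ↔ x ∈ I := by
  rw [TwoSidedIdeal.mem_iff]
  exact I.ringCon.eq

theorem qmk_eq {R : Type*} [NonUnitalRing R] (I : TwoSidedIdeal R) (x y : R) :
    qmk I x = qmk I y ↔ x - y ∈ I := by
  rw [← qmk_eq_zero, map_sub, sub_eq_zero]

theorem InVar.quot {R : Type*} [NonUnitalRing R] (I : TwoSidedIdeal R) (h : InVar S R) :
    InVar S I.ringCon.Quotient := h.of_surj (qmk I) (qmk_surj I)

/-- An ideal of the quotient pulled back to the ring -/
def pull {R R' : Type*} [NonUnitalRing R] [NonUnitalRing R'] (f : R →ₙ+* R')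
    (J : TwoSidedIdeal R') : TwoSidedIdeal R :=
  TwoSidedIdeal.mk' {x | f x ∈ J} (by simp [J.zero_mem])
    (fun {x y} hx hy => by simp only [Set.mem_ofPred_eq, map_add] at *; exact J.add_mem hx hy)
    (fun {x} hx => by simp only [Set.mem_ofPred_eq, map_neg] at *; exact J.neg_mem hx)
    (fun {x y} hy => by
      simp only [Set.mem_ofPred_eq, map_mul] at *; exact J.mul_mem_left _ _ hy)
    (fun {x y} hx => by
      simp only [Set.mem_ofPred_eq, map_mul] at *; exact J.mul_mem_right _ _ hx)

theorem mem_pull {R R' : Type*} [NonUnitalRing R] [NonUnitalRing R'] (f : R →ₙ+* R')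
    (J : TwoSidedIdeal R') (x : R) : x ∈ pull f J ↔ f x ∈ J := by
  unfold pull
  rw [TwoSidedIdeal.mem_mk']
  rfl

/-- union of a nonempty chain of two-sided ideals -/
theorem chain_ub {R : Type*} [NonUnitalRing R] (c : Set (TwoSidedIdeal R)) (hc : IsChain (· ≤ ·) c)
    (hne : c.Nonempty) : ∃ J : TwoSidedIdeal R, (∀ x, x ∈ J ↔ ∃ I ∈ c, x ∈ I) := by
  obtain ⟨I0, hI0⟩ := hne
  refine ⟨TwoSidedIdeal.mk' {x | ∃ I ∈ c, x ∈ I} ⟨I0, hI0, I0.zero_mem⟩ ?_ ?_ ?_ ?_, ?_⟩
  · rintro x y ⟨I, hI, hx⟩ ⟨J, hJ, hy⟩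
    rcases hc.total hI hJ with h | h
    · exact ⟨J, hJ, J.add_mem (h hx) hy⟩
    · exact ⟨I, hI, I.add_mem hx (h hy)⟩
  · rintro x ⟨I, hI, hx⟩
    exact ⟨I, hI, I.neg_mem hx⟩
  · rintro x y ⟨I, hI, hx⟩
    exact ⟨I, hI, I.mul_mem_left _ _ hx⟩
  · rintro x y ⟨I, hI, hx⟩
    exact ⟨I, hI, I.mul_mem_right _ _ hx⟩
  · intro x
    rw [TwoSidedIdeal.mem_mk']
    rfl

/-- a two-sided ideal maximal among those avoiding a set `Z` -/
theorem exists_max_avoid {R : Type*} [NonUnitalRing R] (Z : Set R) (hZ : (0 : R) ∉ Z) :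
    ∃ I : TwoSidedIdeal R, (∀ z ∈ Z, z ∉ I) ∧
      ∀ J : TwoSidedIdeal R, I ≤ J → (∃ x ∈ J, x ∉ I) → ∃ z ∈ Z, z ∈ J := by
  have key := zorn_le₀ {I : TwoSidedIdeal R | ∀ z ∈ Z, z ∉ I} (by
    intro c hc hchain
    rcases c.eq_empty_or_nonempty with h | h
    · refine ⟨⊥, ?_, ?_⟩
      · intro z hz hz'
        rw [TwoSidedIdeal.mem_bot] at hz'
        exact hZ (hz' ▸ hz)
      · intro I hI
        rw [h] at hI
        exact absurd hI (Set.notMem_empty _)
    · obtain ⟨J, hJ⟩ := chain_ub c hchain h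
      refine ⟨J, ?_, ?_⟩
      · intro z hz hz'
        obtain ⟨I, hI, hzI⟩ := (hJ z).1 hz'
        exact hc hI z hz hzI
      · intro I hI x hx
        exact (hJ x).2 ⟨I, hI, hx⟩)
  obtain ⟨I, hI⟩ := key
  refine ⟨I, hI.1, ?_⟩
  intro J hIJ ⟨x, hxJ, hxI⟩
  by_contra hcon
  push Not at hcon
  exact hxI (hI.2 hcon hIJ hxJ)

/-- After factoring out a maximal ideal avoiding `Z`, every nonzero ideal meets the image of
`Z`. -/
theorem exists_quot_avoid {R : Type} [NonUnitalRing R] (Z : Set R) (hZ : (0 : R) ∉ Z) :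
    ∃ I : TwoSidedIdeal R, (∀ z ∈ Z, qmk I z ≠ 0) ∧
      ∀ J : TwoSidedIdeal I.ringCon.Quotient, (∃ x ∈ J, x ≠ 0) → ∃ z ∈ Z, qmk I z ∈ J := by
  obtain ⟨I, h1, h2⟩ := exists_max_avoid Z hZ
  refine ⟨I, fun z hz h => h1 z hz ((qmk_eq_zero I z).1 h), ?_⟩
  intro J ⟨x, hxJ, hx⟩
  obtain ⟨r, rfl⟩ := qmk_surj I x
  obtain ⟨z, hz, hzJ⟩ := h2 (pull (qmk I) J) (by
    intro y hy
    have hy' : qmk I y = 0 := (qmk_eq_zero I y).2 hy
    show y ∈ pull (qmk I) J
    rw [mem_pull, hy']
    exact J.zero_mem) ⟨r, (mem_pull _ _ _).2 hxJ, fun h => hx ((qmk_eq_zero I r).2 h)⟩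
  exact ⟨z, hz, (mem_pull _ _ _).1 hzJ⟩

end Basic

end Pool.Agent.N57.EN
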