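import Pool.Agent.N57.EN.SI

/-!
# Varieties generated by finite rings of triangular `2 × 2` matrices are Cross varieties
-/

noncomputable section

namespace Pool.Agent.N57.EN

/-! ## The finite set of identities -/

def subT (a b : RTerm) : RTerm := .add a (.neg b)

def powT : ℕ → RTerm → RTerm
  | 0, t => t
  | n + 1, t => .mul t (powT n t)

def nsT : ℕ → RTerm → RTerm
  | 0, _ => .zero
  | n + 1, t => .add (nsT n t) t

def cT (a b : RTerm) : RTerm := subT (.mul a b) (.mul b a)

def qT (Q : ℕ) (a : RTerm) : RTerm := subT (powT (Q - 1) a) a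

section

variable {R : Type} [NonUnitalRing R] (v : ℕ → R)

theorem eval_subT (a b : RTerm) : (subT a b).eval v = a.eval v - b.eval v := by
  show a.eval v + -(b.eval v) = _
  rw [sub_eq_add_neg]

theorem eval_powT (n : ℕ) (a : RTerm) : (powT n a).eval v = pw n (a.eval v) := by
  induction n with
  | zero => rfl
  | succ n ih =>
    rw [pw_succ, ← ih]
    rfl

theorem eval_nsT (n : ℕ) (a : RTerm) : (nsT n a).eval v = n • a.eval v := by
  induction n with
  | zero => rw [zero_smul]; rfl
  | succ n ih =>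
    rw [succ_nsmul, ← ih]
    rfl

theorem eval_cT (a b : RTerm) :
    (cT a b).eval v = a.eval v * b.eval v - b.eval v * a.eval v := by
  unfold cT
  rw [eval_subT]
  rfl

theorem eval_qT (Q : ℕ) (a : RTerm) :
    (qT Q a).eval v = pw (Q - 1) (a.eval v) - a.eval v := by
  unfold qT
  rw [eval_subT, eval_powT]

end

/-- the identities `p x = 0`, `ρ ρ' = 0`, `ρ u ρ' = 0`, where `ρ`, `ρ'` are commutators or
`x ^ Q - x` -/
def Sig0 (p Q : ℕ) : Set RTerm :=
  {nsT p (.var 0)} ∪
    (Set.image2 RTerm.mul {cT (.var 0) (.var 1), qT Q (.var 0)}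
      {cT (.var 2) (.var 3), qT Q (.var 2)} ∪
    Set.image2 (fun a b => RTerm.mul (.mul a (.var 4)) b) {cT (.var 0) (.var 1), qT Q (.var 0)}
      {cT (.var 2) (.var 3), qT Q (.var 2)})

theorem Sig0_finite (p Q : ℕ) : (Sig0 p Q).Finite := by
  unfold Sig0
  refine (Set.finite_singleton _).union (Set.Finite.union ?_ ?_)
  · exact Set.Finite.image2 _ (Set.toFinite _) (Set.toFinite _)
  · exact Set.Finite.image2 _ (Set.toFinite _) (Set.toFinite _)

theorem sem_of_inVar {p Q : ℕ} {R : Type} [NonUnitalRing R] (h : InVar (Sig0 p Q) R) :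
    Sem p Q R := by
  have hA : ∀ a ∈ Rho Q R, ∃ s ∈ ({cT (.var 0) (.var 1), qT Q (.var 0)} : Set RTerm),
      ∃ x y : R, ∀ v : ℕ → R, v 0 = x → v 1 = y → s.eval v = a := by
    rintro a (⟨x, y, rfl⟩ | ⟨x, rfl⟩)
    · refine ⟨_, Or.inl rfl, x, y, fun v h0 h1 => ?_⟩
      rw [eval_cT]
      show v 0 * v 1 - v 1 * v 0 = _
      rw [h0, h1]
    · refine ⟨_, Or.inr rfl, x, x, fun v h0 _ => ?_⟩
      rw [eval_qT]
      show pw (Q - 1) (v 0) - v 0 = _
      rw [h0]
  have hB : ∀ a ∈ Rho Q R, ∃ s ∈ ({cT (.var 2) (.var 3), qT Q (.var 2)} : Set RTerm),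
      ∃ x y : R, ∀ v : ℕ → R, v 2 = x → v 3 = y → s.eval v = a := by
    rintro a (⟨x, y, rfl⟩ | ⟨x, rfl⟩)
    · refine ⟨_, Or.inl rfl, x, y, fun v h0 h1 => ?_⟩
      rw [eval_cT]
      show v 2 * v 3 - v 3 * v 2 = _
      rw [h0, h1]
    · refine ⟨_, Or.inr rfl, x, x, fun v h0 _ => ?_⟩
      rw [eval_qT]
      show pw (Q - 1) (v 2) - v 2 = _
      rw [h0]
  refine ⟨?_, ?_, ?_⟩
  · intro r
    have := h _ (Or.inl rfl) (fun _ => r)
    rw [eval_nsT] at this
    exact this
  · intro a ha b hb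
    obtain ⟨s, hs, x, y, hxy⟩ := hA a ha
    obtain ⟨t, ht, z, w, hzw⟩ := hB b hb
    let v : ℕ → R := fun i => if i = 0 then x else if i = 1 then y else if i = 2 then z else w
    have := h (.mul s t) (Or.inr (Or.inl ⟨s, hs, t, ht, rfl⟩)) v
    have h1 : s.eval v * t.eval v = 0 := this
    rwa [hxy v rfl rfl, hzw v rfl rfl] at h1
  · intro a ha b hb u
    obtain ⟨s, hs, x, y, hxy⟩ := hA a ha
    obtain ⟨t, ht, z, w, hzw⟩ := hB b hb
    let v : ℕ → R := fun i => if i = 0 then x else if i = 1 then y else if i = 2 then z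
      else if i = 3 then w else u
    have := h (.mul (.mul s (.var 4)) t) (Or.inr (Or.inr ⟨s, hs, t, ht, rfl⟩)) v
    have h1 : s.eval v * u * t.eval v = 0 := this
    rwa [hxy v rfl rfl, hzw v rfl rfl] at h1

theorem inVar_of_sem {p Q : ℕ} {R : Type} [NonUnitalRing R] (h : Sem p Q R) :
    InVar (Sig0 p Q) R := by
  have hA : ∀ s ∈ ({cT (.var 0) (.var 1), qT Q (.var 0)} : Set RTerm), ∀ v : ℕ → R,
      s.eval v ∈ Rho Q R := by
    rintro s (rfl | rfl) v
    · rw [eval_cT]; exact Or.inl ⟨_, _, rfl⟩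
    · rw [eval_qT]; exact Or.inr ⟨_, rfl⟩
  have hB : ∀ s ∈ ({cT (.var 2) (.var 3), qT Q (.var 2)} : Set RTerm), ∀ v : ℕ → R,
      s.eval v ∈ Rho Q R := by
    rintro s (rfl | rfl) v
    · rw [eval_cT]; exact Or.inl ⟨_, _, rfl⟩
    · rw [eval_qT]; exact Or.inr ⟨_, rfl⟩
  rintro t (rfl | ⟨a, ha, b, hb, rfl⟩ | ⟨a, ha, b, hb, rfl⟩) v
  · rw [eval_nsT]; exact h.1 _
  · exact h.2.1 _ (hA a ha v) _ (hB b hb v)
  · exact h.2.2 _ (hA a ha v) _ (hB b hb v) (v 4)

/-! ## Terms in finitely many variables -/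

/-- all the variables of the term are `< n` -/
def Vlt (n : ℕ) : RTerm → Prop
  | .var i => i < n
  | .zero => True
  | .neg t => Vlt n t
  | .add s t => Vlt n s ∧ Vlt n t
  | .mul s t => Vlt n s ∧ Vlt n t

theorem eval_congr {R : Type} [NonUnitalRing R] {n : ℕ} {v w : ℕ → R} (h : ∀ i < n, v i = w i)
    {t : RTerm} (ht : Vlt n t) : t.eval v = t.eval w := by
  induction t with
  | var i => exact h i ht
  | zero => rfl
  | neg t ih => show -(t.eval v) = -(t.eval w); rw [ih ht]
  | add s t ihs iht =>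
    show s.eval v + t.eval v = s.eval w + t.eval w; rw [ihs ht.1, iht ht.2]
  | mul s t ihs iht =>
    show s.eval v * t.eval v = s.eval w * t.eval w; rw [ihs ht.1, iht ht.2]

/-- renaming of variables -/
def ren (σ : ℕ → ℕ) : RTerm → RTerm
  | .var i => .var (σ i)
  | .zero => .zero
  | .neg t => .neg (ren σ t)
  | .add s t => .add (ren σ s) (ren σ t)
  | .mul s t => .mul (ren σ s) (ren σ t)

theorem eval_ren {R : Type} [NonUnitalRing R] (v : ℕ → R) (σ : ℕ → ℕ) (t : RTerm) :
    (ren σ t).eval v = t.eval (fun i => v (σ i)) := by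
  induction t with
  | var i => rfl
  | zero => rfl
  | neg t ih => show -((ren σ t).eval v) = -(t.eval _); rw [ih]
  | add s t ihs iht =>
    show (ren σ s).eval v + (ren σ t).eval v = s.eval _ + t.eval _; rw [ihs, iht]
  | mul s t ihs iht =>
    show (ren σ s).eval v * (ren σ t).eval v = s.eval _ * t.eval _; rw [ihs, iht]

theorem vlt_ren {n : ℕ} {σ : ℕ → ℕ} (h : ∀ i, σ i < n) (t : RTerm) : Vlt n (ren σ t) := by
  induction t with
  | var i => exact h i
  | zero => trivial
  | neg t ih => exact ih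
  | add s t ihs iht => exact ⟨ihs, iht⟩
  | mul s t ihs iht => exact ⟨ihs, iht⟩

section Fin

variable (A : Type) [NonUnitalRing A] (n : ℕ)

def trunc (v : Fin n → A) : ℕ → A := fun i => if h : i < n then v ⟨i, h⟩ else 0

/-- the term function on `A` -/
def valf (t : RTerm) : (Fin n → A) → A := fun v => t.eval (trunc A n v)

open Classical in
/-- a term with the given term function -/
def rep (φ : (Fin n → A) → A) : RTerm :=
  if h : ∃ t, Vlt n t ∧ valf A n t = φ then h.choose else .zero

theorem rep_vlt (φ : (Fin n → A) → A) : Vlt n (rep A n φ) := by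
  unfold rep
  split_ifs with h
  · exact h.choose_spec.1
  · trivial

theorem rep_val {t : RTerm} (ht : Vlt n t) : valf A n (rep A n (valf A n t)) = valf A n t := by
  have h : ∃ s, Vlt n s ∧ valf A n s = valf A n t := ⟨t, ht, rfl⟩
  have : rep A n (valf A n t) = h.choose := dif_pos h
  rw [this]
  exact h.choose_spec.2

theorem holds_of_valf {s t : RTerm} (hs : Vlt n s) (ht : Vlt n t) (h : valf A n s = valf A n t)
    (v : ℕ → A) : s.eval v = t.eval v := by
  have h1 : ∀ i < n, v i = trunc A n (fun j => v j) i := by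
    intro i hi
    unfold trunc
    rw [dif_pos hi]
  rw [eval_congr h1 hs, eval_congr h1 ht]
  exact congrFun h _

/-- reduction of a term -/
def red (t : RTerm) : RTerm := subT t (rep A n (valf A n t))

theorem red_holds {t : RTerm} (ht : Vlt n t) : Holds A (red A n t) := by
  intro v
  unfold red
  rw [eval_subT, sub_eq_zero]
  exact holds_of_valf A n ht (rep_vlt A n _) (rep_val A n ht).symm v

/-- a finite set of identities in `n` variables -/
def Tfin : Set RTerm :=
  Set.image2 (fun a b => red A n (.add a b)) (Set.range (rep A n)) (Set.range (rep A n)) ∪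
  (Set.image2 (fun a b => red A n (.mul a b)) (Set.range (rep A n)) (Set.range (rep A n)) ∪
  ((fun a => red A n (.neg a)) '' (Set.range (rep A n)) ∪
  (Set.range (fun i : Fin n => red A n (.var i)) ∪ {red A n .zero})))

theorem Tfin_finite [Finite A] : (Tfin A n).Finite := by
  have h : (Set.range (rep A n)).Finite := Set.toFinite _
  unfold Tfin
  exact (h.image2 _ h).union ((h.image2 _ h).union ((h.image _).union
    ((Set.toFinite _).union (Set.finite_singleton _))))

theorem Tfin_holds : ∀ t ∈ Tfin A n, Holds A t := by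
  rintro t (⟨_, ⟨φ, rfl⟩, _, ⟨ψ, rfl⟩, rfl⟩ | ⟨_, ⟨φ, rfl⟩, _, ⟨ψ, rfl⟩, rfl⟩ |
    ⟨_, ⟨φ, rfl⟩, rfl⟩ | ⟨i, rfl⟩ | rfl)
  · exact red_holds A n ⟨rep_vlt A n φ, rep_vlt A n ψ⟩
  · exact red_holds A n ⟨rep_vlt A n φ, rep_vlt A n ψ⟩
  · exact red_holds A n (rep_vlt A n φ)
  · exact red_holds A n i.2
  · exact red_holds A n trivial

theorem reduce {R : Type} [NonUnitalRing R] (hR : InVar (Tfin A n) R) {t : RTerm}
    (ht : Vlt n t) (v : ℕ → R) : t.eval v = (rep A n (valf A n t)).eval v := by
  induction t with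
  | var i =>
    have := hR (red A n (.var i)) (Or.inr (Or.inr (Or.inr (Or.inl ⟨⟨i, ht⟩, rfl⟩)))) v
    unfold red at this
    rw [eval_subT, sub_eq_zero] at this
    exact this
  | zero =>
    have := hR (red A n .zero) (Or.inr (Or.inr (Or.inr (Or.inr rfl)))) v
    unfold red at this
    rw [eval_subT, sub_eq_zero] at this
    exact this
  | neg t ih =>
    have ht' : Vlt n t := ht
    have h1 := hR (red A n (.neg (rep A n (valf A n t))))
      (Or.inr (Or.inr (Or.inl ⟨_, ⟨_, rfl⟩, rfl⟩))) v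
    unfold red at h1
    rw [eval_subT, sub_eq_zero] at h1
    have h2 : valf A n (.neg (rep A n (valf A n t))) = valf A n (.neg t) := by
      funext w
      show -((rep A n (valf A n t)).eval (trunc A n w)) = -(t.eval (trunc A n w))
      have e1 : (rep A n (valf A n t)).eval (trunc A n w) = t.eval (trunc A n w) :=
        congrFun (rep_val A n ht') w
      rw [e1]
    rw [h2] at h1
    rw [← h1]
    show -(t.eval v) = -((rep A n (valf A n t)).eval v)
    rw [← ih ht']
  | add s t ihs iht =>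
    have h1 := hR (red A n (.add (rep A n (valf A n s)) (rep A n (valf A n t))))
      (Or.inl ⟨_, ⟨_, rfl⟩, _, ⟨_, rfl⟩, rfl⟩) v
    unfold red at h1
    rw [eval_subT, sub_eq_zero] at h1
    have h2 : valf A n (.add (rep A n (valf A n s)) (rep A n (valf A n t)))
        = valf A n (.add s t) := by
      funext w
      show (rep A n (valf A n s)).eval (trunc A n w) + (rep A n (valf A n t)).eval (trunc A n w)
        = s.eval (trunc A n w) + t.eval (trunc A n w)
      have e1 : (rep A n (valf A n s)).eval (trunc A n w) = s.eval (trunc A n w) :=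
        congrFun (rep_val A n ht.1) w
      have e2 : (rep A n (valf A n t)).eval (trunc A n w) = t.eval (trunc A n w) :=
        congrFun (rep_val A n ht.2) w
      rw [e1, e2]
    rw [h2] at h1
    rw [← h1]
    show s.eval v + t.eval v = (rep A n (valf A n s)).eval v + (rep A n (valf A n t)).eval v
    rw [← ihs ht.1, ← iht ht.2]
  | mul s t ihs iht =>
    have h1 := hR (red A n (.mul (rep A n (valf A n s)) (rep A n (valf A n t))))
      (Or.inr (Or.inl ⟨_, ⟨_, rfl⟩, _, ⟨_, rfl⟩, rfl⟩)) v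
    unfold red at h1
    rw [eval_subT, sub_eq_zero] at h1
    have h2 : valf A n (.mul (rep A n (valf A n s)) (rep A n (valf A n t)))
        = valf A n (.mul s t) := by
      funext w
      show (rep A n (valf A n s)).eval (trunc A n w) * (rep A n (valf A n t)).eval (trunc A n w)
        = s.eval (trunc A n w) * t.eval (trunc A n w)
      have e1 : (rep A n (valf A n s)).eval (trunc A n w) = s.eval (trunc A n w) :=
        congrFun (rep_val A n ht.1) w
      have e2 : (rep A n (valf A n t)).eval (trunc A n w) = t.eval (trunc A n w) :=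
        congrFun (rep_val A n ht.2) w
      rw [e1, e2]
    rw [h2] at h1
    rw [← h1]
    show s.eval v * t.eval v = (rep A n (valf A n s)).eval v * (rep A n (valf A n t)).eval v
    rw [← ihs ht.1, ← iht ht.2]

theorem holds_of_Tfin {R : Type} [NonUnitalRing R] (hR : InVar (Tfin A n) R) {t : RTerm}
    (ht : Vlt n t) (hA : Holds A t) : Holds R t := by
  intro v
  have h1 : valf A n t = valf A n .zero := by
    funext w
    exact hA _
  rw [reduce A n hR ht v, h1, ← reduce A n hR (t := .zero) trivial v]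
  rfl

end Fin

/-! ## The Cross property -/

theorem inVar_Id_of_fin {A : Type} [NonUnitalRing A] {p k : ℕ} (hp : p.Prime) (hk : 1 ≤ k)
    {R : Type} [NonUnitalRing R] (h0 : InVar (Sig0 p (p ^ k)) R)
    (h1 : InVar (Tfin A ((p ^ k) ^ 3)) R) : InVar (Id A) R := by
  intro t ht v
  by_contra hne
  obtain ⟨I, hI1, hI2⟩ := exists_quot_avoid (R := R) {t.eval v} (by
    intro h
    exact hne (Set.mem_singleton_iff.1 h).symm)
  have hr : qmk I (t.eval v) ≠ 0 := hI1 _ rfl
  obtain ⟨hfin, hcard⟩ := si_bound hp hk (sem_of_inVar (InVar.quot I h0)) (qmk I (t.eval v)) hr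
    (by
      intro J hJ
      obtain ⟨z, hz, hzJ⟩ := hI2 J hJ
      rw [Set.mem_singleton_iff] at hz
      rw [← hz]
      exact hzJ)
  let eq := Finite.equivFin I.ringCon.Quotient
  let σ : ℕ → ℕ := fun i => (eq (qmk I (v i))).val
  let w : ℕ → I.ringCon.Quotient := fun i =>
    if h : i < Nat.card I.ringCon.Quotient then eq.symm ⟨i, h⟩ else 0
  have hw : ∀ i, w (σ i) = qmk I (v i) := by
    intro i
    show (if h : (eq (qmk I (v i))).val < Nat.card I.ringCon.Quotient then
      eq.symm ⟨(eq (qmk I (v i))).val, h⟩ else 0) = _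
    rw [dif_pos (eq (qmk I (v i))).2]
    exact eq.symm_apply_apply _
  have h2 : Holds I.ringCon.Quotient (ren σ t) := by
    apply holds_of_Tfin A ((p ^ k) ^ 3) (InVar.quot I h1)
    · apply vlt_ren
      intro i
      exact lt_of_lt_of_le (eq (qmk I (v i))).2 hcard
    · intro u
      rw [eval_ren]
      exact ht _
  have h3 := h2 w
  rw [eval_ren] at h3
  have h4 : (fun i => w (σ i)) = fun i => qmk I (v i) := funext hw
  rw [h4, ← map_eval] at h3
  exact hr h3

theorem finitelyBased {A : Type} [NonUnitalRing A] [Finite A] {p k : ℕ} (hp : p.Prime)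
    (hk : 1 ≤ k) (hA : InVar (Sig0 p (p ^ k)) A) {S : Set RTerm} (h1 : VarLE S (Id A))
    (h2 : VarLE (Id A) S) : FinitelyBased S := by
  refine ⟨Sig0 p (p ^ k) ∪ Tfin A ((p ^ k) ^ 3), (Sig0_finite _ _).union (Tfin_finite A _), ?_, ?_⟩
  · intro R _ hR
    apply h2
    exact inVar_Id_of_fin hp hk (fun t ht => hR t (Or.inl ht)) (fun t ht => hR t (Or.inr ht))
  · intro R _ hR t ht
    apply h1 R hR
    rcases ht with ht | ht
    · exact hA t ht
    · exact Tfin_holds A _ t ht

theorem locallyFinite {A : Type} [NonUnitalRing A] [Finite A] {S : Set RTerm}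
    (h1 : VarLE S (Id A)) : IsLocallyFinite S := by
  classical
  intro R _ hR s hs hgen
  have hR' := h1 R hR
  let t := hs.toFinset
  let n := t.card
  let v : ℕ → R := fun i => if h : i < n then (t.equivFin.symm ⟨i, h⟩).1 else 0
  have hv : ∀ a ∈ s, ∃ i < n, v i = a := by
    intro a ha
    have ha' : a ∈ t := hs.mem_toFinset.2 ha
    refine ⟨(t.equivFin ⟨a, ha'⟩).val, (t.equivFin ⟨a, ha'⟩).2, ?_⟩
    show (if h : (t.equivFin ⟨a, ha'⟩).val < n then
      (t.equivFin.symm ⟨(t.equivFin ⟨a, ha'⟩).val, h⟩).1 else 0) = a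
    rw [dif_pos (t.equivFin ⟨a, ha'⟩).2]
    have : (⟨(t.equivFin ⟨a, ha'⟩).val, (t.equivFin ⟨a, ha'⟩).2⟩ : Fin n)
      = t.equivFin ⟨a, ha'⟩ := rfl
    rw [this, Equiv.symm_apply_apply]
  have hall : ∀ r ∈ NonUnitalSubring.closure s, ∃ u : RTerm, Vlt n u ∧ u.eval v = r := by
    intro r hr
    induction hr using NonUnitalSubring.closure_induction with
    | mem x hx =>
      obtain ⟨i, hi, hvi⟩ := hv x hx
      exact ⟨.var i, hi, hvi⟩
    | zero => exact ⟨.zero, trivial, rfl⟩
    | add x y _ _ hx hy =>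
      obtain ⟨a, ha, rfl⟩ := hx
      obtain ⟨b, hb, rfl⟩ := hy
      exact ⟨.add a b, ⟨ha, hb⟩, rfl⟩
    | neg x _ hx =>
      obtain ⟨a, ha, rfl⟩ := hx
      exact ⟨.neg a, ha, rfl⟩
    | mul x y _ _ hx hy =>
      obtain ⟨a, ha, rfl⟩ := hx
      obtain ⟨b, hb, rfl⟩ := hy
      exact ⟨.mul a b, ⟨ha, hb⟩, rfl⟩
  apply Finite.of_surjective (fun φ : (Fin n → A) → A => (rep A n φ).eval v)
  intro r
  obtain ⟨u, hu, rfl⟩ := hall r (by rw [hgen]; trivial)
  refine ⟨valf A n u, ?_⟩
  have := hR' (red A n u) (red_holds A n hu) v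
  unfold red at this
  rw [eval_subT, sub_eq_zero] at this
  exact this.symm

theorem critical_heart {R : Type} [NonUnitalRing R] (hR : Critical R) :
    ∃ h : R, h ≠ 0 ∧ ∀ J : TwoSidedIdeal R, (∃ a ∈ J, a ≠ 0) → h ∈ J := by
  by_contra hcon
  push Not at hcon
  obtain ⟨hfin, hcrit⟩ := hR
  apply hcrit
  intro t ht v
  by_contra hne
  obtain ⟨J, ⟨a, haJ, ha⟩, hJ⟩ := hcon _ hne
  have h1 : Holds J.ringCon.Quotient t := by
    apply ht
    · refine ⟨⊤, (qmk J).comp (NonUnitalSubringClass.subtype ⊤), ?_⟩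
      intro x
      obtain ⟨r, rfl⟩ := qmk_surj J x
      exact ⟨⟨r, trivial⟩, rfl⟩
    · rintro ⟨e⟩
      have hsurj : Function.Surjective (fun r => e (qmk J r)) :=
        e.surjective.comp (qmk_surj J)
      have hinj := Finite.injective_iff_surjective.2 hsurj
      apply ha
      apply hinj
      show e (qmk J a) = e (qmk J 0)
      rw [(qmk_eq_zero J a).2 haJ, map_zero (qmk J)]
  have h2 := h1 (fun i => qmk J (v i))
  rw [← map_eval, qmk_eq_zero] at h2
  exact hJ h2

/-- a type with `n` elements, without any algebraic structure -/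
def FinT (n : ℕ) : Type := Fin n

instance (n : ℕ) : Finite (FinT n) := inferInstanceAs (Finite (Fin n))

instance finite_rings (n : ℕ) : Finite (NonUnitalRing (FinT n)) := by
  let f : NonUnitalRing (FinT n) →
      (FinT n → FinT n → FinT n) × (FinT n → FinT n → FinT n) :=
    fun i => (fun a b => i.add a b, fun a b => i.mul a b)
  apply Finite.of_injective f
  intro i j hij
  apply NonUnitalRing.ext
  · funext a b
    exact congrFun (congrFun (congrArg Prod.fst hij) a) b
  · funext a b
    exact congrFun (congrFun (congrArg Prod.snd hij) a) b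

theorem fmc_of_bound {S : Set RTerm} (N : ℕ)
    (h : ∀ (R : Type) [NonUnitalRing R], Critical R → InVar S R → Nat.card R ≤ N) :
    FinitelyManyCritical S := by
  let X := Σ n : Fin (N + 1), NonUnitalRing (FinT n.val)
  have hX : Finite X := inferInstance
  let eq := Finite.equivFin X
  refine ⟨Nat.card X, fun i => FinT (eq.symm i).1.val, fun i => (eq.symm i).2, ?_⟩
  intro R inst hcrit hR
  have hfin : Finite R := hcrit.1
  have hc := h R hcrit hR
  let n : Fin (N + 1) := ⟨Nat.card R, Nat.lt_succ_of_le hc⟩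
  let e : FinT (Nat.card R) ≃ R := (Finite.equivFin R).symm
  let iR : NonUnitalRing (FinT (Nat.card R)) := Equiv.nonUnitalRing e
  let x : X := ⟨n, iR⟩
  refine ⟨eq x, ?_⟩
  have hx : eq.symm (eq x) = x := eq.symm_apply_apply x
  have key : ∀ z : X, z = x → Nonempty (@RingEquiv R (FinT z.1.val) inst.toMul
      z.2.toMul inst.toAdd z.2.toAdd) := by
    rintro z rfl
    exact ⟨(Equiv.ringEquiv e).symm⟩
  exact key _ hx

theorem cross_of_finite {A : Type} [NonUnitalRing A] [Finite A] {p k : ℕ} (hp : p.Prime)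
    (hk : 1 ≤ k) (hA : InVar (Sig0 p (p ^ k)) A) {S : Set RTerm} (h1 : VarLE S (Id A))
    (h2 : VarLE (Id A) S) : IsCross S := by
  refine ⟨finitelyBased hp hk hA h1 h2, locallyFinite h1, fmc_of_bound ((p ^ k) ^ 3) ?_⟩
  intro R _ hcrit hR
  obtain ⟨h, hh, hheart⟩ := critical_heart hcrit
  have hR0 : InVar (Sig0 p (p ^ k)) R := fun t ht => h1 R hR t (hA t ht)
  exact (si_bound hp hk (sem_of_inVar hR0) h hh hheart).2

end Pool.Agent.N57.EN
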