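import Pool.Agent.N57.EN.Core

/-!
# A non-nilpotent Engel action on a square-zero bimodule produces a finite ring `TRing K a b`
-/

namespace Pool.Agent.N57.EN

theorem jac_int : IsJacobsonRing ℤ := by
  rw [isJacobsonRing_iff_prime_eq]
  intro P hP
  by_cases h : P = ⊥
  · subst h
    rw [eq_bot_iff]
    intro x hx
    rw [Ideal.mem_jacobson_bot] at hx
    have := hx x
    rw [Int.isUnit_iff] at this
    rcases this with h | h
    · have : x * x = 0 := by linarith
      simpa using this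
    · nlinarith [mul_self_nonneg x]
  · have : P.IsMaximal := hP.isMaximal h
    exact Ideal.jacobson_eq_self_of_isMaximal

theorem finite_of_field_ft (K : Type*) [Field K] [inst : Algebra ℤ K] [Algebra.FiniteType ℤ K] :
    Finite K := by
  have hinst : inst = Ring.toIntAlgebra K := Subsingleton.elim _ _
  subst hinst
  have := jac_int
  have hfin : Module.Finite ℤ K := finite_of_finite_type_of_isJacobsonRing ℤ K
  obtain ⟨p, hp⟩ := CharP.exists K
  rcases CharP.char_is_prime_or_zero K p with hpp | h0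
  · have : Fact p.Prime := ⟨hpp⟩
    let _ : Algebra (ZMod p) K := ZMod.algebra K p
    have : Module.Finite (ZMod p) K := Module.Finite.of_restrictScalars_finite ℤ (ZMod p) K
    exact Module.finite_of_finite (ZMod p)
  · subst h0
    have : CharZero K := CharP.charP_to_charZero K
    exfalso
    have hint : Algebra.IsIntegral ℤ K := inferInstance
    have : IsField ℤ := isField_of_isIntegral_of_isField (R := ℤ) (S := K) (by
      intro a b h; exact_mod_cast h) (Field.toIsField K)
    exact Int.not_isField this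

/-- An element outside the radical of an ideal of a finitely generated commutative ring is
nonzero in some finite residue field. -/
theorem exists_field_quot (Z : Type) [CommRing Z] [Algebra ℤ Z] [Algebra.FiniteType ℤ Z]
    (𝔞 : Ideal Z) (δ : Z) (hδ : δ ∉ 𝔞.radical) :
    ∃ (K : Type) (_ : Field K) (_ : Finite K) (q : Z →+* K), Function.Surjective q ∧
      (∀ P ∈ 𝔞, q P = 0) ∧ q δ ≠ 0 := by
  have := jac_int
  have hjac : IsJacobsonRing Z := isJacobsonRing_of_finiteType (A := ℤ)
  rw [Ideal.radical_eq_jacobson, Ideal.jacobson, Ideal.mem_sInf] at hδ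
  push Not at hδ
  obtain ⟨𝔪, ⟨hle, hmax⟩, hnot⟩ := hδ
  have hft : Algebra.FiniteType ℤ (Z ⧸ 𝔪) := inferInstance
  let _ : Field (Z ⧸ 𝔪) := Ideal.Quotient.field 𝔪
  have hKfin : Finite (Z ⧸ 𝔪) := finite_of_field_ft (Z ⧸ 𝔪)
  refine ⟨Z ⧸ 𝔪, inferInstance, hKfin, Ideal.Quotient.mk 𝔪, Ideal.Quotient.mk_surjective, ?_, ?_⟩
  · intro P hP
    exact Ideal.Quotient.eq_zero_iff_mem.2 (hle hP)
  · intro h
    exact hnot (Ideal.Quotient.eq_zero_iff_mem.1 h)

section

variable {R : Type} [NonUnitalRing R]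

/-- left multiplication as an additive endomorphism -/
def Lm (s : R) : AddMonoid.End R := AddMonoidHom.mulLeft s

/-- right multiplication as an additive endomorphism -/
def Rm (s : R) : AddMonoid.End R := AddMonoidHom.mulRight s

@[simp] theorem Lm_apply (s x : R) : Lm s x = s * x := rfl
@[simp] theorem Rm_apply (s x : R) : Rm s x = x * s := rfl

theorem Lm_zero : Lm (0 : R) = 0 := by
  refine AddMonoidHom.ext fun x => ?_
  show 0 * x = 0
  rw [zero_mul]

theorem Rm_zero : Rm (0 : R) = 0 := by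
  refine AddMonoidHom.ext fun x => ?_
  show x * 0 = 0
  rw [mul_zero]

theorem Lm_add (s t : R) : Lm (s + t) = Lm s + Lm t := by
  refine AddMonoidHom.ext fun x => ?_
  show (s + t) * x = s * x + t * x
  rw [add_mul]

theorem Rm_add (s t : R) : Rm (s + t) = Rm s + Rm t := by
  refine AddMonoidHom.ext fun x => ?_
  show x * (s + t) = x * s + x * t
  rw [mul_add]

theorem Lm_neg (s : R) : Lm (-s) = - Lm s := by
  refine AddMonoidHom.ext fun x => ?_
  show (-s) * x = -(s * x)
  rw [neg_mul]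

theorem Rm_neg (s : R) : Rm (-s) = - Rm s := by
  refine AddMonoidHom.ext fun x => ?_
  show x * (-s) = -(x * s)
  rw [mul_neg]

theorem Lm_mul (s t : R) : Lm (s * t) = Lm s * Lm t := by
  refine AddMonoidHom.ext fun x => ?_
  show (s * t) * x = s * (t * x)
  rw [mul_assoc]

theorem Rm_mul (s t : R) : Rm (s * t) = Rm t * Rm s := by
  refine AddMonoidHom.ext fun x => ?_
  show x * (s * t) = (x * s) * t
  rw [mul_assoc]

theorem Lm_Rm_comm (s t : R) : Lm s * Rm t = Rm t * Lm s := by
  refine AddMonoidHom.ext fun x => ?_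
  show s * (x * t) = (s * x) * t
  rw [mul_assoc]

theorem Lm_pow_mul (s x t : R) (k : ℕ) : ((Lm s) ^ k) (x * t) = ((Lm s) ^ k) x * t := by
  induction k generalizing x with
  | zero => rfl
  | succ k ih =>
    rw [pow_succ]
    show ((Lm s) ^ k) (s * (x * t)) = ((Lm s) ^ k) (s * x) * t
    rw [← mul_assoc, ih]

/-- the commutative ring of operators generated by the left and right multiplication by `s` -/
abbrev ZZ (s : R) : Subalgebra ℤ (AddMonoid.End R) := Algebra.adjoin ℤ {Lm s, Rm s}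

theorem ZZ_ind (s : R) (A : Set R) (h0 : (0 : R) ∈ A) (hadd : ∀ x ∈ A, ∀ y ∈ A, x + y ∈ A)
    (hneg : ∀ x ∈ A, -x ∈ A) (hL : ∀ x ∈ A, s * x ∈ A) (hR : ∀ x ∈ A, x * s ∈ A) :
    ∀ P ∈ ZZ s, ∀ x ∈ A, P x ∈ A := by
  intro P hP
  induction hP using Algebra.adjoin_induction with
  | mem P hP =>
    rcases hP with rfl | rfl
    · exact hL
    · exact hR
  | algebraMap r =>
    intro x hx
    have hsub : ∀ n : ℤ, n • x ∈ A := by
      intro n
      have hn : ∀ n : ℕ, n • x ∈ A := by
        intro n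
        induction n with
        | zero => rw [zero_smul]; exact h0
        | succ n ih => rw [succ_nsmul]; exact hadd _ ih _ hx
      rcases n with n | n
      · rw [Int.ofNat_eq_natCast, natCast_zsmul]; exact hn n
      · rw [negSucc_zsmul]; exact hneg _ (hn _)
    have : (algebraMap ℤ (AddMonoid.End R) r) x = r • x := by
      rw [Algebra.algebraMap_eq_smul_one]
      rfl
    rw [this]
    exact hsub r
  | add P Q _ _ hP hQ =>
    intro x hx
    exact hadd _ (hP x hx) _ (hQ x hx)
  | mul P Q _ _ hP hQ =>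
    intro x hx
    exact hP _ (hQ x hx)

theorem ZZ_mul_zero (m s : R) (hz : ∀ k : ℕ, m * (((Lm s) ^ k) m) = 0) :
    ∀ P ∈ ZZ s, ∀ Q ∈ ZZ s, P m * Q m = 0 := by
  intro P hP Q hQ
  have hA : ∀ Q ∈ ZZ s, ∀ x ∈ {x : R | ∀ k : ℕ, m * (((Lm s) ^ k) x) = 0},
      Q x ∈ {x : R | ∀ k : ℕ, m * (((Lm s) ^ k) x) = 0} := by
    apply ZZ_ind
    · intro k; rw [map_zero, mul_zero]
    · intro x hx y hy k; rw [map_add, mul_add, hx k, hy k, add_zero]
    · intro x hx k; rw [map_neg, mul_neg, hx k, neg_zero]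
    · intro x hx k
      have := hx (k + 1)
      rw [pow_succ] at this
      exact this
    · intro x hx k
      rw [Lm_pow_mul, ← mul_assoc, hx k, zero_mul]
  have hQm := hA Q hQ m hz
  have hB : ∀ P ∈ ZZ s, ∀ y ∈ {y : R | ∀ x : R, (∀ k : ℕ, m * (((Lm s) ^ k) x) = 0) →
        ∀ k : ℕ, y * (((Lm s) ^ k) x) = 0},
      P y ∈ {y : R | ∀ x : R, (∀ k : ℕ, m * (((Lm s) ^ k) x) = 0) →
        ∀ k : ℕ, y * (((Lm s) ^ k) x) = 0} := by
    apply ZZ_ind
    · intro x _ k; rw [zero_mul]
    · intro y hy z hz' x hx k; rw [add_mul, hy x hx k, hz' x hx k, add_zero]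
    · intro y hy x hx k; rw [neg_mul, hy x hx k, neg_zero]
    · intro y hy x hx k
      rw [mul_assoc, hy x hx k, mul_zero]
    · intro y hy x hx k
      rw [mul_assoc]
      have := hy x hx (k + 1)
      rw [pow_succ'] at this
      exact this
  exact hB P hP m (fun x hx => hx) (Q m) hQm 0

end

/-- the correspondence between `R × R` and `TRing K a b` -/
theorem InVar_TRing {S : Set RTerm} {R : Type} [NonUnitalRing R] (hR : InVar S R) (m s : R)
    (Z : Type) [CommRing Z] (ρ : Z →+* AddMonoid.End R)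
    (hm : ∀ P Q : Z, ρ P m * ρ Q m = 0) (A B : Z) (hA : ρ A = Lm s) (hB : ρ B = Rm s)
    (K : Type) [Field K] (q : Z →+* K) (hq : Function.Surjective q)
    (hqm : ∀ P : Z, ρ P m = 0 → q P = 0) : InVar S (TRing K (q A) (q B)) := by
  let G : NonUnitalSubring ((R × R) × Matrix (Fin 2) (Fin 2) K) :=
    { carrier := {x | ∃ (t : R) (P Q1 Q2 : Z), ρ Q1 = Lm t ∧ ρ Q2 = Rm t ∧
        x = ((t, t + ρ P m), !![q Q1, q P; 0, q Q2])}
      add_mem' := by
        rintro _ _ ⟨t, P, Q1, Q2, h1, h2, rfl⟩ ⟨t', P', Q1', Q2', h1', h2', rfl⟩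
        refine ⟨t + t', P + P', Q1 + Q1', Q2 + Q2', ?_, ?_, ?_⟩
        · rw [map_add, Lm_add, ← h1, ← h1']
        · rw [map_add, Rm_add, ← h2, ← h2']
        · refine Prod.ext (Prod.ext rfl ?_) ?_
          · rw [map_add]
            show t + ρ P m + (t' + ρ P' m) = t + t' + (ρ P m + ρ P' m)
            abel
          · simp [map_add]
      zero_mem' := by
        refine ⟨0, 0, 0, 0, ?_, ?_, ?_⟩
        · rw [map_zero, Lm_zero]
        · rw [map_zero, Rm_zero]
        · rw [map_zero, map_zero]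
          refine Prod.ext (Prod.ext rfl ?_) ?_
          · show (0 : R) = 0 + 0
            rw [add_zero]
          · ext i j
            fin_cases i <;> fin_cases j <;> rfl
      neg_mem' := by
        rintro _ ⟨t, P, Q1, Q2, h1, h2, rfl⟩
        refine ⟨-t, -P, -Q1, -Q2, ?_, ?_, ?_⟩
        · rw [map_neg, Lm_neg, ← h1]
        · rw [map_neg, Rm_neg, ← h2]
        · refine Prod.ext (Prod.ext rfl ?_) ?_
          · rw [map_neg]
            show -(t + ρ P m) = -t + -(ρ P m)
            abel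
          · ext i j
            fin_cases i <;> fin_cases j <;> simp
      mul_mem' := by
        rintro _ _ ⟨t, P, Q1, Q2, h1, h2, rfl⟩ ⟨t', P', Q1', Q2', h1', h2', rfl⟩
        refine ⟨t * t', Q1 * P' + Q2' * P, Q1 * Q1', Q2' * Q2, ?_, ?_, ?_⟩
        · rw [map_mul, Lm_mul, ← h1, ← h1']
        · rw [map_mul, Rm_mul, ← h2, ← h2']
        · refine Prod.ext (Prod.ext rfl ?_) ?_
          · rw [map_add, map_mul, map_mul]
            show (t + ρ P m) * (t' + ρ P' m) = t * t' + (ρ Q1 (ρ P' m) + ρ Q2' (ρ P m))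
            rw [h1, h2', Lm_apply, Rm_apply, add_mul, mul_add, mul_add, hm]
            abel
          · ext i j
            fin_cases i <;> fin_cases j <;> simp [map_add, map_mul, mul_comm] }
  let φ : G →ₙ+* R × R := (NonUnitalRingHom.fst (R × R) (Matrix (Fin 2) (Fin 2) K)).comp
    (NonUnitalSubringClass.subtype G)
  let ψ0 : G →ₙ+* Matrix (Fin 2) (Fin 2) K :=
    (NonUnitalRingHom.snd (R × R) (Matrix (Fin 2) (Fin 2) K)).comp
    (NonUnitalSubringClass.subtype G)
  have hrange : InVar S ψ0.range := by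
    apply InVar.of_corr φ ψ0.rangeRestrict (NonUnitalRingHom.rangeRestrict_surjective ψ0) _
      (hR.prod hR)
    rintro ⟨g, t, P, Q1, Q2, h1, h2, hg⟩ h0
    have h0' : g.1 = 0 := h0
    rw [hg] at h0'
    have ht : t = 0 := congrArg Prod.fst h0'
    have hP : t + ρ P m = 0 := congrArg Prod.snd h0'
    rw [ht, zero_add] at hP
    rw [ht, Lm_zero] at h1
    rw [ht, Rm_zero] at h2
    have hQ1 : q Q1 = 0 := hqm _ (by rw [h1]; rfl)
    have hQ2 : q Q2 = 0 := hqm _ (by rw [h2]; rfl)
    apply Subtype.ext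
    show g.2 = 0
    rw [hg]
    show !![q Q1, q P; 0, q Q2] = 0
    rw [hQ1, hQ2, hqm P hP]
    ext i j
    fin_cases i <;> fin_cases j <;> rfl
  have hle' : TRing K (q A) (q B) ≤ ψ0.range := by
    unfold TRing
    rw [NonUnitalSubring.closure_le]
    rintro x (hx | ⟨u, rfl⟩)
    · rw [Set.mem_singleton_iff] at hx
      subst hx
      refine ⟨⟨((s, s + ρ 0 m), !![q A, q 0; 0, q B]), s, 0, A, B, hA, hB, rfl⟩, ?_⟩
      show !![q A, q 0; 0, q B] = _
      rw [map_zero]
    · obtain ⟨P, rfl⟩ := hq u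
      refine ⟨⟨((0, 0 + ρ P m), !![q 0, q P; 0, q 0]), 0, P, 0, 0, ?_, ?_, rfl⟩, ?_⟩
      · rw [map_zero, Lm_zero]
      · rw [map_zero, Rm_zero]
      · show !![q 0, q P; 0, q 0] = _
        rw [map_zero]
  exact InVar.of_inj (NonUnitalSubring.inclusion hle')
    (fun x y h => Subtype.ext (congrArg (fun z : ψ0.range => z.1) h)) hrange

open scoped IsMulCommutative in
theorem exists_TRing {S : Set RTerm} {R : Type} [NonUnitalRing R] (hR : InVar S R) (m s : R)
    (hz : ∀ k : ℕ, m * (((Lm s) ^ k) m) = 0) (hne : ∀ n, engel n m s ≠ 0) :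
    ∃ (K : Type) (_ : Field K) (_ : Finite K) (a b : K), a ≠ b ∧ InVar S (TRing K a b) := by
  classical
  have hcomm : ∀ a ∈ ({Lm s, Rm s} : Set (AddMonoid.End R)), ∀ b ∈ ({Lm s, Rm s} :
      Set (AddMonoid.End R)), a * b = b * a := by
    rintro a (rfl | rfl) b (rfl | rfl)
    · rfl
    · exact Lm_Rm_comm s s
    · exact (Lm_Rm_comm s s).symm
    · rfl
  have := Algebra.isMulCommutative_adjoin ℤ hcomm
  let _ : CommRing (ZZ s) := inferInstance
  have hft : Algebra.FiniteType ℤ (ZZ s) := by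
    rw [← Subalgebra.fg_iff_finiteType]
    refine ⟨({Lm s, Rm s} : Finset _), ?_⟩
    rw [Finset.coe_insert, Finset.coe_singleton]
  -- the annihilator of `m`
  let 𝔞 : Ideal (ZZ s) :=
    { carrier := {P | P.1 m = 0}
      add_mem' := by
        intro P Q hP hQ
        show (P.1 + Q.1) m = 0
        show P.1 m + Q.1 m = 0
        rw [show P.1 m = 0 from hP, show Q.1 m = 0 from hQ, add_zero]
      zero_mem' := rfl
      smul_mem' := by
        intro P Q hQ
        show P.1 (Q.1 m) = 0
        rw [show Q.1 m = 0 from hQ, map_zero] }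
  have hLmem : Lm s ∈ ZZ s := Algebra.subset_adjoin (by simp)
  have hRmem : Rm s ∈ ZZ s := Algebra.subset_adjoin (by simp)
  let A : ZZ s := ⟨Lm s, hLmem⟩
  let B : ZZ s := ⟨Rm s, hRmem⟩
  have hpow : ∀ n : ℕ, ((B - A) ^ n).1 m = engel n m s := by
    intro n
    induction n with
    | zero => rfl
    | succ n ih =>
      rw [pow_succ']
      show (Rm s - Lm s) (((B - A) ^ n).1 m) = _
      rw [ih]
      rfl
  have hrad : (B - A) ∉ 𝔞.radical := by
    rintro ⟨n, hn⟩
    exact hne n (by rw [← hpow n]; exact hn)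
  obtain ⟨K, hF, hfin, q, hq, hqa, hqd⟩ := exists_field_quot (ZZ s) 𝔞 (B - A) hrad
  refine ⟨K, hF, hfin, q A, q B, ?_, ?_⟩
  · intro h
    apply hqd
    rw [map_sub, h, sub_self]
  · exact InVar_TRing hR m s (ZZ s) (ZZ s).val.toRingHom
      (fun P Q => ZZ_mul_zero m s hz P.1 P.2 Q.1 Q.2) A B rfl rfl K q hq
      (fun P hP => hqa P hP)

end Pool.Agent.N57.EN
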