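import Pool.Agent.N57.EN.Prime

/-!
# An identity whose linear part is an Engel commutator
-/

noncomputable section

namespace Pool.Agent.N57.EN

open MonoidAlgebra

/-- the free ring on two generators `X = true`, `Y = false` -/
abbrev FW := FreeSemigroup Bool

abbrev FA := MonoidAlgebra ℤ FW

/-- the letters of a word -/
def toL (w : FW) : List Bool := w.head :: w.tail

theorem toL_inj {w w' : FW} (h : toL w = toL w') : w = w' := by
  unfold toL at h
  rw [List.cons.injEq] at h
  exact FreeSemigroup.ext h.1 h.2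

theorem toL_mul (w w' : FW) : toL (w * w') = toL w ++ toL w' := by
  unfold toL
  simp

/-- the number of letters `X` -/
def cnt (w : FW) : ℕ := (toL w).count true

theorem cnt_mul (w w' : FW) : cnt (w * w') = cnt w + cnt w' := by
  unfold cnt
  rw [toL_mul, List.count_append]

section

variable {R : Type} [NonUnitalRing R]

/-- value of a word -/
def wd (x y : R) : FW →ₙ* R := FreeSemigroup.lift (fun b => bif b then x else y)

/-- value of an element of the free ring -/
def ev (x y : R) : FA →ₙ+* R where
  toFun := MonoidAlgebra.liftMagma ℤ (wd x y)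
  map_mul' := map_mul _
  map_zero' := map_zero _
  map_add' := map_add _

theorem ev_apply (x y : R) (f : FA) : ev x y f = f.coeff.sum (fun w c => c • wd x y w) := by
  show MonoidAlgebra.liftMagma ℤ (wd x y) f = _
  rw [MonoidAlgebra.liftMagma_apply_apply]
  rfl

/-- the generators -/
def gX : FA := MonoidAlgebra.single (FreeSemigroup.of true) 1
def gY : FA := MonoidAlgebra.single (FreeSemigroup.of false) 1

theorem ev_gX (x y : R) : ev x y gX = x := by
  rw [ev_apply, gX, coeff_single, Finsupp.sum_single_index (by rw [zero_smul]), one_smul]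
  rfl

theorem ev_gY (x y : R) : ev x y gY = y := by
  rw [ev_apply, gY, coeff_single, Finsupp.sum_single_index (by rw [zero_smul]), one_smul]
  rfl

end

theorem coeff_mul_ne {f g : FA} {w : FW} (h : (f * g).coeff w ≠ 0) :
    ∃ a b : FW, a * b = w ∧ f.coeff a ≠ 0 ∧ g.coeff b ≠ 0 := by
  classical
  by_contra hcon
  push Not at hcon
  apply h
  rw [coeff_mul]
  unfold Finsupp.sum
  apply Finset.sum_eq_zero
  intro a ha
  apply Finset.sum_eq_zero
  intro b hb
  rw [Finsupp.mem_support_iff] at ha hb
  show (if a * b = w then f.coeff a * g.coeff b else 0) = 0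
  split_ifs with hab
  · exact absurd (hcon a b hab ha) hb
  · rfl

/-- elements of the free ring all of whose words contain at least `d` letters `X` -/
def Jd (d : ℕ) : TwoSidedIdeal FA := TwoSidedIdeal.mk' {f | ∀ w, f.coeff w ≠ 0 → d ≤ cnt w}
  (by intro w hw; exact absurd rfl hw)
  (by
    intro f g hf hg w hw
    rw [coeff_add, Finsupp.add_apply] at hw
    by_cases h : f.coeff w = 0
    · rw [h, zero_add] at hw; exact hg w hw
    · exact hf w h)
  (by
    intro f hf w hw
    apply hf w
    intro h
    apply hw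
    rw [MonoidAlgebra.coeff_neg, Finsupp.neg_apply, h, neg_zero])
  (by
    intro g f hf w hw
    obtain ⟨a, b, rfl, ha, hb⟩ := coeff_mul_ne hw
    rw [cnt_mul]
    have := hf b hb
    omega)
  (by
    intro f g hf w hw
    obtain ⟨a, b, rfl, ha, hb⟩ := coeff_mul_ne hw
    rw [cnt_mul]
    have := hf a ha
    omega)

theorem mem_Jd (d : ℕ) (f : FA) : f ∈ Jd d ↔ ∀ w, f.coeff w ≠ 0 → d ≤ cnt w := by
  unfold Jd
  rw [TwoSidedIdeal.mem_mk']
  rfl

/-- elements of the free ring all of whose words contain exactly one letter `X` -/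
def Hom1 (f : FA) : Prop := ∀ w, f.coeff w ≠ 0 → cnt w = 1

theorem hom1_engel (n : ℕ) : Hom1 (engel n gX gY) := by
  induction n with
  | zero =>
    intro w hw
    show cnt w = 1
    have : w = FreeSemigroup.of true := by
      by_contra h
      apply hw
      show (gX).coeff w = 0
      rw [gX, coeff_single, Finsupp.single_apply, if_neg (fun h' => h h'.symm)]
    rw [this]
    rfl
  | succ n ih =>
    have hYc : ∀ w, gY.coeff w ≠ 0 → cnt w = 0 := by
      intro w hw
      have : w = FreeSemigroup.of false := by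
        by_contra h
        apply hw
        rw [gY, coeff_single, Finsupp.single_apply, if_neg (fun h' => h h'.symm)]
      rw [this]
      rfl
    intro w hw
    have hw' : (engel n gX gY * gY - gY * engel n gX gY).coeff w ≠ 0 := hw
    rw [MonoidAlgebra.coeff_sub, Finsupp.sub_apply] at hw'
    by_cases h : (engel n gX gY * gY).coeff w = 0
    · rw [h, zero_sub, neg_ne_zero] at hw'
      obtain ⟨a, b, rfl, ha, hb⟩ := coeff_mul_ne hw'
      rw [cnt_mul, hYc a ha, ih b hb]
    · obtain ⟨a, b, rfl, ha, hb⟩ := coeff_mul_ne h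
      rw [cnt_mul, hYc b hb, ih a ha]

/-- the identities of the variety in the free ring on two generators -/
def TI (S : Set RTerm) : TwoSidedIdeal FA := TwoSidedIdeal.mk'
  {f | ∀ (R : Type) [NonUnitalRing R], InVar S R → ∀ x y : R, ev x y f = 0}
  (by intro R _ _ x y; exact map_zero _)
  (by intro f g hf hg R _ hR x y; rw [map_add, hf R hR, hg R hR, add_zero])
  (by intro f hf R _ hR x y; rw [map_neg, hf R hR, neg_zero])
  (by intro g f hf R _ hR x y; rw [map_mul, hf R hR, mul_zero])
  (by intro f g hf R _ hR x y; rw [map_mul, hf R hR, zero_mul])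

theorem mem_TI (S : Set RTerm) (f : FA) : f ∈ TI S ↔
    ∀ (R : Type) [NonUnitalRing R], InVar S R → ∀ x y : R, ev x y f = 0 := by
  unfold TI
  rw [TwoSidedIdeal.mem_mk']
  rfl

theorem InVar_quot_TI (S : Set RTerm) (I : TwoSidedIdeal FA) (hI : TI S ≤ I) :
    InVar S I.ringCon.Quotient := by
  intro t ht v
  choose f hf using qmk_surj I
  have h1 : v = fun i => qmk I (f (v i)) := by funext i; exact (hf (v i)).symm
  rw [h1, ← map_eval, qmk_eq_zero]
  apply hI
  rw [mem_TI]
  intro R _ hR x y
  rw [map_eval]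
  exact hR t ht _

theorem exists_poly {S : Set RTerm} (hH : NoT S) : ∃ (N : ℕ) (F : FA), F ∈ TI S ∧
    (∀ w, F.coeff w ≠ 0 → 1 ≤ cnt w) ∧
    (∀ w, cnt w = 1 → F.coeff w = (engel N gX gY).coeff w) := by
  obtain ⟨N, hN⟩ := uniform hH
  have hX1 : gX ∈ Jd 1 := by
    rw [mem_Jd]
    intro w hw
    exact le_of_eq (hom1_engel 0 w hw).symm
  have h2 : ∀ f ∈ Jd 1, ∀ g ∈ Jd 1, f * g ∈ Jd 2 := by
    intro f hf g hg
    rw [mem_Jd] at *
    intro w hw
    obtain ⟨a, b, rfl, ha, hb⟩ := coeff_mul_ne hw
    rw [cnt_mul]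
    have := hf a ha
    have := hg b hb
    omega
  have hpow : ∀ k : ℕ, ((Lm gY) ^ k) gX ∈ Jd 1 := by
    intro k
    induction k with
    | zero => exact hX1
    | succ k ih =>
      rw [pow_succ']
      exact (Jd 1).mul_mem_left _ _ ih
  let I := TI S ⊔ Jd 2
  have hq : InVar S I.ringCon.Quotient := InVar_quot_TI S I le_sup_left
  have hLq : ∀ (k : ℕ) (f : FA), ((Lm (qmk I gY)) ^ k) (qmk I f) = qmk I (((Lm gY) ^ k) f) := by
    intro k f
    induction k with
    | zero => rfl
    | succ k ih =>
      rw [pow_succ', pow_succ']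
      show qmk I gY * ((Lm (qmk I gY)) ^ k) (qmk I f) = qmk I (gY * ((Lm gY) ^ k) f)
      rw [ih, map_mul]
  have h3 := hN I.ringCon.Quotient hq (qmk I gX) (qmk I gY) (by
    intro k
    rw [hLq, ← map_mul, qmk_eq_zero]
    have : gX * ((Lm gY) ^ k) gX ∈ Jd 2 := h2 _ hX1 _ (hpow k)
    exact (le_sup_right : Jd 2 ≤ I) this)
  rw [← map_engel, qmk_eq_zero] at h3
  obtain ⟨F, hF, h, hh, hsum⟩ := TwoSidedIdeal.mem_sup.1 h3
  rw [mem_Jd] at hh
  refine ⟨N, F, hF, ?_, ?_⟩
  · intro w hw
    by_contra hlt
    have e : F.coeff w + h.coeff w = (engel N gX gY).coeff w := by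
      rw [← hsum, coeff_add, Finsupp.add_apply]
    have e1 : h.coeff w = 0 := by
      by_contra hne
      have := hh w hne
      omega
    have e2 : (engel N gX gY).coeff w = 0 := by
      by_contra hne
      have := hom1_engel N w hne
      omega
    rw [e1, e2, add_zero] at e
    exact hw e
  · intro w hw
    have e : F.coeff w + h.coeff w = (engel N gX gY).coeff w := by
      rw [← hsum, coeff_add, Finsupp.add_apply]
    have e1 : h.coeff w = 0 := by
      by_contra hne
      have := hh w hne
      omega
    rw [e1, add_zero] at e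
    exact e

/-- The identity in elementary form. -/
theorem exists_identity {S : Set RTerm} (hH : NoT S) :
    ∃ (N : ℕ) (W : Finset FW) (c : FW → ℤ),
      (∀ (R : Type) [NonUnitalRing R], InVar S R → ∀ x y : R, ∑ w ∈ W, c w • wd x y w = 0) ∧
      (∀ w ∈ W, 1 ≤ cnt w) ∧
      (∀ (R : Type) [NonUnitalRing R] (x y : R),
        ∑ w ∈ W with cnt w = 1, c w • wd x y w = engel N x y) := by
  classical
  obtain ⟨N, F, hF, h1, h2⟩ := exists_poly hH
  refine ⟨N, F.coeff.support, F.coeff, ?_, ?_, ?_⟩
  · intro R _ hR x y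
    have := (mem_TI S F).1 hF R hR x y
    rw [ev_apply] at this
    exact this
  · intro w hw
    exact h1 w (Finsupp.mem_support_iff.1 hw)
  · intro R _ x y
    have e1 : engel N x y = ev x y (engel N gX gY) := by
      rw [map_engel, ev_gX, ev_gY]
    rw [e1, ev_apply]
    unfold Finsupp.sum
    apply Finset.sum_congr
    · ext w
      rw [Finset.mem_filter, Finsupp.mem_support_iff, Finsupp.mem_support_iff]
      constructor
      · rintro ⟨ha, hb⟩
        rw [← h2 w hb]
        exact ha
      · intro ha
        have := hom1_engel N w ha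
        exact ⟨by rw [h2 w this]; exact ha, this⟩
    · intro w hw
      rw [Finsupp.mem_support_iff] at hw
      rw [h2 w (hom1_engel N w hw)]

end Pool.Agent.N57.EN
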