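import Pool.Agent.N57.EN.Vdm

/-!
# Generic elements in a domain with a small extended centroid
-/

namespace Pool.Agent.N57.EN

section

variable {R : Type} [NonUnitalRing R]

/-- independence over the extended centroid -/
def Indep {ι : Type*} (s : Finset ι) (a : ι → R) : Prop :=
  ∀ b : ι → R, (∀ r, ∑ i ∈ s, a i * r * b i = 0) → ∀ i ∈ s, b i = 0

variable (hd : ∀ a b : R, a * b = 0 → a = 0 ∨ b = 0)

include hd

theorem transfer {v0 : R} (hv0 : v0 ≠ 0)
    (hmax : ∀ v : R, v ≠ 0 → (Cs v).Finite ∧ (Cs v).ncard ≤ (Cs v0).ncard)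
    {v u' : R} (hv : v ≠ 0) (hu' : u' ∈ Cs v) :
    ∃ u ∈ Cs v0, ∀ r, v0 * r * u' = u * r * v := by
  set v1 := v0 * v0 * v with hv1
  have hv1ne : v1 ≠ 0 := mul_ne hd (mul_ne hd hv0 hv0) hv
  have hmap : ∀ u ∈ Cs v0, u * v0 * v ∈ Cs v1 := by
    intro u hu s
    calc u * v0 * v * s * v1 = (u * (v0 * v * s) * v0) * (v0 * v) := by
          rw [hv1]; simp only [mul_assoc]
      _ = (v0 * (v0 * v * s) * u) * (v0 * v) := by rw [hu]
      _ = v1 * s * (u * v0 * v) := by rw [hv1]; simp only [mul_assoc]
  have hmem : v0 * v0 * u' ∈ Cs v1 := by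
    intro s
    calc v0 * v0 * u' * s * v1 = v0 * v0 * (u' * (s * v0 * v0) * v) := by
          rw [hv1]; simp only [mul_assoc]
      _ = v0 * v0 * (v * (s * v0 * v0) * u') := by rw [hu']
      _ = v1 * s * (v0 * v0 * u') := by rw [hv1]; simp only [mul_assoc]
  have hinj : Set.InjOn (fun u => u * v0 * v) (Cs v0) := by
    intro u _ w _ h
    exact mul_cancel_r hd hv0 (mul_cancel_r hd hv h)
  have himg : (fun u => u * v0 * v) '' (Cs v0) = Cs v1 := by
    apply Set.eq_of_subset_of_ncard_le
    · rintro _ ⟨u, hu, rfl⟩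
      exact hmap u hu
    · rw [hinj.ncard_image]
      exact (hmax v1 hv1ne).2
    · exact (hmax v1 hv1ne).1
  rw [← himg] at hmem
  obtain ⟨u, hu, hue⟩ := hmem
  have hue' : u * v0 * v = v0 * v0 * u' := hue
  refine ⟨u, hu, ?_⟩
  intro r
  have h1 : v1 * v * (v0 * r * u') = v1 * v * (u * r * v) := by
    calc v1 * v * (v0 * r * u') = v0 * v0 * (v * (v * v0 * r) * u') := by
          rw [hv1]; simp only [mul_assoc]
      _ = v0 * v0 * (u' * (v * v0 * r) * v) := by rw [hu']
      _ = (v0 * v0 * u') * v * (v0 * r * v) := by simp only [mul_assoc]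
      _ = (u * v0 * v) * v * (v0 * r * v) := by rw [hue']
      _ = (u * (v0 * v * v) * v0) * (r * v) := by simp only [mul_assoc]
      _ = (v0 * (v0 * v * v) * u) * (r * v) := by rw [hu]
      _ = v1 * v * (u * r * v) := by rw [hv1]; simp only [mul_assoc]
  exact mul_cancel_l hd (mul_ne hd hv1ne hv) h1

omit hd in
theorem rel_step {ι : Type*} (s : Finset ι) (a b : ι → R) (i0 : ι) (y x : R) :
    ∑ i ∈ s, a i * x * (b i0 * y * b i - b i * y * b i0)
      = (∑ i ∈ s, a i * (x * b i0 * y) * b i) - (∑ i ∈ s, a i * x * b i) * (y * b i0) := by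
  rw [Finset.sum_mul, ← Finset.sum_sub_distrib]
  apply Finset.sum_congr rfl
  intro i _
  rw [mul_sub]
  simp only [mul_assoc]

omit hd in
theorem card_step {ι : Type*} [DecidableEq R] (s : Finset ι) (b : ι → R) (i0 : ι) (hi0 : i0 ∈ s)
    (hb : b i0 ≠ 0) (y : R) :
    (s.filter (fun i => b i0 * y * b i - b i * y * b i0 ≠ 0)).card
      < (s.filter (fun i => b i ≠ 0)).card := by
  apply Finset.card_lt_card
  rw [Finset.ssubset_iff_of_subset]
  · refine ⟨i0, Finset.mem_filter.2 ⟨hi0, hb⟩, ?_⟩
    intro h
    exact (Finset.mem_filter.1 h).2 (sub_self _)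
  · intro i hi
    rw [Finset.mem_filter] at hi ⊢
    refine ⟨hi.1, ?_⟩
    intro h0
    apply hi.2
    rw [h0, mul_zero, zero_mul, zero_mul, sub_zero]

omit hd in
theorem minimal_rel {ι : Type*} (s : Finset ι) (a : ι → R) (n : ℕ) :
    ∀ b : ι → R, (∀ r, ∑ i ∈ s, a i * r * b i = 0) → (∃ i ∈ s, b i ≠ 0) →
      (∀ [DecidableEq R], (s.filter (fun i => b i ≠ 0)).card ≤ n) →
      ∃ b' : ι → R, (∀ r, ∑ i ∈ s, a i * r * b' i = 0) ∧ ∃ i0 ∈ s, b' i0 ≠ 0 ∧
        ∀ i ∈ s, b' i ∈ Cs (b' i0) := by
  classical
  induction n with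
  | zero =>
    intro b _ ⟨i, hi, hbi⟩ hcard
    have := hcard
    rw [Nat.le_zero, Finset.card_eq_zero, Finset.filter_eq_empty_iff] at this
    exact absurd hbi (this hi)
  | succ n ih =>
    intro b hrel ⟨i0, hi0, hbi0⟩ hcard
    by_cases hall : ∀ i ∈ s, b i ∈ Cs (b i0)
    · exact ⟨b, hrel, i0, hi0, hbi0, hall⟩
    · push Not at hall
      obtain ⟨i1, hi1, hne⟩ := hall
      have : ∃ y, b i1 * y * b i0 ≠ b i0 * y * b i1 := by
        by_contra hcon
        push Not at hcon
        exact hne hcon
      obtain ⟨y, hy⟩ := this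
      apply ih (fun i => b i0 * y * b i - b i * y * b i0)
      · intro r
        rw [rel_step, hrel, hrel, zero_mul, sub_zero]
      · exact ⟨i1, hi1, fun h => hy (sub_eq_zero.1 h).symm⟩
      · intro _
        have h1 := card_step s b i0 hi0 hbi0 y
        have h2 := hcard
        have h3 : (s.filter (fun i => b i0 * y * b i - b i * y * b i0 ≠ 0)).card ≤ n := by
          omega
        convert h3

/-- the pattern lemma -/
theorem pattern {v0 : R} (hv0 : v0 ≠ 0)
    (hmax : ∀ v : R, v ≠ 0 → (Cs v).Finite ∧ (Cs v).ncard ≤ (Cs v0).ncard)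
    {ι : Type*} (s : Finset ι) (a : ι → R) (hdep : ¬ Indep s a) :
    ∃ u : ι → R, (∀ i, u i ∈ Cs v0) ∧ (∃ i ∈ s, u i ≠ 0) ∧ ∀ r, ∑ i ∈ s, a i * r * u i = 0 := by
  classical
  unfold Indep at hdep
  push Not at hdep
  obtain ⟨b, hrel, i, hi, hbi⟩ := hdep
  obtain ⟨b', hrel', i0, hi0, hb0, hC⟩ := minimal_rel s a _ b hrel ⟨i, hi, hbi⟩ (by
    intro _
    have : (s.filter (fun i => b i ≠ 0)).card ≤ s.card := Finset.card_filter_le _ _
    convert this)
  have h1 : ∀ i, ∃ u ∈ Cs v0, i ∈ s → ∀ r, v0 * r * b' i = u * r * b' i0 := by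
    intro i
    by_cases hi : i ∈ s
    · obtain ⟨u, hu, h⟩ := transfer hd hv0 hmax hb0 (hC i hi)
      exact ⟨u, hu, fun _ => h⟩
    · exact ⟨v0, self_mem_Cs v0, fun h => absurd h hi⟩
  choose u hu hur using h1
  refine ⟨u, hu, ⟨i0, hi0, ?_⟩, ?_⟩
  · intro h0
    have := hur i0 hi0 (b' i0)
    rw [h0, zero_mul, zero_mul] at this
    exact mul_ne hd (mul_ne hd hv0 hb0) hb0 this
  · intro r
    have h2 : (∑ i ∈ s, a i * r * u i) * (b' i0 * b' i0) = 0 := by
      rw [Finset.sum_mul]
      have h3 : ∀ i ∈ s, a i * r * u i * (b' i0 * b' i0) = a i * (r * v0 * b' i0) * b' i := by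
        intro i hi
        calc a i * r * u i * (b' i0 * b' i0) = a i * r * (u i * b' i0 * b' i0) := by
              simp only [mul_assoc]
          _ = a i * r * (v0 * b' i0 * b' i) := by rw [hur i hi]
          _ = a i * (r * v0 * b' i0) * b' i := by simp only [mul_assoc]
      rw [Finset.sum_congr rfl h3, hrel']
    rcases hd _ _ h2 with h | h
    · exact h
    · exact absurd h (mul_ne hd hb0 hb0)

/-- Martindale's lemma with finite image -/
theorem finite_image [Infinite R] {ι : Type*} (s : Finset ι) (a : ι → R) (ha : Indep s a)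
    (n : ℕ) : ∀ b : ι → R, (Set.range (fun x => ∑ i ∈ s, a i * x * b i)).Finite →
      (∀ [DecidableEq R], (s.filter (fun i => b i ≠ 0)).card ≤ n) → ∀ i ∈ s, b i = 0 := by
  classical
  induction n with
  | zero =>
    intro b _ hcard i hi
    have := hcard
    rw [Nat.le_zero, Finset.card_eq_zero, Finset.filter_eq_empty_iff] at this
    by_contra h
    exact this hi h
  | succ n ih =>
    intro b hfin hcard
    by_contra hcon
    push Not at hcon
    obtain ⟨i0, hi0, hb0⟩ := hcon
    have hcomm : ∀ y : R, ∀ i ∈ s, b i0 * y * b i - b i * y * b i0 = 0 := by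
      intro y
      apply ih (fun i => b i0 * y * b i - b i * y * b i0)
      · have hsub : Set.range (fun x => ∑ i ∈ s, a i * x * (b i0 * y * b i - b i * y * b i0))
            ⊆ Set.image2 (fun p q => p - q * (y * b i0))
              (Set.range (fun x => ∑ i ∈ s, a i * x * b i))
              (Set.range (fun x => ∑ i ∈ s, a i * x * b i)) := by
          rintro _ ⟨x, rfl⟩
          exact ⟨_, ⟨x * b i0 * y, rfl⟩, _, ⟨x, rfl⟩, (rel_step s a b i0 y x).symm⟩
        exact (hfin.image2 _ hfin).subset hsub
      · intro _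
        have h1 := card_step s b i0 hi0 hb0 y
        have h2 := hcard
        have h3 : (s.filter (fun i => b i0 * y * b i - b i * y * b i0 ≠ 0)).card ≤ n := by
          omega
        convert h3
    have hφ : ∀ x, ∑ i ∈ s, a i * x * b i = 0 := by
      intro x
      by_contra hne
      have hinj : Function.Injective (fun y => (∑ i ∈ s, a i * x * b i) * (y * b i0)) := by
        intro y y' h
        exact mul_cancel_r hd hb0 (mul_cancel_l hd hne h)
      have hrange : Set.range (fun y => (∑ i ∈ s, a i * x * b i) * (y * b i0))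
          ⊆ Set.range (fun x => ∑ i ∈ s, a i * x * b i) := by
        rintro _ ⟨y, rfl⟩
        refine ⟨x * b i0 * y, ?_⟩
        have h1 := rel_step s a b i0 y x
        have h2 : ∑ i ∈ s, a i * x * (b i0 * y * b i - b i * y * b i0) = 0 := by
          apply Finset.sum_eq_zero
          intro i hi
          rw [hcomm y i hi, mul_zero]
        rw [h2] at h1
        exact (sub_eq_zero.1 h1.symm)
      exact Set.infinite_range_of_injective hinj (hfin.subset hrange)
    exact hb0 (ha b hφ i0 hi0)

end

/-! ## Words -/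

/-- words in the letters `< k` in which, recursively, the largest letter occurs at most once -/
def WW : ℕ → Finset (List ℕ)
  | 0 => {[]}
  | k + 1 => WW k ∪ (WW k ×ˢ WW k).image (fun p => p.1 ++ k :: p.2)

theorem WW_lt (k : ℕ) : ∀ l ∈ WW k, ∀ i ∈ l, i < k := by
  induction k with
  | zero =>
    intro l hl i hi
    rw [WW, Finset.mem_singleton] at hl
    subst hl
    exact absurd hi List.not_mem_nil
  | succ k ih =>
    intro l hl i hi
    rw [WW, Finset.mem_union, Finset.mem_image] at hl
    rcases hl with hl | ⟨⟨p, q⟩, hpq, rfl⟩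
    · have := ih l hl i hi
      omega
    · rw [Finset.mem_product] at hpq
      rw [List.mem_append, List.mem_cons] at hi
      rcases hi with hi | hi | hi
      · have := ih p hpq.1 i hi
        omega
      · omega
      · have := ih q hpq.2 i hi
        omega

theorem WW_inj (k : ℕ) : Set.InjOn (fun p : List ℕ × List ℕ => p.1 ++ k :: p.2)
    ((WW k ×ˢ WW k : Finset _) : Set (List ℕ × List ℕ)) := by
  rintro ⟨p, q⟩ hpq ⟨p', q'⟩ hpq' h
  rw [Finset.mem_coe, Finset.mem_product] at hpq hpq'
  have h' : p ++ k :: q = p' ++ k :: q' := h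
  have hk : k ∉ p := fun hm => lt_irrefl k (WW_lt k p hpq.1 k hm)
  have hk' : k ∉ p' := fun hm => lt_irrefl k (WW_lt k p' hpq'.1 k hm)
  have key : ∀ (p p' q q' : List ℕ), k ∉ p → k ∉ p' → p ++ k :: q = p' ++ k :: q' →
      p = p' ∧ q = q' := by
    intro p
    induction p with
    | nil =>
      intro p' q q' _ hp' h
      cases p' with
      | nil =>
        rw [List.nil_append, List.nil_append, List.cons.injEq] at h
        exact ⟨rfl, h.2⟩
      | cons a p' =>
        rw [List.nil_append, List.cons_append, List.cons.injEq] at h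
        exact absurd (by rw [h.1]; exact List.mem_cons_self) hp'
    | cons b p ih =>
      intro p' q q' hp hp' h
      cases p' with
      | nil =>
        rw [List.nil_append, List.cons_append, List.cons.injEq] at h
        exact absurd (by rw [h.1]; exact List.mem_cons_self) hp
      | cons a p' =>
        rw [List.cons_append, List.cons_append, List.cons.injEq] at h
        obtain ⟨h1, h2⟩ := ih p' q q' (fun hm => hp (List.mem_cons_of_mem _ hm))
          (fun hm => hp' (List.mem_cons_of_mem _ hm)) h.2
        exact ⟨by rw [h.1, h1], h2⟩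
  obtain ⟨h1, h2⟩ := key p p' q q' hk hk' h'
  rw [h1, h2]

theorem WW_disj (k : ℕ) : Disjoint (WW k) ((WW k ×ˢ WW k).image (fun p => p.1 ++ k :: p.2)) := by
  rw [Finset.disjoint_left]
  intro l hl hl'
  rw [Finset.mem_image] at hl'
  obtain ⟨⟨p, q⟩, _, rfl⟩ := hl'
  have := WW_lt k _ hl k (by simp)
  exact lt_irrefl k this

theorem nodup_mem_WW (k : ℕ) : ∀ l : List ℕ, l.Nodup → (∀ i ∈ l, i < k) → l ∈ WW k := by
  induction k with
  | zero =>
    intro l _ hl
    rw [WW, Finset.mem_singleton]
    cases l with
    | nil => rfl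
    | cons a l => exact absurd (hl a List.mem_cons_self) (Nat.not_lt_zero _)
  | succ k ih =>
    intro l hnd hl
    rw [WW, Finset.mem_union, Finset.mem_image]
    by_cases hk : k ∈ l
    · right
      obtain ⟨p, q, rfl⟩ := List.append_of_mem hk
      have hnd' := List.nodup_append.1 hnd
      have hq := List.nodup_cons.1 hnd'.2.1
      have hkp : k ∉ p := fun hm => hnd'.2.2 k hm k List.mem_cons_self rfl
      refine ⟨(p, q), ?_, rfl⟩
      rw [Finset.mem_product]
      constructor
      · apply ih p hnd'.1
        intro i hi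
        have := hl i (List.mem_append_left _ hi)
        have hne : i ≠ k := fun h => hkp (h ▸ hi)
        omega
      · apply ih q hq.2
        intro i hi
        have := hl i (List.mem_append_right _ (List.mem_cons_of_mem _ hi))
        have hne : i ≠ k := fun h => hq.1 (h ▸ hi)
        omega
    · left
      apply ih l hnd
      intro i hi
      have := hl i hi
      have hne : i ≠ k := fun h => hk (h ▸ hi)
      omega

section

variable {R : Type} [NonUnitalRing R]

/-- left multiplication by a word -/
def lw (g : ℕ → R) (l : List ℕ) (r : R) : R := l.foldr (fun i acc => g i * acc) r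

theorem fw_mul_eq (g : ℕ → R) (a : R) (l : List ℕ) (r : R) :
    fw g a l * r = a * lw g l r := by
  induction l generalizing a with
  | nil => rfl
  | cons i l ih =>
    rw [fw_cons, ih]
    show a * g i * lw g l r = a * (g i * lw g l r)
    rw [mul_assoc]

theorem fw_congr (g g' : ℕ → R) (z : R) (l : List ℕ) (h : ∀ i ∈ l, g i = g' i) :
    fw g z l = fw g' z l := by
  induction l generalizing z with
  | nil => rfl
  | cons i l ih =>
    rw [fw_cons, fw_cons, h i List.mem_cons_self]
    exact ih _ (fun j hj => h j (List.mem_cons_of_mem _ hj))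

variable (hd : ∀ a b : R, a * b = 0 → a = 0 ∨ b = 0)

include hd

open scoped Pointwise in
theorem generic [Infinite R] {v0 : R} (hv0 : v0 ≠ 0)
    (hmax : ∀ v : R, v ≠ 0 → (Cs v).Finite ∧ (Cs v).ncard ≤ (Cs v0).ncard) (k : ℕ) :
    ∃ g : ℕ → R, Indep (WW k) (fw g v0) := by
  classical
  induction k with
  | zero =>
    refine ⟨fun _ => 0, ?_⟩
    intro b hb i hi
    rw [WW, Finset.mem_singleton] at hi
    subst hi
    have := hb v0
    rw [WW, Finset.sum_singleton, fw_nil] at this
    by_contra hne
    exact mul_ne hd (mul_ne hd hv0 hv0) hne this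
  | succ k ih =>
    obtain ⟨g, hg⟩ := ih
    by_contra hcon
    push Not at hcon
    -- for each `x` there is a pattern
    have hpat : ∀ x : R, ∃ u : List ℕ → R, (∀ l, u l ∈ Cs v0) ∧ (∃ l ∈ WW (k + 1), u l ≠ 0) ∧
        ∀ r, ∑ l ∈ WW (k + 1), fw (Function.update g k x) v0 l * r * u l = 0 :=
      fun x => pattern hd hv0 hmax _ _ (hcon (Function.update g k x))
    -- the relation, expanded
    have hexp : ∀ (x : R) (u : List ℕ → R) (r : R),
        ∑ l ∈ WW (k + 1), fw (Function.update g k x) v0 l * r * u l
        = (∑ l ∈ WW k, fw g v0 l * r * u l)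
          + ∑ l ∈ WW k, fw g v0 l * x * (∑ l' ∈ WW k, lw g l' (r * u (l ++ k :: l'))) := by
      intro x u r
      rw [WW, Finset.sum_union (WW_disj k), Finset.sum_image (WW_inj k), Finset.sum_product]
      congr 1
      · apply Finset.sum_congr rfl
        intro l hl
        rw [fw_congr (Function.update g k x) g v0 l]
        intro i hi
        have := WW_lt k l hl i hi
        rw [Function.update_of_ne (by omega)]
      · apply Finset.sum_congr rfl
        intro l hl
        rw [Finset.mul_sum]
        apply Finset.sum_congr rfl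
        intro l' hl'
        rw [fw_append, fw_cons, Function.update_self,
          fw_congr (Function.update g k x) g v0 l, fw_congr (Function.update g k x) g _ l',
          mul_assoc, fw_mul_eq]
        · intro i hi
          have := WW_lt k l' hl' i hi
          rw [Function.update_of_ne (by omega)]
        · intro i hi
          have := WW_lt k l hl i hi
          rw [Function.update_of_ne (by omega)]
    -- patterns as a finite type
    let P := {l // l ∈ WW (k + 1)} → {u // u ∈ Cs v0}
    have hCfin : Finite {u // u ∈ Cs v0} := (hmax v0 hv0).1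
    have hPfin : Finite P := inferInstance
    have := Fintype.ofFinite P
    -- extension of a pattern by zero
    let ext : P → List ℕ → R := fun π l => if h : l ∈ WW (k + 1) then (π ⟨l, h⟩).1 else 0
    let Good' : P → Prop := fun π => (∃ l ∈ WW (k + 1), ext π l ≠ 0) ∧
      ∃ x : R, ∀ r, ∑ l ∈ WW (k + 1), fw (Function.update g k x) v0 l * r * ext π l = 0
    let K : P → AddSubgroup R := fun π =>
      { carrier := {x | ∀ r, ∑ l ∈ WW k, fw g v0 l * x *
          (∑ l' ∈ WW k, lw g l' (r * ext π (l ++ k :: l'))) = 0}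
        add_mem' := by
          intro x x' hx hx' r
          have h1 := hx r
          have h2 := hx' r
          simp only [mul_add, add_mul, Finset.sum_add_distrib]
          rw [h1, h2, add_zero]
        zero_mem' := by
          intro r
          simp only [mul_zero, zero_mul, Finset.sum_const_zero]
        neg_mem' := by
          intro x hx r
          have h1 := hx r
          simp only [mul_neg, neg_mul, Finset.sum_neg_distrib]
          rw [h1, neg_zero] }
    let x0 : P → R := fun π => if h : Good' π then h.2.choose else 0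
    have hx0 : ∀ π, Good' π → ∀ r, ∑ l ∈ WW (k + 1),
        fw (Function.update g k (x0 π)) v0 l * r * ext π l = 0 := by
      intro π hπ
      have : x0 π = hπ.2.choose := dif_pos hπ
      rw [this]
      exact hπ.2.choose_spec
    have hcover : ⋃ π ∈ (Finset.univ.filter Good'), (x0 π) +ᵥ (K π : Set R) = Set.univ := by
      rw [Set.eq_univ_iff_forall]
      intro x
      obtain ⟨u, hu, ⟨l0, hl0, hul0⟩, hrel⟩ := hpat x
      let π : P := fun l => ⟨u l.1, hu l.1⟩
      have hext : ∀ l ∈ WW (k + 1), ext π l = u l := by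
        intro l hl
        show (if h : l ∈ WW (k + 1) then (π ⟨l, h⟩).1 else 0) = u l
        rw [dif_pos hl]
      have hgood : Good' π := by
        refine ⟨⟨l0, hl0, by rw [hext l0 hl0]; exact hul0⟩, x, ?_⟩
        intro r
        rw [← hrel r]
        apply Finset.sum_congr rfl
        intro l hl
        rw [hext l hl]
      rw [Set.mem_iUnion₂]
      refine ⟨π, Finset.mem_filter.2 ⟨Finset.mem_univ _, hgood⟩, ?_⟩
      rw [Set.mem_vadd_set]
      refine ⟨x - x0 π, ?_, by simp⟩
      show ∀ r, _
      intro r
      have h1 := hx0 π hgood r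
      have h2 : ∑ l ∈ WW (k + 1), fw (Function.update g k x) v0 l * r * ext π l = 0 := by
        rw [← hrel r]
        apply Finset.sum_congr rfl
        intro l hl
        rw [hext l hl]
      rw [hexp] at h1 h2
      simp only [mul_sub, sub_mul, Finset.sum_sub_distrib]
      rw [sub_eq_zero]
      have h3 := h2.trans h1.symm
      exact add_left_cancel h3
    obtain ⟨π, hπ, hfi⟩ := AddSubgroup.exists_finiteIndex_of_leftCoset_cover hcover
    have hgood := (Finset.mem_filter.1 hπ).2
    -- all the coefficients vanish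
    have hβ : ∀ r, ∀ l ∈ WW k, ∑ l' ∈ WW k, lw g l' (r * ext π (l ++ k :: l')) = 0 := by
      intro r
      let φ : R →+ R :=
        { toFun := fun x => ∑ l ∈ WW k, fw g v0 l * x *
            (∑ l' ∈ WW k, lw g l' (r * ext π (l ++ k :: l')))
          map_zero' := by simp only [mul_zero, zero_mul, Finset.sum_const_zero]
          map_add' := by
            intro x x'
            simp only [mul_add, add_mul, Finset.sum_add_distrib] }
      have hle : K π ≤ φ.ker := by
        intro x hx
        exact hx r
      have hfi' : φ.ker.FiniteIndex := AddSubgroup.finiteIndex_of_le hle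
      have hq : Finite (R ⧸ φ.ker) := AddSubgroup.finite_quotient_of_finiteIndex
      have hr : Finite φ.range := Finite.of_equiv _ (QuotientAddGroup.quotientKerEquivRange φ).toEquiv
      have hr' : (Set.range φ).Finite := by
        have : (φ.range : Set R).Finite := Set.toFinite _
        rwa [AddMonoidHom.coe_range] at this
      exact finite_image hd (WW k) (fw g v0) hg _
        (fun l => ∑ l' ∈ WW k, lw g l' (r * ext π (l ++ k :: l'))) hr' (by
          intro _
          exact Finset.card_filter_le _ _)
    have hz1 : ∀ l ∈ WW k, ∀ l' ∈ WW k, ext π (l ++ k :: l') = 0 := by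
      intro l hl
      apply hg (fun l' => ext π (l ++ k :: l'))
      intro r
      have h1 := hβ r l hl
      have h2 : v0 * ∑ l' ∈ WW k, lw g l' (r * ext π (l ++ k :: l')) = 0 := by
        rw [h1, mul_zero]
      rw [Finset.mul_sum] at h2
      rw [← h2]
      apply Finset.sum_congr rfl
      intro l' _
      rw [mul_assoc, fw_mul_eq]
    have hz2 : ∀ l ∈ WW k, ext π l = 0 := by
      apply hg (ext π)
      intro r
      have h1 := hx0 π hgood r
      rw [hexp] at h1
      have h2 : ∑ l ∈ WW k, fw g v0 l * x0 π *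
          (∑ l' ∈ WW k, lw g l' (r * ext π (l ++ k :: l'))) = 0 := by
        apply Finset.sum_eq_zero
        intro l hl
        rw [hβ r l hl, mul_zero]
      rw [h2, add_zero] at h1
      exact h1
    obtain ⟨l, hl, hne⟩ := hgood.1
    apply hne
    rw [WW, Finset.mem_union, Finset.mem_image] at hl
    rcases hl with hl | ⟨⟨p, q⟩, hpq, rfl⟩
    · exact hz2 l hl
    · rw [Finset.mem_product] at hpq
      exact hz1 p hpq.1 q hpq.2

end

end Pool.Agent.N57.EN
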