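import Pool.Agent.N57.EN.Gen

/-!
# Multilinearization: a domain with a small extended centroid satisfies no identity modulo `p`
-/

namespace Pool.Agent.N57.EN

section

variable {R : Type} [NonUnitalRing R]

theorem fw_add {ι : Type*} (g : ι → R) (z z' : R) (l : List ι) :
    fw g (z + z') l = fw g z l + fw g z' l := by
  induction l generalizing z z' with
  | nil => rfl
  | cons i l ih => rw [fw_cons, fw_cons, fw_cons, add_mul, ih]

theorem fw_zero {ι : Type*} (g : ι → R) (l : List ι) : fw g 0 l = 0 := by
  induction l with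
  | nil => rfl
  | cons i l ih => rw [fw_cons, zero_mul, ih]

theorem fw_sum {ι κ : Type*} (g : ι → R) (s : Finset κ) (z : κ → R) (l : List ι) :
    fw g (∑ j ∈ s, z j) l = ∑ j ∈ s, fw g (z j) l := by
  classical
  induction s using Finset.induction_on with
  | empty => rw [Finset.sum_empty, Finset.sum_empty, fw_zero]
  | insert a s ha ih => rw [Finset.sum_insert ha, Finset.sum_insert ha, fw_add, ih]

/-- all ways of replacing each letter `b` by an element of `B b` -/
def fills (B : Bool → Finset ℕ) : List Bool → Finset (List ℕ)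
  | [] => {[]}
  | b :: l => ((B b) ×ˢ (fills B l)).image (fun p => p.1 :: p.2)

theorem mem_fills (B : Bool → Finset ℕ) (l : List Bool) (f : List ℕ) :
    f ∈ fills B l ↔ List.Forall₂ (fun i b => i ∈ B b) f l := by
  induction l generalizing f with
  | nil =>
    rw [fills, Finset.mem_singleton]
    constructor
    · rintro rfl; exact List.Forall₂.nil
    · intro h; cases h; rfl
  | cons b l ih =>
    rw [fills, Finset.mem_image]
    constructor
    · rintro ⟨⟨i, f'⟩, h, rfl⟩
      rw [Finset.mem_product] at h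
      exact List.Forall₂.cons h.1 ((ih f').1 h.2)
    · intro h
      cases h with
      | cons h1 h2 => exact ⟨(_, _), Finset.mem_product.2 ⟨h1, (ih _).2 h2⟩, rfl⟩

theorem fw_fills (B : Bool → Finset ℕ) (g : ℕ → R) (l : List Bool) :
    ∀ z : R, fw (fun b => ∑ i ∈ B b, g i) z l = ∑ f ∈ fills B l, fw g z f := by
  induction l with
  | nil => intro z; rw [fills, Finset.sum_singleton]; rfl
  | cons b l ih =>
    intro z
    rw [fw_cons, fills, Finset.sum_image, Finset.sum_product, ih, Finset.mul_sum]
    · rw [Finset.sum_comm]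
      apply Finset.sum_congr rfl
      intro f _
      rw [fw_sum]
      rfl
    · rintro ⟨i, f⟩ _ ⟨i', f'⟩ _ h
      have h' : i :: f = i' :: f' := h
      rw [List.cons.injEq] at h'
      rw [h'.1, h'.2]

theorem zsmul_eq_zero_of_dvd {p : ℕ} (hp : ∀ r : R, p • r = 0) {n : ℤ} (h : (p : ℤ) ∣ n) (r : R) :
    n • r = 0 := by
  obtain ⟨k, rfl⟩ := h
  rw [mul_comm, mul_smul, natCast_zsmul, hp, smul_zero]

theorem dvd_of_zsmul_eq_zero {p : ℕ} (hpp : p.Prime) (hp : ∀ r : R, p • r = 0) {n : ℤ} {r : R}
    (hr : r ≠ 0) (h : n • r = 0) : (p : ℤ) ∣ n := by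
  by_contra hnd
  have hco : IsCoprime (p : ℤ) n := by
    rw [Int.isCoprime_iff_gcd_eq_one]
    rcases (Nat.dvd_prime hpp).1 (by
      have : Int.gcd (p : ℤ) n ∣ (p : ℤ).natAbs := Int.gcd_dvd_natAbs_left _ _
      simpa using this : Int.gcd (p : ℤ) n ∣ p) with h1 | h1
    · exact h1
    · exfalso
      apply hnd
      have : ((Int.gcd (p : ℤ) n : ℕ) : ℤ) ∣ n := Int.gcd_dvd_right _ _
      rwa [h1] at this
  obtain ⟨a, b, hab⟩ := hco
  apply hr
  have : (a * (p : ℤ) + b * n) • r = r := by rw [hab, one_smul]
  rw [← this, add_smul, mul_smul, mul_smul, h, smul_zero, add_zero, natCast_zsmul, hp, smul_zero]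

variable (hd : ∀ a b : R, a * b = 0 → a = 0 ∨ b = 0)

include hd

theorem no_identity {p : ℕ} (hpp : p.Prime) (hp : ∀ r : R, p • r = 0)
    {W : Finset FW} {c : FW → ℤ} (hW : ∀ x y : R, ∑ w ∈ W, c w • wd x y w = 0)
    (hc : ∃ w ∈ W, ¬ (p : ℤ) ∣ c w) {v0 : R} (hv0 : v0 ≠ 0)
    (hgen : ∀ k, ∃ g : ℕ → R, Indep (WW k) (fw g v0)) : False := by
  classical
  let W' := W.filter (fun w => ¬ (p : ℤ) ∣ c w)
  have hW' : ∀ x y : R, ∑ w ∈ W', c w • wd x y w = 0 := by
    intro x y
    rw [← hW x y]
    apply Finset.sum_subset (Finset.filter_subset _ _)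
    intro w hw hw'
    rw [Finset.mem_filter] at hw'
    push Not at hw'
    exact zsmul_eq_zero_of_dvd hp (hw' hw) _
  have hne : W'.Nonempty := by
    obtain ⟨w, hw, hcw⟩ := hc
    exact ⟨w, Finset.mem_filter.2 ⟨hw, hcw⟩⟩
  obtain ⟨w0, hw0, hmax⟩ := Finset.exists_max_image W' (fun w => (toL w).length) hne
  set d := (toL w0).length with hdef
  obtain ⟨g, hg⟩ := hgen d
  let ty : ℕ → Bool := fun i => (toL w0).getD i true
  let U : Finset ℕ := Finset.range d
  let B : Finset ℕ → Bool → Finset ℕ := fun A b => A.filter (fun i => ty i = b)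
  have hfill : ∀ (A : Finset ℕ) (l : List Bool) (f : List ℕ),
      f ∈ fills (B A) l ↔ (∀ i ∈ f, i ∈ A) ∧ f.map ty = l := by
    intro A l f
    rw [mem_fills]
    induction l generalizing f with
    | nil =>
      constructor
      · intro h; cases h
        exact ⟨fun i hi => absurd hi List.not_mem_nil, rfl⟩
      · rintro ⟨_, h⟩
        rw [List.map_eq_nil_iff] at h
        subst h
        exact List.Forall₂.nil
    | cons b l ih =>
      constructor
      · intro h
        cases h with
        | cons h1 h2 =>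
          have h3 := (ih _).1 h2
          have h1' := Finset.mem_filter.1 h1
          refine ⟨?_, ?_⟩
          · intro i hi
            rcases List.mem_cons.1 hi with rfl | hi
            · exact h1'.1
            · exact h3.1 i hi
          · rw [List.map_cons, h3.2, h1'.2]
      · rintro ⟨h1, h2⟩
        cases f with
        | nil => simp at h2
        | cons i f =>
          rw [List.map_cons, List.cons.injEq] at h2
          refine List.Forall₂.cons (Finset.mem_filter.2 ⟨h1 i List.mem_cons_self, h2.1⟩) ?_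
          exact (ih f).2 ⟨fun j hj => h1 j (List.mem_cons_of_mem _ hj), h2.2⟩
  -- evaluation at the sum over a subset
  have hev : ∀ A : Finset ℕ, ∑ w ∈ W', c w • ∑ f ∈ fills (B A) (toL w), fw g v0 f = 0 := by
    intro A
    have h1 := hW' (∑ i ∈ B A true, g i) (∑ i ∈ B A false, g i)
    have h2 : v0 * ∑ w ∈ W', c w • wd (∑ i ∈ B A true, g i) (∑ i ∈ B A false, g i) w = 0 := by
      rw [h1, mul_zero]
    rw [Finset.mul_sum] at h2
    rw [← h2]
    apply Finset.sum_congr rfl
    intro w _
    rw [mul_smul_comm, mul_wd, ← fw_fills]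
    congr 2
    funext b
    cases b <;> rfl
  have hfilt : ∀ (T : Finset ℕ) (l : List Bool), fills (B (U \ T)) l
      = (fills (B U) l).filter (fun f => T ∩ f.toFinset = ∅) := by
    intro T l
    ext f
    rw [Finset.mem_filter, hfill, hfill]
    constructor
    · rintro ⟨h1, h2⟩
      refine ⟨⟨fun i hi => (Finset.mem_sdiff.1 (h1 i hi)).1, h2⟩, ?_⟩
      rw [Finset.eq_empty_iff_forall_notMem]
      intro i hi
      rw [Finset.mem_inter, List.mem_toFinset] at hi
      exact (Finset.mem_sdiff.1 (h1 i hi.2)).2 hi.1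
    · rintro ⟨⟨h1, h2⟩, h3⟩
      refine ⟨fun i hi => Finset.mem_sdiff.2 ⟨h1 i hi, ?_⟩, h2⟩
      intro hiT
      have : i ∈ T ∩ f.toFinset := Finset.mem_inter.2 ⟨hiT, List.mem_toFinset.2 hi⟩
      rw [h3] at this
      exact absurd this (Finset.notMem_empty _)
  -- the alternating sum
  have halt : ∑ w ∈ W', c w • ∑ f ∈ (fills (B U) (toL w)).filter (fun f => U ⊆ f.toFinset),
      fw g v0 f = 0 := by
    have h0 : ∑ T ∈ U.powerset, ((-1 : ℤ) ^ T.card) •
        (∑ w ∈ W', c w • ∑ f ∈ fills (B (U \ T)) (toL w), fw g v0 f) = 0 := by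
      apply Finset.sum_eq_zero
      intro T _
      rw [hev, smul_zero]
    rw [← h0]
    simp only [Finset.smul_sum (s := W')]
    rw [Finset.sum_comm]
    apply Finset.sum_congr rfl
    intro w _
    have h1 : ∀ T ∈ U.powerset, ((-1 : ℤ) ^ T.card) • (c w •
        ∑ f ∈ fills (B (U \ T)) (toL w), fw g v0 f)
        = c w • ∑ f ∈ fills (B U) (toL w),
          (if T ∩ f.toFinset = ∅ then ((-1 : ℤ) ^ T.card) else 0) • fw g v0 f := by
      intro T _
      rw [smul_comm, hfilt, Finset.sum_filter, Finset.smul_sum]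
      congr 1
      apply Finset.sum_congr rfl
      intro f _
      split_ifs <;> simp
    rw [Finset.sum_congr rfl h1, ← Finset.smul_sum, Finset.sum_comm]
    congr 1
    rw [Finset.sum_filter]
    apply Finset.sum_congr rfl
    intro f _
    rw [← Finset.sum_smul, ← Finset.sum_filter]
    have h2 : U.powerset.filter (fun T => T ∩ f.toFinset = ∅) = (U \ f.toFinset).powerset := by
      ext T
      rw [Finset.mem_filter, Finset.mem_powerset, Finset.mem_powerset]
      constructor
      · rintro ⟨h1, h2⟩ i hi
        refine Finset.mem_sdiff.2 ⟨h1 hi, fun hif => ?_⟩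
        have : i ∈ T ∩ f.toFinset := Finset.mem_inter.2 ⟨hi, hif⟩
        rw [h2] at this
        exact absurd this (Finset.notMem_empty _)
      · intro h
        refine ⟨fun i hi => (Finset.mem_sdiff.1 (h hi)).1, ?_⟩
        rw [Finset.eq_empty_iff_forall_notMem]
        intro i hi
        rw [Finset.mem_inter] at hi
        exact (Finset.mem_sdiff.1 (h hi.1)).2 hi.2
    rw [h2, Finset.sum_powerset_neg_one_pow_card]
    by_cases hU : U ⊆ f.toFinset
    · rw [if_pos hU, if_pos (Finset.sdiff_eq_empty_iff_subset.2 hU), one_smul]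
    · rw [if_neg hU, if_neg (fun h => hU (Finset.sdiff_eq_empty_iff_subset.1 h)), zero_smul]
  -- these words are in `WW d`
  have hmem : ∀ w ∈ W', ∀ f ∈ (fills (B U) (toL w)).filter (fun f => U ⊆ f.toFinset),
      f ∈ WW d := by
    intro w hw f hf
    rw [Finset.mem_filter, hfill] at hf
    obtain ⟨⟨h1, h2⟩, h3⟩ := hf
    have hlen : f.length ≤ d := by
      have : f.length = (toL w).length := by rw [← h2, List.length_map]
      rw [this]
      exact hmax w hw
    have hcard : f.toFinset.card = f.length := by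
      apply le_antisymm (List.toFinset_card_le f)
      calc f.length ≤ d := hlen
        _ = U.card := (Finset.card_range d).symm
        _ ≤ f.toFinset.card := Finset.card_le_card h3
    apply nodup_mem_WW
    · exact (Multiset.toFinset_card_eq_card_iff_nodup (m := (f : Multiset ℕ))).1 hcard
    · intro i hi
      exact Finset.mem_range.1 (h1 i hi)
  let coef : List ℕ → ℤ := fun f =>
    ∑ w ∈ W', if f ∈ (fills (B U) (toL w)).filter (fun f => U ⊆ f.toFinset) then c w else 0
  have hcoef : ∑ f ∈ WW d, coef f • fw g v0 f = 0 := by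
    rw [← halt]
    show ∑ f ∈ WW d, (∑ w ∈ W', if f ∈ (fills (B U) (toL w)).filter
      (fun f => U ⊆ f.toFinset) then c w else 0) • fw g v0 f = _
    simp only [Finset.sum_smul]
    rw [Finset.sum_comm]
    apply Finset.sum_congr rfl
    intro w hw
    rw [Finset.smul_sum]
    rw [← Finset.sum_subset (fun f hf => hmem w hw f hf)]
    · apply Finset.sum_congr rfl
      intro f hf
      rw [if_pos hf]
    · intro f _ hf
      rw [if_neg hf, zero_smul]
  have hzero := hg (fun f => coef f • v0) (by
    intro r
    have h1 : (∑ f ∈ WW d, coef f • fw g v0 f) * (r * v0) = 0 := by rw [hcoef, zero_mul]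
    rw [Finset.sum_mul] at h1
    rw [← h1]
    apply Finset.sum_congr rfl
    intro f _
    rw [mul_smul_comm, smul_mul_assoc, mul_assoc])
  have hmap0 : (List.range d).map ty = toL w0 := by
    apply List.ext_getElem
    · rw [List.length_map, List.length_range]
    · intro i h1 h2
      rw [List.getElem_map, List.getElem_range]
      show (toL w0).getD i true = _
      rw [List.getD_eq_getElem _ _ h2]
  have hrange : List.range d ∈ WW d :=
    nodup_mem_WW d _ List.nodup_range (fun i hi => List.mem_range.1 hi)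
  have h2 := hzero _ hrange
  have h3 : coef (List.range d) = c w0 := by
    show (∑ w ∈ W', if List.range d ∈ (fills (B U) (toL w)).filter
      (fun f => U ⊆ f.toFinset) then c w else 0) = c w0
    rw [Finset.sum_eq_single w0]
    · rw [if_pos]
      rw [Finset.mem_filter, hfill]
      refine ⟨⟨fun i hi => Finset.mem_range.2 (List.mem_range.1 hi), hmap0⟩, ?_⟩
      intro i hi
      rw [List.mem_toFinset, List.mem_range]
      exact Finset.mem_range.1 hi
    · intro w _ hne
      rw [if_neg]
      rw [Finset.mem_filter, hfill]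
      rintro ⟨⟨_, h⟩, _⟩
      apply hne
      apply toL_inj
      rw [← h, hmap0]
    · intro h
      exact absurd hw0 h
  have h4 : c w0 • v0 = 0 := by rw [← h3]; exact h2
  exact (Finset.mem_filter.1 hw0).2 (dvd_of_zsmul_eq_zero hpp hp hv0 h4)

end

end Pool.Agent.N57.EN
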