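import Pool.Agent.N57.EN.Lin

/-!
# A variety containing none of the rings `TRing K a b`, `a ≠ b`, is Engel
-/

namespace Pool.Agent.N57.EN

section

variable {R : Type} [NonUnitalRing R]

theorem engel_add_left (n : ℕ) (a b y : R) :
    engel n (a + b) y = engel n a y + engel n b y := by
  induction n with
  | zero => rfl
  | succ n ih =>
    show engel n (a + b) y * y - y * engel n (a + b) y = (engel n a y * y - y * engel n a y)
      + (engel n b y * y - y * engel n b y)
    rw [ih, add_mul, mul_add]
    abel

theorem engel_neg_left (n : ℕ) (a y : R) : engel n (-a) y = - engel n a y := by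
  have h := engel_add_left n a (-a) y
  rw [add_neg_cancel, engel_zero_left] at h
  exact (neg_eq_of_add_eq_zero_right h.symm).symm

/-- a finite nonzero ring without zero divisors is commutative -/
theorem finite_comm (hd : ∀ a b : R, a * b = 0 → a = 0 ∨ b = 0) [hfin : Finite R]
    (x y : R) : x * y = y * x := by
  by_cases hx : x = 0
  · rw [hx, zero_mul, mul_zero]
  have hinj : Function.Injective (fun r => x * r) := by
    intro a b h
    exact mul_cancel_l hd hx h
  obtain ⟨e, he⟩ := (Finite.injective_iff_surjective.1 hinj) x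
  have he' : x * e = x := he
  have h1 : ∀ r, e * r = r := by
    intro r
    apply mul_cancel_l hd hx
    rw [← mul_assoc, he']
  have h2 : ∀ r, r * e = r := by
    intro r
    apply mul_cancel_r hd hx
    rw [mul_assoc, h1]
  let inst : Ring R :=
    { (inferInstance : NonUnitalRing R) with
      one := e
      one_mul := h1
      mul_one := h2 }
  have hnz : Nontrivial R := ⟨x, 0, hx⟩
  have hdom : IsDomain R := by
    have : NoZeroDivisors R := ⟨fun {a b} h => hd a b h⟩
    exact NoZeroDivisors.to_isDomain R
  exact (Finite.isDomain_to_isField R).mul_comm x y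

theorem exists_inj_of_not (v : R) (M : ℕ)
    (h : ¬ ∃ u : Fin (M + 1) → R, Function.Injective u ∧ ∀ i, u i ∈ Cs v) :
    (Cs v).Finite ∧ (Cs v).ncard ≤ M := by
  classical
  have key : ∀ t : Finset R, (t : Set R) ⊆ Cs v → t.card ≤ M := by
    intro t ht
    by_contra hlt
    push Not at hlt
    obtain ⟨t', ht', hcard⟩ := Finset.exists_subset_card_eq (s := t) (n := M + 1) (by omega)
    apply h
    refine ⟨fun i => (t'.equivFinOfCardEq hcard).symm i, ?_, ?_⟩
    · intro i j hij
      exact (t'.equivFinOfCardEq hcard).symm.injective (Subtype.ext hij)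
    · intro i
      exact ht (ht' ((t'.equivFinOfCardEq hcard).symm i).2)
  have hfin : (Cs v).Finite := by
    by_contra hinf
    obtain ⟨t, ht, hcard⟩ := Set.Infinite.exists_subset_card_eq (s := Cs v) hinf (M + 1)
    have := key t ht
    omega
  refine ⟨hfin, ?_⟩
  rw [Set.ncard_eq_toFinset_card _ hfin]
  apply key
  intro a ha
  exact hfin.mem_toFinset.1 ha

theorem Cs_mul_left {u v : R} (hu : u ∈ Cs v) (r : R) : r * u ∈ Cs (r * v) := by
  intro s
  calc r * u * s * (r * v) = r * (u * (s * r) * v) := by simp only [mul_assoc]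
    _ = r * (v * (s * r) * u) := by rw [hu]
    _ = r * v * s * (r * u) := by simp only [mul_assoc]

theorem Cs_mul_right {u v : R} (hu : u ∈ Cs v) (r : R) : u * r ∈ Cs (v * r) := by
  intro s
  calc u * r * s * (v * r) = (u * (r * s) * v) * r := by simp only [mul_assoc]
    _ = (v * (r * s) * u) * r := by rw [hu]
    _ = v * r * s * (u * r) := by simp only [mul_assoc]

end

theorem not_all_dvd {N p : ℕ} (hp : p.Prime) {W : Finset FW} {c : FW → ℤ}
    (hlin : ∀ (R : Type) [NonUnitalRing R] (x y : R),
        ∑ w ∈ W with cnt w = 1, c w • wd x y w = engel N x y) :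
    ∃ w ∈ W, ¬ (p : ℤ) ∣ c w := by
  by_contra hcon
  push Not at hcon
  have : Fact p.Prime := ⟨hp⟩
  let E12 : Matrix (Fin 2) (Fin 2) (ZMod p) := !![0, 1; 0, 0]
  let E22 : Matrix (Fin 2) (Fin 2) (ZMod p) := !![0, 0; 0, 1]
  have h1 : ∀ n, engel n E12 E22 = E12 := by
    intro n
    induction n with
    | zero => rfl
    | succ n ih =>
      show engel n E12 E22 * E22 - E22 * engel n E12 E22 = E12
      rw [ih]
      ext i j
      fin_cases i <;> fin_cases j <;> simp [E12, E22]
  have h2 : (∑ w ∈ W with cnt w = 1, c w • wd E12 E22 w) = 0 := by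
    apply Finset.sum_eq_zero
    intro w hw
    obtain ⟨k, hk⟩ := hcon w (Finset.mem_filter.1 hw).1
    rw [hk, mul_comm, mul_smul, natCast_zsmul]
    have : p • wd E12 E22 w = 0 := by
      ext i j
      rw [Matrix.smul_apply, nsmul_eq_mul, CharP.cast_eq_zero, zero_mul]
      rfl
    rw [this, smul_zero]
  rw [hlin (Matrix (Fin 2) (Fin 2) (ZMod p)) E12 E22, h1] at h2
  have h3 := congrFun (congrFun h2 0) 1
  simp [E12] at h3

theorem engel_of_NoT {S : Set RTerm} (hH : NoT S) : IsEngel S := by
  classical
  by_contra hne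
  obtain ⟨R, inst, x, y, g⟩ := exists_good hne
  obtain ⟨N, W, c, hW, hW1, hlin⟩ := exists_identity hH
  have hd := g.domain hH
  have hx : x ≠ 0 := g.ne 0
  let M := W.sup cnt + 1
  have hM : ∀ w ∈ W, cnt w ≤ M := fun w hw => le_trans (Finset.le_sup (f := cnt) hw)
    (Nat.le_succ _)
  by_cases hcase : ∃ v : R, v ≠ 0 ∧ ∃ u : Fin (M + 1) → R, Function.Injective u ∧
      ∀ i, u i ∈ Cs v
  · -- many multipliers
    obtain ⟨v, hv, u, hinj, hu⟩ := hcase
    have hsep : ∀ (v' : R) (u' : Fin (M + 1) → R), (v' ≠ 0 → Function.Injective u') →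
        (∀ i, u' i ∈ Cs v') → engel N v' y = 0 := by
      intro v' u' hinj' hu'
      by_cases hv' : v' = 0
      · rw [hv', engel_zero_left]
      · exact separate hd (hW R g.inv) hM (hlin R) v' hv' u' hu' (hinj' hv')
          (Nat.le_add_left 1 _) y
    have hl : ∀ r : R, engel N (r * v) y = 0 := by
      intro r
      apply hsep (r * v) (fun i => r * u i)
      · intro hne' i j hij
        have hr : r ≠ 0 := fun h => hne' (by rw [h, zero_mul])
        exact hinj (mul_cancel_l hd hr hij)
      · intro i; exact Cs_mul_left (hu i) r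
    have hr : ∀ r : R, engel N (v * r) y = 0 := by
      intro r
      apply hsep (v * r) (fun i => u i * r)
      · intro hne' i j hij
        have hr : r ≠ 0 := fun h => hne' (by rw [h, mul_zero])
        exact hinj (mul_cancel_r hd hr hij)
      · intro i; exact Cs_mul_right (hu i) r
    have hlr : ∀ r s : R, engel N (r * v * s) y = 0 := by
      intro r s
      apply hsep (r * v * s) (fun i => r * u i * s)
      · intro hne' i j hij
        have hs : s ≠ 0 := fun h => hne' (by rw [h, mul_zero])
        have hr : r ≠ 0 := fun h => hne' (by rw [h, zero_mul, zero_mul])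
        exact hinj (mul_cancel_l hd hr (mul_cancel_r hd hs hij))
      · intro i; exact Cs_mul_right (Cs_mul_left (hu i) r) s
    let K0 : TwoSidedIdeal R := TwoSidedIdeal.mk'
      {a | engel N a y = 0 ∧ (∀ r, engel N (r * a) y = 0) ∧ (∀ r, engel N (a * r) y = 0) ∧
        (∀ r s, engel N (r * a * s) y = 0)}
      (by
        refine ⟨engel_zero_left _ _, ?_, ?_, ?_⟩
        · intro r; rw [mul_zero, engel_zero_left]
        · intro r; rw [zero_mul, engel_zero_left]
        · intro r s; rw [mul_zero, zero_mul, engel_zero_left])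
      (by
        rintro a b ⟨h1, h2, h3, h4⟩ ⟨k1, k2, k3, k4⟩
        refine ⟨?_, ?_, ?_, ?_⟩
        · rw [engel_add_left, h1, k1, add_zero]
        · intro r; rw [mul_add, engel_add_left, h2, k2, add_zero]
        · intro r; rw [add_mul, engel_add_left, h3, k3, add_zero]
        · intro r s; rw [mul_add, add_mul, engel_add_left, h4, k4, add_zero])
      (by
        rintro a ⟨h1, h2, h3, h4⟩
        refine ⟨?_, ?_, ?_, ?_⟩
        · rw [engel_neg_left, h1, neg_zero]
        · intro r; rw [mul_neg, engel_neg_left, h2, neg_zero]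
        · intro r; rw [neg_mul, engel_neg_left, h3, neg_zero]
        · intro r s; rw [mul_neg, neg_mul, engel_neg_left, h4, neg_zero])
      (by
        rintro t a ⟨h1, h2, h3, h4⟩
        refine ⟨h2 t, ?_, ?_, ?_⟩
        · intro r; rw [← mul_assoc]; exact h2 _
        · intro r; exact h4 t r
        · intro r s; rw [← mul_assoc]; exact h4 _ s)
      (by
        rintro a t ⟨h1, h2, h3, h4⟩
        refine ⟨h3 t, ?_, ?_, ?_⟩
        · intro r; rw [← mul_assoc]; exact h4 r t
        · intro r; rw [mul_assoc]; exact h3 _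
        · intro r s
          rw [← mul_assoc, mul_assoc (r * a) t s]
          exact h4 r _)
    have hK0 : ∀ a, a ∈ K0 → engel N a y = 0 := by
      intro a ha
      exact ((TwoSidedIdeal.mem_mk' _ _ _ _ _ _ a).1 ha).1
    have hvK : v ∈ K0 := by
      apply (TwoSidedIdeal.mem_mk' _ _ _ _ _ _ v).2
      exact ⟨hsep v u (fun _ => hinj) hu, hl, hr, hlr⟩
    obtain ⟨n, hn⟩ := g.mem K0 ⟨v, hvK, hv⟩
    have := hK0 _ hn
    rw [← engel_add] at this
    exact g.ne _ this
  · -- few multipliers
    push Not at hcase
    have hfew : ∀ v : R, v ≠ 0 → (Cs v).Finite ∧ (Cs v).ncard ≤ M := by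
      intro v hv
      apply exists_inj_of_not
      rintro ⟨u, hu1, hu2⟩
      obtain ⟨i, hi⟩ := hcase v hv u hu1
      exact hi (hu2 i)
    obtain ⟨v0, hv0, hmax⟩ : ∃ v0 : R, v0 ≠ 0 ∧
        ∀ v : R, v ≠ 0 → (Cs v).Finite ∧ (Cs v).ncard ≤ (Cs v0).ncard := by
      let S0 : Set ℕ := {n | ∃ v : R, v ≠ 0 ∧ (Cs v).ncard = n}
      have hne0 : S0.Nonempty := ⟨_, x, hx, rfl⟩
      have hbdd : BddAbove S0 := ⟨M, by
        rintro n ⟨v, hv, rfl⟩
        exact (hfew v hv).2⟩
      obtain ⟨v0, hv0, he⟩ := Nat.sSup_mem hne0 hbdd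
      refine ⟨v0, hv0, fun v hv => ⟨(hfew v hv).1, ?_⟩⟩
      rw [he]
      exact le_csSup hbdd ⟨v, hv, rfl⟩
    -- positive characteristic
    have hchar : ∃ n : ℕ, 0 < n ∧ n • v0 = 0 := by
      by_contra hcon
      push Not at hcon
      have hinj : Function.Injective (fun k : ℕ => k • v0) := by
        intro i j hij
        have hij' : i • v0 = j • v0 := hij
        rcases Nat.lt_trichotomy i j with h | h | h
        · exfalso
          apply hcon (j - i) (by omega)
          have : j • v0 = (j - i) • v0 + i • v0 := by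
            rw [← add_smul, Nat.sub_add_cancel h.le]
          rw [this] at hij'
          exact (right_eq_add.1 hij')
        · exact h
        · exfalso
          apply hcon (i - j) (by omega)
          have : i • v0 = (i - j) • v0 + j • v0 := by
            rw [← add_smul, Nat.sub_add_cancel h.le]
          rw [this] at hij'
          exact (add_eq_right.1 hij')
      have hsub : Set.range (fun k : ℕ => k • v0) ⊆ Cs v0 := by
        rintro _ ⟨k, rfl⟩ r
        show k • v0 * r * v0 = v0 * r * k • v0
        rw [smul_mul_assoc, smul_mul_assoc, mul_smul_comm]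
      exact Set.infinite_range_of_injective hinj ((hmax v0 hv0).1.subset hsub)
    have hall : ∀ n : ℕ, n • v0 = 0 → ∀ r : R, n • r = 0 := by
      intro n hn r
      have : n • r * v0 = 0 := by
        rw [smul_mul_assoc, ← mul_smul_comm, hn, mul_zero]
      rcases hd _ _ this with h | h
      · exact h
      · exact absurd h hv0
    set p := addOrderOf v0 with hpdef
    have hpv : p • v0 = 0 := addOrderOf_nsmul_eq_zero v0
    have hp0 : p ≠ 0 := by
      obtain ⟨n, hn, hn0⟩ := hchar
      intro h0
      have := addOrderOf_dvd_of_nsmul_eq_zero hn0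
      rw [← hpdef, h0, zero_dvd_iff] at this
      omega
    have hpp : p.Prime := by
      rw [Nat.prime_iff]
      refine ⟨hp0, ?_, ?_⟩
      · intro hu
        rw [Nat.isUnit_iff] at hu
        rw [hu, one_smul] at hpv
        exact hv0 hpv
      · intro a b hab
        have h1 : (a * b) • (v0 * v0) = 0 := by
          obtain ⟨k, hk⟩ := hab
          rw [hk, mul_comm, mul_smul, hall p hpv, smul_zero]
        have h2 : (a • v0) * (b • v0) = 0 := by
          rw [smul_mul_assoc, mul_smul_comm, ← mul_smul]
          exact h1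
        rcases hd _ _ h2 with h | h
        · left; exact addOrderOf_dvd_of_nsmul_eq_zero h
        · right; exact addOrderOf_dvd_of_nsmul_eq_zero h
    rcases finite_or_infinite R with hfin | hinf
    · -- finite case
      apply g.ne 1
      show x * y - y * x = 0
      rw [finite_comm hd x y, sub_self]
    · exact no_identity hd hpp (hall p hpv) (hW R g.inv) (not_all_dvd hpp hlin) hv0
        (generic hd hv0 hmax)

end Pool.Agent.N57.EN
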