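import Pool.Agent.N57.EN.Fac

/-!
# A non-Engel variety without the rings `TRing K a b` contains a noncommutative domain
-/

namespace Pool.Agent.N57.EN

/-- the variety defined by `S` contains none of the rings `TRing K a b`, `a ≠ b` -/
def NoT (S : Set RTerm) : Prop :=
  ∀ (K : Type) (_ : Field K) (_ : Finite K) (a b : K), a ≠ b → ¬ InVar S (TRing K a b)

theorem engel_add {R : Type*} [NonUnitalRing R] (n k : ℕ) (x y : R) :
    engel (n + k) x y = engel k (engel n x y) y := by
  induction k with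
  | zero => rfl
  | succ k ih =>
    show engel (n + k) x y * y - y * engel (n + k) x y = _
    rw [ih]
    rfl

theorem engel_zero_left {R : Type*} [NonUnitalRing R] (k : ℕ) (y : R) :
    engel k (0 : R) y = 0 := by
  induction k with
  | zero => rfl
  | succ k ih => simp [engel, ih]

theorem engel_pi {ι : Type*} {R : ι → Type*} [∀ i, NonUnitalRing (R i)] (n : ℕ)
    (x y : ∀ i, R i) (i : ι) : engel n x y i = engel n (x i) (y i) :=
  map_engel (Pi.evalNonUnitalRingHom R i) n x y

theorem Lm_pow_pi {ι : Type} {R : ι → Type} [∀ i, NonUnitalRing (R i)] (k : ℕ)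
    (s x : ∀ i, R i) (i : ι) : ((Lm s) ^ k) x i = ((Lm (s i)) ^ k) (x i) := by
  induction k with
  | zero => rfl
  | succ k ih =>
    rw [pow_succ', pow_succ']
    show s i * (((Lm s) ^ k) x i) = s i * (((Lm (s i)) ^ k) (x i))
    rw [ih]

/-- a uniform bound for the Engel action on square-zero bimodules -/
theorem uniform {S : Set RTerm} (hH : NoT S) :
    ∃ N : ℕ, ∀ (R : Type) [NonUnitalRing R], InVar S R → ∀ m s : R,
      (∀ k : ℕ, m * (((Lm s) ^ k) m) = 0) → engel N m s = 0 := by
  by_contra hcon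
  push Not at hcon
  choose R inst hR m s hz hne using hcon
  obtain ⟨K, hF, hfin, a, b, hab, h⟩ := exists_TRing (S := S) (R := ∀ n, R n)
    (InVar.pi hR) m s (by
      intro k
      funext i
      show m i * (((Lm s) ^ k) m i) = 0
      rw [Lm_pow_pi]
      exact hz i k) (by
      intro n h0
      apply hne n
      rw [← engel_pi n m s n, h0]
      rfl)
  exact hH K hF hfin a b hab h

/-- a ring of the variety in which `engel n x y ≠ 0` for all `n` and every nonzero ideal contains
some `engel n x y` -/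
structure Good (S : Set RTerm) (R : Type) [NonUnitalRing R] (x y : R) : Prop where
  inv : InVar S R
  ne : ∀ n, engel n x y ≠ 0
  mem : ∀ J : TwoSidedIdeal R, (∃ a ∈ J, a ≠ 0) → ∃ n, engel n x y ∈ J

theorem exists_good {S : Set RTerm} (h : ¬ IsEngel S) :
    ∃ (R : Type) (_ : NonUnitalRing R) (x y : R), Good S R x y := by
  have h' : ∀ n : ℕ, ∃ (R : Type) (_ : NonUnitalRing R) (_ : InVar S R) (x y : R),
      engel (n + 1) x y ≠ 0 := by
    intro n
    by_contra hcon
    push Not at hcon
    exact h ⟨n + 1, by omega, fun R _ hR x y => hcon R _ hR x y⟩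
  choose R inst hR x y hne using h'
  have hR' : InVar S (∀ n, R n) := InVar.pi hR
  let X : ∀ n, R n := x
  let Y : ∀ n, R n := y
  have hXY : ∀ n, engel n X Y ≠ 0 := by
    intro n h0
    apply hne n
    have h1 : engel n (x n) (y n) = 0 := by
      rw [← engel_pi n X Y n, h0]
      rfl
    show engel n (x n) (y n) * y n - y n * engel n (x n) (y n) = 0
    rw [h1, zero_mul, mul_zero, sub_zero]
  obtain ⟨I, hI1, hI2⟩ := exists_quot_avoid (R := ∀ n, R n) {z | ∃ n, z = engel n X Y} (by
    rintro ⟨n, hn⟩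
    exact hXY n hn.symm)
  refine ⟨I.ringCon.Quotient, inferInstance, qmk I X, qmk I Y, InVar.quot I hR', ?_, ?_⟩
  · intro n
    rw [← map_engel]
    exact hI1 _ ⟨n, rfl⟩
  · intro J hJ
    obtain ⟨z, ⟨n, rfl⟩, hz⟩ := hI2 J hJ
    exact ⟨n, by rw [← map_engel]; exact hz⟩

section

variable {S : Set RTerm} {R : Type} [NonUnitalRing R] {x y : R}

theorem engel_mem {J : TwoSidedIdeal R} {x y : R} (h : x ∈ J) (k : ℕ) : engel k x y ∈ J := by
  induction k with
  | zero => exact h
  | succ k ih => exact J.sub_mem (J.mul_mem_right _ _ ih) (J.mul_mem_left _ _ ih)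

theorem engel_mem_of_le {J : TwoSidedIdeal R} {n k : ℕ} (h : engel n x y ∈ J) (hk : n ≤ k) :
    engel k x y ∈ J := by
  obtain ⟨d, rfl⟩ := Nat.exists_eq_add_of_le hk
  rw [engel_add]
  exact engel_mem h d

/-- no nonzero ideals of square zero -/
theorem Good.sq_zero (hH : NoT S) (g : Good S R x y) (J : TwoSidedIdeal R)
    (hJ : ∀ u ∈ J, ∀ v ∈ J, u * v = 0) : ∀ a ∈ J, a = 0 := by
  intro a ha
  by_contra hne
  obtain ⟨N, hN⟩ := uniform hH
  obtain ⟨n, hn⟩ := g.mem J ⟨a, ha, hne⟩
  have : engel N (engel n x y) y = 0 := by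
    apply hN R g.inv
    intro k
    apply hJ _ hn
    induction k with
    | zero => exact hn
    | succ k ih =>
      rw [pow_succ']
      exact J.mul_mem_left _ _ ih
  rw [← engel_add] at this
  exact g.ne _ this

theorem Good.semiprime (hH : NoT S) (g : Good S R x y) (a : R) (ha : ∀ r, a * r * a = 0) :
    a = 0 := by
  -- the ideal of all `u` with `u R a = 0`
  let I1 : TwoSidedIdeal R := TwoSidedIdeal.mk' {u | ∀ r, u * r * a = 0}
    (by intro r; rw [zero_mul, zero_mul])
    (by intro u v hu hv r; rw [add_mul, add_mul, hu r, hv r, add_zero])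
    (by intro u hu r; rw [neg_mul, neg_mul, hu r, neg_zero])
    (by intro s u hu r; rw [mul_assoc s u r, mul_assoc s, hu r, mul_zero])
    (by intro u s hu r; rw [mul_assoc u s r]; exact hu (s * r))
  have hI1 : ∀ u, u ∈ I1 ↔ ∀ r, u * r * a = 0 := fun u => TwoSidedIdeal.mem_mk' _ _ _ _ _ _ u
  let I2 : TwoSidedIdeal R := TwoSidedIdeal.mk' {v | ∀ u ∈ I1, ∀ r, u * r * v = 0}
    (by intro u _ r; rw [mul_zero])
    (by intro v w hv hw u hu r; rw [mul_add, hv u hu r, hw u hu r, add_zero])
    (by intro v hv u hu r; rw [mul_neg, hv u hu r, neg_zero])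
    (by intro s v hv u hu r; rw [← mul_assoc, mul_assoc u r s]; exact hv u hu (r * s))
    (by intro v s hv u hu r; rw [← mul_assoc, hv u hu r, zero_mul])
  have hI2 : ∀ v, v ∈ I2 ↔ ∀ u ∈ I1, ∀ r, u * r * v = 0 :=
    fun v => TwoSidedIdeal.mem_mk' _ _ _ _ _ _ v
  let I := I1 ⊓ I2
  have hIRI : ∀ u ∈ I, ∀ v ∈ I, ∀ r, u * r * v = 0 := by
    intro u hu v hv r
    exact (hI2 v).1 ((TwoSidedIdeal.mem_inf R).1 hv).2 u ((TwoSidedIdeal.mem_inf R).1 hu).1 r
  have haI : a ∈ I := by
    refine (TwoSidedIdeal.mem_inf R).2 ⟨(hI1 a).2 ha, (hI2 a).2 ?_⟩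
    intro u hu r
    exact (hI1 u).1 hu r
  let J : TwoSidedIdeal R := TwoSidedIdeal.mk' {u | u ∈ I ∧ ∀ v ∈ I, u * v = 0}
    ⟨I.zero_mem, by intro v _; rw [zero_mul]⟩
    (by
      rintro u v ⟨hu, hu'⟩ ⟨hv, hv'⟩
      exact ⟨I.add_mem hu hv, by intro w hw; rw [add_mul, hu' w hw, hv' w hw, add_zero]⟩)
    (by
      rintro u ⟨hu, hu'⟩
      exact ⟨I.neg_mem hu, by intro w hw; rw [neg_mul, hu' w hw, neg_zero]⟩)
    (by
      rintro s u ⟨hu, hu'⟩
      exact ⟨I.mul_mem_left _ _ hu, by intro w hw; rw [mul_assoc, hu' w hw, mul_zero]⟩)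
    (by
      rintro u s ⟨hu, hu'⟩
      exact ⟨I.mul_mem_right _ _ hu, by intro w hw; exact hIRI u hu w hw s⟩)
  have hJ : ∀ u, u ∈ J ↔ (u ∈ I ∧ ∀ v ∈ I, u * v = 0) :=
    fun u => TwoSidedIdeal.mem_mk' _ _ _ _ _ _ u
  have hJ0 := g.sq_zero hH J (by
    intro u hu v hv
    exact ((hJ u).1 hu).2 v ((hJ v).1 hv).1)
  have hI0 := g.sq_zero hH I (by
    intro u hu v hv
    apply hJ0
    rw [hJ]
    refine ⟨I.mul_mem_left _ _ hv, ?_⟩
    intro w hw
    exact hIRI u hu w hw v)
  exact hI0 a haI

theorem Good.prime (hH : NoT S) (g : Good S R x y) (a b : R) (hab : ∀ r, a * r * b = 0) :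
    a = 0 ∨ b = 0 := by
  by_contra hcon
  push Not at hcon
  obtain ⟨ha, hb⟩ := hcon
  let I1 : TwoSidedIdeal R := TwoSidedIdeal.mk' {u | ∀ r, u * r * b = 0}
    (by intro r; rw [zero_mul, zero_mul])
    (by intro u v hu hv r; rw [add_mul, add_mul, hu r, hv r, add_zero])
    (by intro u hu r; rw [neg_mul, neg_mul, hu r, neg_zero])
    (by intro s u hu r; rw [mul_assoc s u r, mul_assoc s, hu r, mul_zero])
    (by intro u s hu r; rw [mul_assoc u s r]; exact hu (s * r))
  have hI1 : ∀ u, u ∈ I1 ↔ ∀ r, u * r * b = 0 := fun u => TwoSidedIdeal.mem_mk' _ _ _ _ _ _ u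
  let I2 : TwoSidedIdeal R := TwoSidedIdeal.mk' {v | ∀ u ∈ I1, ∀ r, u * r * v = 0}
    (by intro u _ r; rw [mul_zero])
    (by intro v w hv hw u hu r; rw [mul_add, hv u hu r, hw u hu r, add_zero])
    (by intro v hv u hu r; rw [mul_neg, hv u hu r, neg_zero])
    (by intro s v hv u hu r; rw [← mul_assoc, mul_assoc u r s]; exact hv u hu (r * s))
    (by intro v s hv u hu r; rw [← mul_assoc, hv u hu r, zero_mul])
  have hI2 : ∀ v, v ∈ I2 ↔ ∀ u ∈ I1, ∀ r, u * r * v = 0 :=
    fun v => TwoSidedIdeal.mem_mk' _ _ _ _ _ _ v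
  obtain ⟨n1, h1⟩ := g.mem I1 ⟨a, (hI1 a).2 hab, ha⟩
  obtain ⟨n2, h2⟩ := g.mem I2 ⟨b, (hI2 b).2 (fun u hu r => (hI1 u).1 hu r), hb⟩
  have h1' := engel_mem_of_le h1 (le_max_left n1 n2)
  have h2' := engel_mem_of_le h2 (le_max_right n1 n2)
  apply g.ne (max n1 n2)
  apply g.semiprime hH
  intro r
  exact (hI2 _).1 h2' _ h1' r

/-- Levitzki's lemma -/
theorem levitzki (hsp : ∀ a : R, (∀ r, a * r * a = 0) → a = 0) (k : ℕ) :
    ∀ a : R, (∀ r, ((Lm (a * r)) ^ k) a = 0) → a = 0 := by
  induction k with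
  | zero =>
    intro a ha
    exact ha 0
  | succ k ih =>
    intro a ha
    rcases Nat.eq_zero_or_pos k with hk | hk
    · subst hk
      apply hsp
      intro r
      have := ha r
      rw [pow_one] at this
      exact this
    · apply ih
      intro r
      apply ih
      intro s
      obtain ⟨j, rfl⟩ : ∃ j, k = j + 1 := ⟨k - 1, by omega⟩
      set t := a * r with ht
      set b := ((Lm t) ^ (j + 1)) a with hb
      -- `b = a * w`
      obtain ⟨w, hw⟩ : ∃ w, b = a * w := by
        refine ⟨r * ((Lm t) ^ j) a, ?_⟩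
        rw [hb, pow_succ']
        show t * ((Lm t) ^ j) a = _
        rw [ht, mul_assoc]
      set U := Lm (b * s) with hU
      set T := Lm t with hT
      have hTU : T * U = 0 := by
        rw [hT, hU, ← Lm_mul]
        have : t * (b * s) = 0 := by
          rw [← mul_assoc]
          have h2 : t * b = ((Lm t) ^ (j + 1 + 1)) a := by
            rw [hb, pow_succ' _ (j + 1)]
            rfl
          rw [h2, ha r, zero_mul]
        rw [this, Lm_zero]
      have hUT : U + T = Lm (a * (w * s + r)) := by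
        rw [hT, hU, ← Lm_add]
        congr 1
        rw [hw, ht, mul_add, mul_assoc]
      have hUa : ∀ z, (U ^ (j + 1 + 1)) (a * z) = 0 := by
        intro z
        rw [hU, Lm_pow_mul]
        have : b * s = a * (w * s) := by rw [hw, mul_assoc]
        rw [this, ha (w * s), zero_mul]
      have hUa' : (U ^ (j + 1 + 1)) a = 0 := by
        have : b * s = a * (w * s) := by rw [hw, mul_assoc]
        rw [hU, this, ha (w * s)]
      have hstep : ∀ n : ℕ, (U + T) ^ (n + 1) = U * (U + T) ^ n + T ^ (n + 1) := by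
        intro n
        have h3 : ∀ n : ℕ, T * (U + T) ^ n = T ^ (n + 1) := by
          intro n
          induction n with
          | zero => simp
          | succ n ih2 =>
            rw [pow_succ' (U + T) n, ← mul_assoc, mul_add, hTU, zero_add, mul_assoc, ih2,
              ← pow_succ']
        rw [pow_succ', add_mul, h3]
      have hmem : ∀ n : ℕ, (U ^ (j + 1 + 1)) (((U + T) ^ n) a) = 0 := by
        intro n
        rcases n with _ | n
        · exact hUa'
        · rw [pow_succ' (U + T) n]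
          have e0 : ((U + T) * (U + T) ^ n) a = (a * (w * s + r)) * (((U + T) ^ n) a) := by
            have : ((U + T) * (U + T) ^ n) a = (U + T) (((U + T) ^ n) a) := rfl
            rw [this, hUT]
            rfl
          rw [e0, mul_assoc]
          exact hUa _
      have h0 : (U ^ j) (((U + T) ^ (j + 1 + 1)) a) = 0 := by
        rw [hUT, ha, map_zero]
      rw [hstep (j + 1)] at h0
      have h1 : (U ^ j) ((U * (U + T) ^ (j + 1) + T ^ (j + 1 + 1)) a)
          = (U ^ (j + 1)) (((U + T) ^ (j + 1)) a) := by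
        have e1 : (U * (U + T) ^ (j + 1) + T ^ (j + 1 + 1)) a
            = U (((U + T) ^ (j + 1)) a) + (T ^ (j + 1 + 1)) a := rfl
        rw [e1, hT, ha r, add_zero, pow_succ U j]
        rfl
      rw [h1, hstep j] at h0
      have h2 : (U ^ (j + 1)) ((U * (U + T) ^ j + T ^ (j + 1)) a)
          = (U ^ (j + 1 + 1)) (((U + T) ^ j) a) + (U ^ (j + 1)) b := by
        have e1 : (U * (U + T) ^ j + T ^ (j + 1)) a
            = U (((U + T) ^ j) a) + b := rfl
        rw [e1, map_add, pow_succ U (j + 1)]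
        rfl
      rw [h2, hmem j, zero_add] at h0
      exact h0

theorem Good.reduced (hH : NoT S) (g : Good S R x y) (a : R) (ha : a * a = 0) : a = 0 := by
  obtain ⟨N, hN⟩ := uniform hH
  by_contra hne
  apply hne
  apply levitzki (g.semiprime hH) N
  intro r
  have h1 : ∀ s, ((Lm (a * r)) ^ N) (a * s * a) = 0 := by
    intro s
    have hz : ∀ k : ℕ, ∃ z, ((Lm (a * r)) ^ k) (a * s * a) = a * z := by
      intro k
      rcases k with _ | k
      · exact ⟨s * a, by rw [← mul_assoc]; rfl⟩
      · rw [pow_succ']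
        exact ⟨r * ((Lm (a * r)) ^ k) (a * s * a), by rw [← mul_assoc]; rfl⟩
    have h2 := hN R g.inv (a * s * a) (a * r) (by
      intro k
      obtain ⟨z, hz⟩ := hz k
      rw [hz, mul_assoc, ← mul_assoc a a z, ha, zero_mul, mul_zero])
    have h3 : ∀ n : ℕ, engel n (a * s * a) (a * r) = ((Lm (a * r)) ^ n) (a * s * a) ∨
        engel n (a * s * a) (a * r) = - ((Lm (a * r)) ^ n) (a * s * a) := by
      intro n
      have h4 : ((Lm (a * r)) ^ n) (a * s * a) * (a * r) = 0 := by
        rw [← Lm_pow_mul]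
        have : a * s * a * (a * r) = 0 := by
          rw [mul_assoc, ← mul_assoc a a r, ha, zero_mul, mul_zero]
        rw [this, map_zero]
      induction n with
      | zero => left; rfl
      | succ n ih =>
        have h5 : ((Lm (a * r)) ^ n) (a * s * a) * (a * r) = 0 := by
          rw [← Lm_pow_mul]
          have : a * s * a * (a * r) = 0 := by
            rw [mul_assoc, ← mul_assoc a a r, ha, zero_mul, mul_zero]
          rw [this, map_zero]
        have h6 : ((Lm (a * r)) ^ (n + 1)) (a * s * a)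
            = (a * r) * ((Lm (a * r)) ^ n) (a * s * a) := by
          rw [pow_succ']; rfl
        rcases ih h5 with h | h
        · right
          show engel n (a * s * a) (a * r) * (a * r) - (a * r) * engel n (a * s * a) (a * r) = _
          rw [h, h5, h6, zero_sub]
        · left
          show engel n (a * s * a) (a * r) * (a * r) - (a * r) * engel n (a * s * a) (a * r) = _
          rw [h, h6, neg_mul, h5, neg_zero, zero_sub, mul_neg, neg_neg]
    rcases h3 N with h | h
    · rw [← h, h2]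
    · rw [h2] at h
      rw [← neg_eq_zero, ← h]
  have h2 := g.prime hH (((Lm (a * r)) ^ N) a) a (by
    intro s
    rw [← Lm_pow_mul, ← Lm_pow_mul]
    exact h1 s)
  rcases h2 with h | h
  · exact h
  · exact absurd h hne

theorem Good.domain (hH : NoT S) (g : Good S R x y) (a b : R) (hab : a * b = 0) :
    a = 0 ∨ b = 0 := by
  have h1 : ∀ r, b * r * a = 0 := by
    intro r
    apply g.reduced hH
    rw [mul_assoc (b * r), ← mul_assoc a (b * r), ← mul_assoc a b r, hab, zero_mul, zero_mul,
      mul_zero]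
  rcases g.prime hH b a h1 with h | h
  · right; exact h
  · left; exact h

end

end Pool.Agent.N57.EN
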