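import Pool.Agent.N57.EN.Main1

/-!
# Subdirectly irreducible rings satisfying the identities of triangular `2 × 2` matrices
-/

namespace Pool.Agent.N57.EN

/-! ## A lemma on commutative rings of operators -/

section Ops

variable {G : Type} [AddCommGroup G]

open scoped IsMulCommutative in
theorem closure_pow {p k : ℕ} (hp : p.Prime) (hpG : ∀ g : G, p • g = 0) (hnt : Nontrivial G)
    (T : Set (AddMonoid.End G)) (hcomm : ∀ a ∈ T, ∀ b ∈ T, a * b = b * a)
    (hpow : ∀ a ∈ T, a ^ (p ^ k) = a) :
    ∀ a ∈ Subring.closure T, a ^ (p ^ k) = a := by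
  have := Subring.isMulCommutative_closure hcomm
  have : Fact p.Prime := ⟨hp⟩
  have hne : (1 : AddMonoid.End G) ≠ 0 := by
    obtain ⟨g, hg⟩ := exists_ne (0 : G)
    intro h
    apply hg
    have : (1 : AddMonoid.End G) g = (0 : AddMonoid.End G) g := by rw [h]
    exact this
  have hnt' : Nontrivial (Subring.closure T) :=
    ⟨1, 0, fun h => hne (congrArg Subtype.val h)⟩
  have hchar : CharP (Subring.closure T) p := by
    rw [CharP.charP_iff_prime_eq_zero hp]
    apply Subtype.ext
    refine AddMonoidHom.ext fun g => ?_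
    have : ((p : Subring.closure T) : AddMonoid.End G) = (p : AddMonoid.End G) := by
      push_cast
      rfl
    rw [this]
    show (p : AddMonoid.End G) g = 0
    rw [AddMonoid.End.natCast_apply]
    exact hpG g
  have key : ∀ a : Subring.closure T, a ^ (p ^ k) = a := by
    intro ⟨a, ha⟩
    induction ha using Subring.closure_induction with
    | mem x hx => exact Subtype.ext (hpow x hx)
    | zero =>
      show (0 : Subring.closure T) ^ (p ^ k) = 0
      rw [zero_pow (pow_ne_zero _ hp.ne_zero)]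
    | one =>
      show (1 : Subring.closure T) ^ (p ^ k) = 1
      rw [one_pow]
    | add x y hx hy h1 h2 =>
      show ((⟨x, hx⟩ : Subring.closure T) + ⟨y, hy⟩) ^ (p ^ k) = ⟨x, hx⟩ + ⟨y, hy⟩
      rw [add_pow_char_pow, h1, h2]
    | neg x hx h1 =>
      show (-(⟨x, hx⟩ : Subring.closure T)) ^ (p ^ k) = -⟨x, hx⟩
      have h2 : (⟨x, hx⟩ + -⟨x, hx⟩ : Subring.closure T) ^ (p ^ k) = 0 := by
        rw [add_neg_cancel, zero_pow (pow_ne_zero _ hp.ne_zero)]
      rw [add_pow_char_pow, h1] at h2
      exact (neg_eq_of_add_eq_zero_right h2).symm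
    | mul x y hx hy h1 h2 =>
      show ((⟨x, hx⟩ : Subring.closure T) * ⟨y, hy⟩) ^ (p ^ k) = ⟨x, hx⟩ * ⟨y, hy⟩
      rw [mul_pow, h1, h2]
  intro a ha
  exact congrArg Subtype.val (key ⟨a, ha⟩)

/-- abstract version of `ops_bound` -/
theorem ops_abs (Z : Type) [CommRing Z] (ρ : Z →+* AddMonoid.End G)
    (hρ : Function.Injective ρ) {Q : ℕ} (hQ2 : 2 ≤ Q) (hQ : ∀ a : Z, a ^ Q = a)
    (h : G) (hh : h ≠ 0)
    (hheart : ∀ H : AddSubgroup G, (∀ a : Z, ∀ g ∈ H, ρ a g ∈ H) → (∃ g ∈ H, g ≠ 0) → h ∈ H) :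
    Finite Z ∧ Nat.card Z ≤ Q ∧ Finite G ∧ Nat.card G ≤ Q := by
  classical
  have hmulap : ∀ (a b : Z) (g : G), ρ (a * b) g = ρ a (ρ b g) := by
    intro a b g
    rw [map_mul]
    rfl
  have hext : ∀ a : Z, (∀ g, ρ a g = 0) → a = 0 := by
    intro a ha
    apply hρ
    rw [map_zero]
    exact AddMonoidHom.ext ha
  -- every nonzero element satisfies `a ^ (Q - 1) = 1`
  have hinv : ∀ a : Z, a ≠ 0 → a ^ (Q - 1) = 1 := by
    intro a ha
    set e : Z := a ^ (Q - 1) with he
    have haQ : a ^ Q = a := hQ a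
    have hee : e * e = e := by
      rw [he, ← pow_add]
      have : Q - 1 + (Q - 1) = Q + (Q - 2) := by omega
      rw [this, pow_add, haQ, ← pow_succ']
      congr 1
      omega
    have hae : a * e = a := by
      rw [he, ← pow_succ']
      have : Q - 1 + 1 = Q := by omega
      rw [this, haQ]
    let H1 : AddSubgroup G := (ρ e : G →+ G).ker
    let H2 : AddSubgroup G :=
      { carrier := {g | ρ e g = g}
        add_mem' := by
          intro x y hx hy
          show ρ e (x + y) = x + y
          rw [map_add, show ρ e x = x from hx, show ρ e y = y from hy]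
        zero_mem' := map_zero _
        neg_mem' := by
          intro x hx
          show ρ e (-x) = -x
          rw [map_neg, show ρ e x = x from hx] }
    have hc : ∀ (b : Z) (g : G), ρ e (ρ b g) = ρ b (ρ e g) := by
      intro b g
      rw [← hmulap, mul_comm, hmulap]
    have hs1 : ∀ b : Z, ∀ g ∈ H1, ρ b g ∈ H1 := by
      intro b g hg
      show ρ e (ρ b g) = 0
      rw [hc, show ρ e g = 0 from hg, map_zero]
    have hs2 : ∀ b : Z, ∀ g ∈ H2, ρ b g ∈ H2 := by
      intro b g hg
      show ρ e (ρ b g) = ρ b g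
      rw [hc, show ρ e g = g from hg]
    have hee' : ∀ g, ρ e (ρ e g) = ρ e g := by
      intro g
      rw [← hmulap, hee]
    by_cases h2 : ∃ g ∈ H2, g ≠ 0
    · have hhH2 := hheart H2 hs2 h2
      by_cases h1 : ∃ g ∈ H1, g ≠ 0
      · exfalso
        have hhH1 := hheart H1 hs1 h1
        apply hh
        rw [← show ρ e h = h from hhH2]
        exact hhH1
      · push Not at h1
        have : e - 1 = 0 := by
          apply hext
          intro g
          rw [map_sub, map_one]
          show ρ e g - g = 0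
          have h3 : ρ e g - g ∈ H1 := by
            show ρ e (ρ e g - g) = 0
            rw [map_sub, hee', sub_self]
          exact h1 _ h3
        exact sub_eq_zero.1 this
    · exfalso
      push Not at h2
      apply ha
      rw [← hae]
      have : e = 0 := hext e (fun g => h2 _ (hee' g))
      rw [this, mul_zero]
  have hnt : Nontrivial Z := by
    refine ⟨1, 0, fun h1 => ?_⟩
    apply hh
    have : ρ 1 h = ρ 0 h := by rw [h1]
    rw [map_one, map_zero] at this
    exact this
  have hdom : IsDomain Z := by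
    have : NoZeroDivisors Z := ⟨by
      intro a b hab
      by_cases ha : a = 0
      · left; exact ha
      · right
        have h1 : a ^ (Q - 1) * b = 0 := by
          have : Q - 1 = (Q - 2) + 1 := by omega
          rw [this, pow_succ, mul_assoc, hab, mul_zero]
        rwa [hinv a ha, one_mul] at h1⟩
    exact NoZeroDivisors.to_isDomain _
  have hcardt : ∀ t : Finset Z, t.card ≤ Q := by
    intro t
    have hdeg : (Polynomial.X ^ Q - Polynomial.X : Polynomial Z).natDegree ≤ Q := by
      refine (Polynomial.natDegree_sub_le _ _).trans ?_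
      rw [Polynomial.natDegree_X_pow, Polynomial.natDegree_X]
      exact max_le le_rfl (by omega)
    have hne : (Polynomial.X ^ Q - Polynomial.X : Polynomial Z) ≠ 0 := by
      intro h0
      have h1 := congrArg (fun q => Polynomial.coeff q Q) h0
      simp only [Polynomial.coeff_sub, Polynomial.coeff_X_pow_self, Polynomial.coeff_zero] at h1
      rw [Polynomial.coeff_X_of_ne_one (by omega), sub_zero] at h1
      exact one_ne_zero h1
    refine le_trans ?_ hdeg
    apply Polynomial.card_le_degree_of_subset_roots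
    intro a _
    rw [Polynomial.mem_roots hne, Polynomial.IsRoot, Polynomial.eval_sub,
      Polynomial.eval_pow, Polynomial.eval_X, sub_eq_zero]
    exact hQ a
  have hfinΛ : Finite Z := by
    by_contra hinf
    rw [not_finite_iff_infinite] at hinf
    obtain ⟨t, ht⟩ := Infinite.exists_subset_card_eq Z (Q + 1)
    have := hcardt t
    omega
  have hcardΛ : Nat.card Z ≤ Q := by
    have := Fintype.ofFinite Z
    rw [Nat.card_eq_fintype_card, ← Finset.card_univ]
    exact hcardt _
  -- the group is `Z h`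
  have hsurj : Function.Surjective (fun a : Z => ρ a h) := by
    intro g
    by_cases hg : g = 0
    · exact ⟨0, by
        show ρ 0 h = g
        rw [hg, map_zero]
        rfl⟩
    · let H : AddSubgroup G :=
        { carrier := {x | ∃ a : Z, ρ a g = x}
          add_mem' := by
            rintro _ _ ⟨a, rfl⟩ ⟨b, rfl⟩
            exact ⟨a + b, by rw [map_add]; rfl⟩
          zero_mem' := ⟨0, by rw [map_zero]; rfl⟩
          neg_mem' := by
            rintro _ ⟨a, rfl⟩
            exact ⟨-a, by rw [map_neg]; rfl⟩ }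
      obtain ⟨a, ha⟩ := hheart H (by
        rintro b _ ⟨a, rfl⟩
        exact ⟨b * a, hmulap b a g⟩) ⟨g, ⟨1, by rw [map_one]; rfl⟩, hg⟩
      have ha0 : a ≠ 0 := by
        rintro rfl
        rw [map_zero] at ha
        exact hh ha.symm
      refine ⟨a ^ (Q - 2), ?_⟩
      show ρ (a ^ (Q - 2)) h = g
      rw [← ha, ← hmulap, ← pow_succ]
      have : Q - 2 + 1 = Q - 1 := by omega
      rw [this, hinv a ha0, map_one]
      rfl
  exact ⟨hfinΛ, hcardΛ, Finite.of_surjective _ hsurj,
    (Nat.card_le_card_of_surjective _ hsurj).trans hcardΛ⟩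

open scoped IsMulCommutative in
/-- If a commuting set `T` of operators satisfies `a ^ Q = a` and there is an element in all the
nonzero `T`-stable subgroups, then the operators generate a ring with at most `Q` elements, and
the group has at most `Q` elements. -/
theorem ops_bound {p k : ℕ} (hp : p.Prime) (hk : 1 ≤ k) (hpG : ∀ g : G, p • g = 0)
    (T : Set (AddMonoid.End G)) (hcomm : ∀ a ∈ T, ∀ b ∈ T, a * b = b * a)
    (hpow : ∀ a ∈ T, a ^ (p ^ k) = a) (h : G) (hh : h ≠ 0)
    (hheart : ∀ H : AddSubgroup G, (∀ a ∈ T, ∀ g ∈ H, a g ∈ H) → (∃ g ∈ H, g ≠ 0) → h ∈ H) :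
    Finite (Subring.closure T) ∧ Nat.card (Subring.closure T) ≤ p ^ k ∧
      Finite G ∧ Nat.card G ≤ p ^ k := by
  have hnt : Nontrivial G := ⟨h, 0, hh⟩
  have hQ := closure_pow hp hpG hnt T hcomm hpow
  have := Subring.isMulCommutative_closure hcomm
  have hQ2 : 2 ≤ p ^ k := by
    calc 2 ≤ p := hp.two_le
      _ = p ^ 1 := (pow_one p).symm
      _ ≤ p ^ k := Nat.pow_le_pow_right hp.pos hk
  exact ops_abs (Subring.closure T) (Subring.closure T).subtype Subtype.val_injective hQ2
    (fun a => Subtype.ext (hQ a.1 a.2)) h hh (fun H hH hne =>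
      hheart H (fun a ha => hH ⟨a, Subring.subset_closure ha⟩) hne)

end Ops

/-! ## The rings -/

section Rings

variable {R : Type} [NonUnitalRing R]

/-- `pw n x = x ^ (n + 1)` -/
def pw (n : ℕ) (x : R) : R := ((Lm x) ^ n) x

theorem pw_zero (x : R) : pw 0 x = x := rfl

theorem pw_succ (n : ℕ) (x : R) : pw (n + 1) x = x * pw n x := by
  unfold pw
  rw [pow_succ']
  rfl

theorem pw_mul (a b : ℕ) (x : R) : pw a x * pw b x = pw (a + b + 1) x := by
  induction a with
  | zero => rw [pw_zero, Nat.zero_add, pw_succ]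
  | succ a ih =>
    rw [pw_succ, mul_assoc, ih, ← pw_succ]
    congr 1
    omega

theorem Lm_pow_eq (n : ℕ) (x m : R) : ((Lm x) ^ (n + 1)) m = pw n x * m := by
  unfold pw
  rw [← Lm_pow_mul, pow_succ]
  rfl

theorem Rm_pow_eq (n : ℕ) (x m : R) : ((Rm x) ^ (n + 1)) m = m * pw n x := by
  induction n generalizing m with
  | zero => rfl
  | succ n ih =>
    rw [pow_succ]
    show ((Rm x) ^ (n + 1)) (m * x) = _
    rw [ih, pw_succ, mul_assoc]

/-- the commutators and the elements `x ^ Q - x` -/
def Rho (Q : ℕ) (R : Type) [NonUnitalRing R] : Set R :=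
  {r | (∃ x y : R, r = x * y - y * x) ∨ ∃ x : R, r = pw (Q - 1) x - x}

/-- the semantic form of the identities -/
def Sem (p Q : ℕ) (R : Type) [NonUnitalRing R] : Prop :=
  (∀ r : R, p • r = 0) ∧ (∀ a ∈ Rho Q R, ∀ b ∈ Rho Q R, a * b = 0) ∧
    (∀ a ∈ Rho Q R, ∀ b ∈ Rho Q R, ∀ u, a * u * b = 0)

theorem span_sq {Q p : ℕ} (hS : Sem p Q R) :
    ∀ a ∈ TwoSidedIdeal.span (Rho Q R), ∀ b ∈ TwoSidedIdeal.span (Rho Q R), a * b = 0 := by
  have h1 : ∀ a ∈ TwoSidedIdeal.span (Rho Q R), ∀ b ∈ Rho Q R, a * b = 0 ∧ ∀ u, a * u * b = 0 := by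
    intro a ha
    let J : TwoSidedIdeal R := TwoSidedIdeal.mk' {a | ∀ b ∈ Rho Q R, a * b = 0 ∧ ∀ u, a * u * b = 0}
      (by intro b _; exact ⟨zero_mul _, fun u => by rw [zero_mul, zero_mul]⟩)
      (by
        intro x y hx hy b hb
        refine ⟨by rw [add_mul, (hx b hb).1, (hy b hb).1, add_zero], fun u => ?_⟩
        rw [add_mul, add_mul, (hx b hb).2, (hy b hb).2, add_zero])
      (by
        intro x hx b hb
        exact ⟨by rw [neg_mul, (hx b hb).1, neg_zero],
          fun u => by rw [neg_mul, neg_mul, (hx b hb).2, neg_zero]⟩)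
      (by
        intro r x hx b hb
        exact ⟨by rw [mul_assoc, (hx b hb).1, mul_zero],
          fun u => by rw [mul_assoc r x u, mul_assoc r, (hx b hb).2, mul_zero]⟩)
      (by
        intro x r hx b hb
        exact ⟨(hx b hb).2 r, fun u => by rw [mul_assoc x r u]; exact (hx b hb).2 _⟩)
    have hJ : TwoSidedIdeal.span (Rho Q R) ≤ J := by
      rw [TwoSidedIdeal.span_le]
      intro a ha
      show a ∈ J
      rw [TwoSidedIdeal.mem_mk']
      intro b hb
      exact ⟨hS.2.1 a ha b hb, hS.2.2 a ha b hb⟩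
    exact (TwoSidedIdeal.mem_mk' _ _ _ _ _ _ a).1 (hJ ha)
  intro a ha b hb
  let J : TwoSidedIdeal R := TwoSidedIdeal.mk'
    {b | ∀ a ∈ TwoSidedIdeal.span (Rho Q R), a * b = 0}
    (by intro a _; exact mul_zero _)
    (by intro x y hx hy a ha; rw [mul_add, hx a ha, hy a ha, add_zero])
    (by intro x hx a ha; rw [mul_neg, hx a ha, neg_zero])
    (by
      intro r x hx a ha
      rw [← mul_assoc]
      exact hx _ ((TwoSidedIdeal.span (Rho Q R)).mul_mem_right _ _ ha))
    (by intro x r hx a ha; rw [← mul_assoc, hx a ha, zero_mul])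
  have hJ : TwoSidedIdeal.span (Rho Q R) ≤ J := by
    rw [TwoSidedIdeal.span_le]
    intro b hb
    show b ∈ J
    rw [TwoSidedIdeal.mem_mk']
    intro a ha
    exact (h1 a ha b hb).1
  exact (TwoSidedIdeal.mem_mk' _ _ _ _ _ _ b).1 (hJ hb) a ha

/-- restriction of the left multiplication to an ideal -/
def LI (M : TwoSidedIdeal R) (x : R) : AddMonoid.End M where
  toFun m := ⟨x * m.1, M.mul_mem_left _ _ m.2⟩
  map_zero' := Subtype.ext (mul_zero x)
  map_add' a b := Subtype.ext (mul_add x a.1 b.1)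

/-- restriction of the right multiplication to an ideal -/
def RI (M : TwoSidedIdeal R) (x : R) : AddMonoid.End M where
  toFun m := ⟨m.1 * x, M.mul_mem_right _ _ m.2⟩
  map_zero' := Subtype.ext (zero_mul x)
  map_add' a b := Subtype.ext (add_mul a.1 b.1 x)

theorem LI_pow (M : TwoSidedIdeal R) (x : R) (n : ℕ) (m : M) :
    (((LI M x) ^ n) m).1 = ((Lm x) ^ n) m.1 := by
  induction n with
  | zero => rfl
  | succ n ih =>
    rw [pow_succ', pow_succ']
    show x * (((LI M x) ^ n) m).1 = x * ((Lm x) ^ n) m.1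
    rw [ih]

theorem RI_pow (M : TwoSidedIdeal R) (x : R) (n : ℕ) (m : M) :
    (((RI M x) ^ n) m).1 = ((Rm x) ^ n) m.1 := by
  induction n with
  | zero => rfl
  | succ n ih =>
    rw [pow_succ', pow_succ']
    show (((RI M x) ^ n) m).1 * x = ((Rm x) ^ n) m.1 * x
    rw [ih]

theorem si_bound {p k : ℕ} (hp : p.Prime) (hk : 1 ≤ k) (hS : Sem p (p ^ k) R) (h : R)
    (hh : h ≠ 0) (hheart : ∀ J : TwoSidedIdeal R, (∃ a ∈ J, a ≠ 0) → h ∈ J) :
    Finite R ∧ Nat.card R ≤ (p ^ k) ^ 3 := by
  classical
  set Q := p ^ k with hQdef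
  have hQ2 : 2 ≤ Q := by
    calc 2 ≤ p := hp.two_le
      _ = p ^ 1 := (pow_one p).symm
      _ ≤ p ^ k := Nat.pow_le_pow_right hp.pos hk
  have hQ1 : Q - 1 + 1 = Q := by omega
  set M := TwoSidedIdeal.span (Rho Q R) with hM
  have hsq := span_sq hS
  have hRho : ∀ a ∈ Rho Q R, a ∈ M := fun a ha => TwoSidedIdeal.subset_span ha
  by_cases hM0 : ∃ a ∈ M, a ≠ 0
  · -- the nonreduced case
    have hhM : h ∈ M := hheart M hM0
    let T : Set (AddMonoid.End M) := {a | (∃ x, a = LI M x) ∨ ∃ x, a = RI M x}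
    have hcomm : ∀ a ∈ T, ∀ b ∈ T, a * b = b * a := by
      rintro a (⟨x, rfl⟩ | ⟨x, rfl⟩) b (⟨y, rfl⟩ | ⟨y, rfl⟩)
      · refine AddMonoidHom.ext fun m => Subtype.ext ?_
        show x * (y * m.1) = y * (x * m.1)
        have := hsq (x * y - y * x) (hRho _ (Or.inl ⟨x, y, rfl⟩)) m.1 m.2
        rw [sub_mul, sub_eq_zero] at this
        rw [← mul_assoc, this, mul_assoc]
      · refine AddMonoidHom.ext fun m => Subtype.ext ?_
        show x * (m.1 * y) = x * m.1 * y
        rw [mul_assoc]
      · refine AddMonoidHom.ext fun m => Subtype.ext ?_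
        show (y * m.1) * x = y * (m.1 * x)
        rw [mul_assoc]
      · refine AddMonoidHom.ext fun m => Subtype.ext ?_
        show m.1 * y * x = m.1 * x * y
        have := hsq m.1 m.2 (x * y - y * x) (hRho _ (Or.inl ⟨x, y, rfl⟩))
        rw [mul_sub, sub_eq_zero] at this
        rw [mul_assoc, ← this, mul_assoc]
    have hpow : ∀ a ∈ T, a ^ Q = a := by
      rintro a (⟨x, rfl⟩ | ⟨x, rfl⟩)
      · refine AddMonoidHom.ext fun m => Subtype.ext ?_
        have := hsq (pw (Q - 1) x - x) (hRho _ (Or.inr ⟨x, rfl⟩)) m.1 m.2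
        rw [sub_mul, sub_eq_zero, ← Lm_pow_eq, hQ1] at this
        exact (LI_pow M x Q m).trans this
      · refine AddMonoidHom.ext fun m => Subtype.ext ?_
        have := hsq m.1 m.2 (pw (Q - 1) x - x) (hRho _ (Or.inr ⟨x, rfl⟩))
        rw [mul_sub, sub_eq_zero, ← Rm_pow_eq, hQ1] at this
        exact (RI_pow M x Q m).trans this
    obtain ⟨hf1, hc1, hf2, hc2⟩ := ops_bound hp hk
      (fun g : M => Subtype.ext (hS.1 g.1)) T hcomm hpow
      (⟨h, hhM⟩ : M) (fun h0 => hh (congrArg Subtype.val h0)) (by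
        intro H hH ⟨g, hg, hg0⟩
        let J : TwoSidedIdeal R := TwoSidedIdeal.mk' {r | ∃ hr : r ∈ M, (⟨r, hr⟩ : M) ∈ H}
          ⟨M.zero_mem, H.zero_mem⟩
          (by
            rintro x y ⟨hx, hx'⟩ ⟨hy, hy'⟩
            exact ⟨M.add_mem hx hy, H.add_mem hx' hy'⟩)
          (by
            rintro x ⟨hx, hx'⟩
            exact ⟨M.neg_mem hx, H.neg_mem hx'⟩)
          (by
            rintro r x ⟨hx, hx'⟩
            exact ⟨M.mul_mem_left _ _ hx, hH (LI M r) (Or.inl ⟨r, rfl⟩) _ hx'⟩)
          (by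
            rintro x r ⟨hx, hx'⟩
            exact ⟨M.mul_mem_right _ _ hx, hH (RI M r) (Or.inr ⟨r, rfl⟩) _ hx'⟩)
        have hJ : h ∈ J := hheart J ⟨g.1, (TwoSidedIdeal.mem_mk' _ _ _ _ _ _ _).2 ⟨g.2, hg⟩,
          fun h0 => hg0 (Subtype.ext h0)⟩
        obtain ⟨_, h2⟩ := (TwoSidedIdeal.mem_mk' _ _ _ _ _ _ _).1 hJ
        exact h2)
    -- the annihilator of `M` is `M`
    have hann : ∀ x : R, (∀ m ∈ M, x * m = 0) → (∀ m ∈ M, m * x = 0) → x ∈ M := by
      intro x hx1 hx2
      have hpwann : ∀ n : ℕ, (∀ m ∈ M, pw n x * m = 0) ∧ (∀ m ∈ M, m * pw n x = 0) := by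
        intro n
        induction n with
        | zero => exact ⟨hx1, hx2⟩
        | succ n ih =>
          refine ⟨fun m hm => ?_, fun m hm => ?_⟩
          · rw [pw_succ, mul_assoc, ih.1 m hm, mul_zero]
          · rw [pw_succ, ← mul_assoc, hx2 m hm, zero_mul]
      have hpwM : ∀ n : ℕ, pw (n + (Q - 1)) x - pw n x ∈ M := by
        intro n
        induction n with
        | zero => rw [Nat.zero_add]; exact hRho _ (Or.inr ⟨x, rfl⟩)
        | succ n ih =>
          have : n + 1 + (Q - 1) = (n + (Q - 1)) + 1 := by omega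
          rw [this, pw_succ, pw_succ, ← mul_sub]
          exact M.mul_mem_left _ _ ih
      set e1 := pw (Q - 2) x with he1
      have hm : e1 * e1 - e1 ∈ M := by
        rw [he1, pw_mul]
        have : Q - 2 + (Q - 2) + 1 = (Q - 2) + (Q - 1) := by omega
        rw [this]
        exact hpwM _
      have h3 : e1 * (e1 * e1) = e1 * e1 := by
        have := (hpwann (Q - 2)).1 _ hm
        rw [← he1, mul_sub, sub_eq_zero] at this
        exact this
      set e := e1 * e1 with he
      have hee : e * e = e := by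
        rw [he, mul_assoc, h3, h3]
      have heann : (∀ m ∈ M, e * m = 0) ∧ (∀ m ∈ M, m * e = 0) := by
        refine ⟨fun m hm => ?_, fun m hm => ?_⟩
        · rw [he, mul_assoc, (hpwann (Q - 2)).1 m hm, mul_zero]
        · rw [he, ← mul_assoc, (hpwann (Q - 2)).2 m hm, zero_mul]
      have hcen : ∀ r, e * r = r * e := by
        intro r
        have hmem : e * r - r * e ∈ M := hRho _ (Or.inl ⟨e, r, rfl⟩)
        have k1 := heann.1 _ hmem
        have k2 := heann.2 _ hmem
        rw [mul_sub, sub_eq_zero, ← mul_assoc, hee] at k1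
        rw [sub_mul, sub_eq_zero, mul_assoc r e e, hee] at k2
        exact k1.trans ((mul_assoc e r e).symm.trans k2)
      have he0 : e = 0 := by
        by_contra hne
        let J : TwoSidedIdeal R := TwoSidedIdeal.mk' {r | e * r = r}
          (mul_zero e)
          (by
            intro a b ha hb
            show e * (a + b) = a + b
            rw [mul_add, show e * a = a from ha, show e * b = b from hb])
          (by
            intro a ha
            show e * (-a) = -a
            rw [mul_neg, show e * a = a from ha])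
          (by
            intro r a ha
            show e * (r * a) = r * a
            rw [← mul_assoc, hcen r, mul_assoc, show e * a = a from ha])
          (by
            intro a r ha
            show e * (a * r) = a * r
            rw [← mul_assoc, show e * a = a from ha])
        have hJm : ∀ r, r ∈ J ↔ e * r = r := fun r => TwoSidedIdeal.mem_mk' _ _ _ _ _ _ r
        have hJ : h ∈ J := hheart J ⟨e, (hJm e).2 hee, hne⟩
        have h1 : e * h = h := (hJm h).1 hJ
        rw [heann.1 h hhM] at h1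
        exact hh h1.symm
      have he1M : e1 ∈ M := by
        have : e1 = -(e1 * e1 - e1) := by
          rw [← he, he0, zero_sub, neg_neg]
        rw [this]
        exact M.neg_mem hm
      have hxQ : pw (Q - 1) x ∈ M := by
        have : Q - 1 = (Q - 2) + 1 := by omega
        rw [this, pw_succ]
        exact M.mul_mem_left _ _ he1M
      have : x = pw (Q - 1) x - (pw (Q - 1) x - x) := by abel
      rw [this]
      exact M.sub_mem hxQ (hRho _ (Or.inr ⟨x, rfl⟩))
    -- counting
    let Λ := Subring.closure T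
    let π : R → Λ × Λ := fun x => (⟨LI M x, Subring.subset_closure (Or.inl ⟨x, rfl⟩)⟩,
      ⟨RI M x, Subring.subset_closure (Or.inr ⟨x, rfl⟩)⟩)
    let sec : Λ × Λ → R := fun q => if hq : ∃ x, π x = q then hq.choose else 0
    have hsec : ∀ x, π (sec (π x)) = π x := by
      intro x
      have hq : ∃ y, π y = π x := ⟨x, rfl⟩
      have : sec (π x) = hq.choose := dif_pos hq
      rw [this]
      exact hq.choose_spec
    have hdiff : ∀ x, x - sec (π x) ∈ M := by
      intro x
      have h1 := hsec x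
      have hL : LI M (sec (π x)) = LI M x :=
        congrArg (fun q : Λ × Λ => q.1.1) h1
      have hR : RI M (sec (π x)) = RI M x :=
        congrArg (fun q : Λ × Λ => q.2.1) h1
      apply hann
      · intro m hm
        have : (LI M (sec (π x)) ⟨m, hm⟩).1 = (LI M x ⟨m, hm⟩).1 := by rw [hL]
        have h2 : sec (π x) * m = x * m := this
        rw [sub_mul, h2, sub_self]
      · intro m hm
        have : (RI M (sec (π x)) ⟨m, hm⟩).1 = (RI M x ⟨m, hm⟩).1 := by rw [hR]
        have h2 : m * sec (π x) = m * x := this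
        rw [mul_sub, h2, sub_self]
    let Φ : R → (Λ × Λ) × M := fun x => (π x, ⟨x - sec (π x), hdiff x⟩)
    have hΦ : Function.Injective Φ := by
      intro x y hxy
      have h1 : π x = π y := congrArg Prod.fst hxy
      have h2 : x - sec (π x) = y - sec (π y) :=
        congrArg (fun q : (Λ × Λ) × M => q.2.1) hxy
      rw [h1] at h2
      exact sub_left_injective h2
    refine ⟨Finite.of_injective Φ hΦ, ?_⟩
    calc Nat.card R ≤ Nat.card ((Λ × Λ) × M) := Nat.card_le_card_of_injective Φ hΦ
      _ = Nat.card Λ * Nat.card Λ * Nat.card M := by rw [Nat.card_prod, Nat.card_prod]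
      _ ≤ Q * Q * Q := Nat.mul_le_mul (Nat.mul_le_mul hc1 hc1) hc2
      _ = Q ^ 3 := by ring
  · -- the commutative reduced case
    push Not at hM0
    have hc : ∀ x y : R, x * y = y * x := fun x y =>
      sub_eq_zero.1 (hM0 _ (hRho _ (Or.inl ⟨x, y, rfl⟩)))
    have hxQ : ∀ x : R, pw (Q - 1) x = x := fun x =>
      sub_eq_zero.1 (hM0 _ (hRho _ (Or.inr ⟨x, rfl⟩)))
    let T : Set (AddMonoid.End R) := {a | ∃ x, a = Lm x}
    obtain ⟨_, _, hf2, hc2⟩ := ops_bound hp hk hS.1 T (by
        rintro _ ⟨x, rfl⟩ _ ⟨y, rfl⟩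
        rw [← Lm_mul, ← Lm_mul, hc]) (by
        rintro _ ⟨x, rfl⟩
        refine AddMonoidHom.ext fun m => ?_
        have h1 := Lm_pow_eq (Q - 1) x m
        rw [hxQ, hQ1] at h1
        exact h1) h hh (by
        intro H hH hne
        let J : TwoSidedIdeal R := TwoSidedIdeal.mk' {r | r ∈ H} H.zero_mem
          (fun {x y} hx hy => H.add_mem hx hy) (fun {x} hx => H.neg_mem hx)
          (fun {x y} hy => hH (Lm x) ⟨x, rfl⟩ y hy)
          (fun {x y} hx => by
            show x * y ∈ H
            rw [hc x y]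
            exact hH (Lm y) ⟨y, rfl⟩ x hx)
        obtain ⟨g, hg, hg0⟩ := hne
        exact (TwoSidedIdeal.mem_mk' _ _ _ _ _ _ _).1
          (hheart J ⟨g, (TwoSidedIdeal.mem_mk' _ _ _ _ _ _ _).2 hg, hg0⟩))
    refine ⟨hf2, hc2.trans ?_⟩
    exact Nat.le_self_pow (by norm_num) Q

end Rings

end Pool.Agent.N57.EN
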