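import Pool.Agent.N57.EN.Cross

/-!
# The rings `TRing K a b`
-/

namespace Pool.Agent.N57.EN

/-- the nonunital ring of upper triangular matrices -/
def UT (K : Type) [Field K] : NonUnitalSubring (Matrix (Fin 2) (Fin 2) K) where
  carrier := {x | x 1 0 = 0}
  add_mem' := by
    intro x y hx hy
    show (x + y) 1 0 = 0
    rw [Matrix.add_apply, show x 1 0 = 0 from hx, show y 1 0 = 0 from hy, add_zero]
  zero_mem' := rfl
  neg_mem' := by
    intro x hx
    show (-x) 1 0 = 0
    rw [Matrix.neg_apply, show x 1 0 = 0 from hx, neg_zero]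
  mul_mem' := by
    intro x y hx hy
    show (x * y) 1 0 = 0
    rw [Matrix.mul_apply, Fin.sum_univ_two, show x 1 0 = 0 from hx, show y 1 0 = 0 from hy,
      zero_mul, mul_zero, add_zero]

variable {K : Type} [Field K]

theorem UT_mul_diag (x y : UT K) (i : Fin 2) : (x * y).1 i i = x.1 i i * y.1 i i := by
  have hx : x.1 1 0 = 0 := x.2
  have hy : y.1 1 0 = 0 := y.2
  show (x.1 * y.1) i i = _
  fin_cases i
  · simp [Matrix.mul_apply, Fin.sum_univ_two, hy]
  · simp [Matrix.mul_apply, Fin.sum_univ_two, hx]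

theorem UT_pw_diag (n : ℕ) (x : UT K) (i : Fin 2) : (pw n x).1 i i = (x.1 i i) ^ (n + 1) := by
  induction n with
  | zero => rw [pw_zero, Nat.zero_add, pow_one]
  | succ n ih => rw [pw_succ, UT_mul_diag, ih, ← pow_succ']

theorem UT_rho [Finite K] {Q : ℕ} (hQ : Nat.card K = Q) (a : UT K) (ha : a ∈ Rho Q (UT K))
    (i : Fin 2) : a.1 i i = 0 := by
  rcases ha with ⟨x, y, rfl⟩ | ⟨x, rfl⟩
  · show (x * y).1 i i - (y * x).1 i i = 0
    rw [UT_mul_diag, UT_mul_diag, mul_comm, sub_self]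
  · show (pw (Q - 1) x).1 i i - x.1 i i = 0
    have hpos : 0 < Q := by rw [← hQ]; exact Nat.card_pos
    rw [UT_pw_diag, Nat.sub_add_cancel hpos, ← hQ]
    have := Fintype.ofFinite K
    rw [Nat.card_eq_fintype_card, FiniteField.pow_card, sub_self]

theorem UT_strict_mul (a b : UT K) (ha : ∀ i, a.1 i i = 0) (hb : ∀ i, b.1 i i = 0) :
    a * b = 0 := by
  have ha' : a.1 1 0 = 0 := a.2
  have hb' : b.1 1 0 = 0 := b.2
  apply Subtype.ext
  show a.1 * b.1 = 0
  ext i j
  rw [Matrix.mul_apply, Fin.sum_univ_two]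
  fin_cases i <;> fin_cases j <;> simp [ha, hb, ha', hb']

theorem sem_UT [Finite K] {p k : ℕ} (hp : CharP K p) (hQ : Nat.card K = p ^ k) :
    Sem p (p ^ k) (UT K) := by
  refine ⟨?_, ?_, ?_⟩
  · intro r
    apply Subtype.ext
    show p • r.1 = 0
    ext i j
    rw [Matrix.smul_apply, nsmul_eq_mul, CharP.cast_eq_zero, zero_mul]
    rfl
  · intro a ha b hb
    exact UT_strict_mul a b (UT_rho hQ a ha) (UT_rho hQ b hb)
  · intro a ha b hb u
    apply UT_strict_mul (a * u) b _ (UT_rho hQ b hb)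
    intro i
    rw [UT_mul_diag, UT_rho hQ a ha, zero_mul]

theorem TRing_le (a b : K) : TRing K a b ≤ UT K := by
  unfold TRing
  rw [NonUnitalSubring.closure_le]
  rintro x (hx | ⟨u, rfl⟩)
  · rw [Set.mem_singleton_iff] at hx
    subst hx
    rfl
  · rfl

theorem exists_sig0 [Finite K] (a b : K) : ∃ p k : ℕ, p.Prime ∧ 1 ≤ k ∧
    InVar (Sig0 p (p ^ k)) (TRing K a b) := by
  obtain ⟨p, hp⟩ := CharP.exists K
  have := Fintype.ofFinite K
  obtain ⟨k, hpp, hk⟩ := FiniteField.card K p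
  refine ⟨p, k, hpp, k.2, ?_⟩
  apply InVar.of_inj (NonUnitalSubring.inclusion (TRing_le a b))
    (fun x y h => Subtype.ext (congrArg (fun z : UT K => z.1) h))
  apply inVar_of_sem
  apply sem_UT hp
  rw [Nat.card_eq_fintype_card, hk]

theorem engel_TRing (a b : K) (hab : a ≠ b) (n : ℕ) :
    ∃ x y : TRing K a b, engel n x y ≠ 0 := by
  let X : TRing K a b := ⟨!![0, 1; 0, 0], NonUnitalSubring.subset_closure (Or.inr ⟨1, rfl⟩)⟩
  let Y : TRing K a b := ⟨!![a, 0; 0, b], NonUnitalSubring.subset_closure (Or.inl rfl)⟩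
  refine ⟨X, Y, ?_⟩
  have h : ∀ n, (engel n X Y).1 = !![0, (b - a) ^ n; 0, 0] := by
    intro n
    induction n with
    | zero => rw [pow_zero]; rfl
    | succ n ih =>
      show (engel n X Y).1 * Y.1 - Y.1 * (engel n X Y).1 = _
      rw [ih]
      show !![0, (b - a) ^ n; 0, 0] * !![a, 0; 0, b] - !![a, 0; 0, b] * !![0, (b - a) ^ n; 0, 0]
        = _
      ext i j
      fin_cases i <;> fin_cases j <;>
        simp <;> ring
  intro h0
  have h1 := congrFun (congrFun (h n) 0) 1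
  rw [h0] at h1
  have h2 : (0 : K) = (b - a) ^ n := h1
  exact pow_ne_zero n (sub_ne_zero.2 hab.symm) h2.symm

theorem not_engel_of_mem {S : Set RTerm} {K : Type} [Field K] (a b : K) (hab : a ≠ b)
    (h : InVar S (TRing K a b)) : ¬ IsEngel S := by
  rintro ⟨n, _, hn⟩
  obtain ⟨x, y, hxy⟩ := engel_TRing a b hab n
  exact hxy (hn _ h x y)

theorem main_engel (S : Set RTerm) : IsEngel S ↔
    ∀ (K : Type) (_ : Field K) (_ : Finite K) (a b : K), a ≠ b → ¬ InVar S (TRing K a b) := by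
  constructor
  · intro h K _ _ a b hab hS
    exact not_engel_of_mem a b hab hS h
  · intro h
    exact engel_of_NoT h

theorem main_cross (S : Set RTerm) (hS : MinimalNonEngel S) : IsCross S ∧
    ∃ (K : Type) (_ : Field K) (_ : Finite K) (a b : K), a ≠ b ∧
      VarLE S (Id (TRing K a b)) ∧ VarLE (Id (TRing K a b)) S := by
  obtain ⟨h1, h2⟩ := hS
  rw [main_engel] at h1
  push Not at h1
  obtain ⟨K, hF, hfin, a, b, hab, hT⟩ := h1
  have hle : VarLE (Id (TRing K a b)) S := fun R _ hR t ht => hR t (hT t ht)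
  have hge : VarLE S (Id (TRing K a b)) := by
    by_contra hcon
    exact not_engel_of_mem a b hab (fun t ht => ht) (h2 _ hle hcon)
  refine ⟨?_, K, hF, hfin, a, b, hab, hge, hle⟩
  obtain ⟨p, k, hp, hk, h0⟩ := exists_sig0 a b
  have : Finite (TRing K a b) := inferInstance
  exact cross_of_finite hp hk h0 hge hle

end Pool.Agent.N57.EN
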