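import Pool.Agent.N57.EN.Free

/-!
# Vandermonde elimination
-/

namespace Pool.Agent.N57.EN

theorem vdm_module {Z M : Type*} [CommRing Z] [AddCommGroup M] [Module Z M] {n : ℕ}
    (e : Fin n → Z) (hinj : ∀ i j, i ≠ j → ∀ a : M, (e i - e j) • a = 0 → a = 0)
    (c : Fin n → M) (h : ∀ j, ∑ d : Fin n, (e j) ^ (d : ℕ) • c d = 0) : ∀ d, c d = 0 := by
  classical
  have hdet : ∀ a : M, (Matrix.vandermonde e).det • a = 0 → a = 0 := by
    rw [Matrix.det_vandermonde]
    apply Finset.prod_induction _ (fun z : Z => ∀ a : M, z • a = 0 → a = 0)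
    · intro x y hx hy a ha
      rw [mul_smul] at ha
      exact hy a (hx _ ha)
    · intro a ha
      rwa [one_smul] at ha
    · intro i _
      apply Finset.prod_induction _ (fun z : Z => ∀ a : M, z • a = 0 → a = 0)
      · intro x y hx hy a ha
        rw [mul_smul] at ha
        exact hy a (hx _ ha)
      · intro a ha
        rwa [one_smul] at ha
      · intro j hj
        exact hinj j i (ne_of_gt (Finset.mem_Ioi.1 hj))
  intro i
  apply hdet
  have h1 : ∑ j, (Matrix.vandermonde e).adjugate i j •
      (∑ d : Fin n, (Matrix.vandermonde e) j d • c d) = 0 := by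
    apply Finset.sum_eq_zero
    intro j _
    have := h j
    simp only [Matrix.vandermonde_apply]
    rw [this, smul_zero]
  rw [← h1]
  simp only [Finset.smul_sum, smul_smul]
  rw [Finset.sum_comm]
  simp only [← Finset.sum_smul]
  have h2 : ∀ d, ∑ j, (Matrix.vandermonde e).adjugate i j * (Matrix.vandermonde e) j d
      = if i = d then (Matrix.vandermonde e).det else 0 := by
    intro d
    rw [← Matrix.mul_apply, Matrix.adjugate_mul, Matrix.smul_apply, Matrix.one_apply]
    simp
  simp only [h2, ite_smul, zero_smul, Finset.sum_ite_eq, Finset.mem_univ, if_true]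

open scoped IsMulCommutative in
theorem vdm_end {M : Type*} [AddCommGroup M] {n : ℕ} (e : Fin n → AddMonoid.End M)
    (hc : ∀ i j, e i * e j = e j * e i)
    (hinj : ∀ i j, i ≠ j → ∀ a : M, (e i) a = (e j) a → a = 0)
    (c : Fin n → M) (h : ∀ j, ∑ d : Fin n, ((e j) ^ (d : ℕ)) (c d) = 0) : ∀ d, c d = 0 := by
  have hcomm : ∀ a ∈ Set.range e, ∀ b ∈ Set.range e, a * b = b * a := by
    rintro _ ⟨i, rfl⟩ _ ⟨j, rfl⟩
    exact hc i j
  have := Subring.isMulCommutative_closure hcomm
  let e' : Fin n → Subring.closure (Set.range e) :=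
    fun i => ⟨e i, Subring.subset_closure ⟨i, rfl⟩⟩
  apply vdm_module (Z := Subring.closure (Set.range e)) e' _ c
  · intro j
    exact h j
  · intro i j hij a ha
    apply hinj i j hij
    have h1 : (e i) a - (e j) a = 0 := ha
    exact sub_eq_zero.1 h1

section

variable {R : Type} [NonUnitalRing R]

/-- left-to-right product with a prefix -/
def fw {ι : Type*} (g : ι → R) (z : R) (l : List ι) : R := l.foldl (fun acc i => acc * g i) z

theorem fw_nil {ι : Type*} (g : ι → R) (z : R) : fw g z [] = z := rfl

theorem fw_cons {ι : Type*} (g : ι → R) (z : R) (i : ι) (l : List ι) :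
    fw g z (i :: l) = fw g (z * g i) l := rfl

theorem fw_append {ι : Type*} (g : ι → R) (z : R) (l l' : List ι) :
    fw g z (l ++ l') = fw g (fw g z l) l' := by
  unfold fw
  rw [List.foldl_append]

theorem fw_snoc {ι : Type*} (g : ι → R) (z : R) (l : List ι) (i : ι) :
    fw g z (l ++ [i]) = fw g z l * g i := by
  rw [fw_append]
  rfl

theorem mul_fw {ι : Type*} (g : ι → R) (z z' : R) (l : List ι) :
    z * fw g z' l = fw g (z * z') l := by
  induction l generalizing z' with
  | nil => rfl
  | cons i l ih =>
    rw [fw_cons, fw_cons, ih, mul_assoc]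

theorem mul_wd (x y z : R) (w : FW) :
    z * wd x y w = fw (fun b => bif b then x else y) z (toL w) := by
  have : wd x y w = fw (fun b => bif b then x else y) (bif w.head then x else y) w.tail := rfl
  rw [this, mul_fw]
  rfl

/-- the values `c v` for `c` in the extended centroid -/
def Cs (v : R) : Set R := {u | ∀ r, u * r * v = v * r * u}

theorem self_mem_Cs (v : R) : v ∈ Cs v := fun _ => rfl

theorem exchange {u v : R} (hu : u ∈ Cs v) (y z : R) (l : List Bool) :
    ∀ s : R, ((Rm v) ^ (l.count true)) (fw (fun b => bif b then u else y) z l * s)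
      = ((Rm u) ^ (l.count true)) (fw (fun b => bif b then v else y) z l * s) := by
  induction l using List.reverseRecOn with
  | nil => intro s; rfl
  | append_singleton l b ih =>
    intro s
    rw [fw_snoc, fw_snoc]
    cases b with
    | false =>
      have hc : (l ++ [false]).count true = l.count true := by
        rw [List.count_append]; simp
      rw [hc]
      show ((Rm v) ^ (l.count true)) (fw (fun b => bif b then u else y) z l * y * s)
        = ((Rm u) ^ (l.count true)) (fw (fun b => bif b then v else y) z l * y * s)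
      rw [mul_assoc, mul_assoc]
      exact ih (y * s)
    | true =>
      have hc : (l ++ [true]).count true = l.count true + 1 := by
        rw [List.count_append]; simp
      rw [hc, pow_succ, pow_succ]
      show ((Rm v) ^ (l.count true)) (fw (fun b => bif b then u else y) z l * u * s * v)
        = ((Rm u) ^ (l.count true)) (fw (fun b => bif b then v else y) z l * v * s * u)
      have e1 : fw (fun b => bif b then u else y) z l * u * s * v
          = fw (fun b => bif b then u else y) z l * (v * s * u) := by
        rw [mul_assoc, mul_assoc, ← mul_assoc u s v, hu s]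
      have e2 : fw (fun b => bif b then v else y) z l * v * s * u
          = fw (fun b => bif b then v else y) z l * (v * s * u) := by
        rw [mul_assoc, mul_assoc, ← mul_assoc v s u]
      rw [e1, e2]
      exact ih (v * s * u)

variable (hd : ∀ a b : R, a * b = 0 → a = 0 ∨ b = 0)

include hd

theorem mul_cancel_r {a b c : R} (hc : c ≠ 0) (h : a * c = b * c) : a = b := by
  have : (a - b) * c = 0 := by rw [sub_mul, h, sub_self]
  rcases hd _ _ this with h | h
  · exact sub_eq_zero.1 h
  · exact absurd h hc

theorem mul_cancel_l {a b c : R} (hc : c ≠ 0) (h : c * a = c * b) : a = b := by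
  have : c * (a - b) = 0 := by rw [mul_sub, h, sub_self]
  rcases hd _ _ this with h | h
  · exact absurd h hc
  · exact sub_eq_zero.1 h

theorem mul_ne {a b : R} (ha : a ≠ 0) (hb : b ≠ 0) : a * b ≠ 0 := by
  intro h
  rcases hd _ _ h with h | h
  · exact ha h
  · exact hb h

theorem Cs_comm_self {u v : R} (hv : v ≠ 0) (hu : u ∈ Cs v) : u * v = v * u := by
  -- `(u v) v v = u (v v) v = v (v v) u = v (u v v)`
  have h1 : u * v * (v * v) = v * u * (v * v) := by
    calc u * v * (v * v) = u * (v * v) * v := by simp only [mul_assoc]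
      _ = v * (v * v) * u := hu (v * v)
      _ = v * (v * v * u) := by rw [mul_assoc]
      _ = v * (u * v * v) := by rw [hu v]
      _ = v * u * (v * v) := by simp only [mul_assoc]
  exact mul_cancel_r hd (mul_ne hd hv hv) h1

theorem Cs_comm {u u' v : R} (hv : v ≠ 0) (hu : u ∈ Cs v) (hu' : u' ∈ Cs v) :
    u * u' = u' * u := by
  have h1 : v * (u * u') = v * (u' * u) := by
    calc v * (u * u') = v * u * u' := by rw [mul_assoc]
      _ = u' * u * v := (hu' u).symm
      _ = u' * (v * u) := by rw [mul_assoc, Cs_comm_self hd hv hu]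
      _ = v * u' * u := by rw [← mul_assoc, Cs_comm_self hd hv hu']
      _ = v * (u' * u) := by rw [mul_assoc]
  exact mul_cancel_l hd hv h1

/-- If `v` has sufficiently many multiples in the extended centroid, then the linear part of the
identity vanishes at `v`. -/
theorem separate {W : Finset FW} {c : FW → ℤ} {N M : ℕ}
    (hW : ∀ x y : R, ∑ w ∈ W, c w • wd x y w = 0)
    (hM : ∀ w ∈ W, cnt w ≤ M)
    (hlin : ∀ x y : R, ∑ w ∈ W with cnt w = 1, c w • wd x y w = engel N x y)
    (v : R) (hv : v ≠ 0) (u : Fin (M + 1) → R) (hu : ∀ i, u i ∈ Cs v)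
    (hinj : Function.Injective u) (hM1 : 1 ≤ M) (y : R) : engel N v y = 0 := by
  classical
  -- the components
  let f : ℕ → R := fun d => ∑ w ∈ W with cnt w = d, c w • (v * wd v y w)
  have hcomm : ∀ i j, Rm (u i) * Rm (u j) = Rm (u j) * Rm (u i) := by
    intro i j
    rw [← Rm_mul, ← Rm_mul, Cs_comm hd hv (hu i) (hu j)]
  have hcommv : ∀ i, Commute (Rm v) (Rm (u i)) := by
    intro i
    show Rm v * Rm (u i) = Rm (u i) * Rm v
    rw [← Rm_mul, ← Rm_mul, Cs_comm_self hd hv (hu i)]
  have key : ∀ j, ∑ d : Fin (M + 1), ((Rm (u j)) ^ (d : ℕ)) (((Rm v) ^ (M - (d : ℕ))) (f d * v))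
      = 0 := by
    intro j
    have h0 : ((Rm v) ^ M) ((v * ∑ w ∈ W, c w • wd (u j) y w) * v) = 0 := by
      rw [hW, mul_zero, zero_mul, map_zero]
    rw [Finset.mul_sum, Finset.sum_mul, map_sum] at h0
    rw [← h0]
    -- regroup
    have h1 : ∀ w ∈ W, ((Rm v) ^ M) (v * (c w • wd (u j) y w) * v)
        = c w • ((Rm (u j)) ^ (cnt w)) (((Rm v) ^ (M - cnt w)) (v * wd v y w * v)) := by
      intro w hw
      have hle := hM w hw
      rw [mul_smul_comm, smul_mul_assoc, map_zsmul]
      congr 1
      have e1 : (Rm v) ^ M = (Rm v) ^ (M - cnt w) * (Rm v) ^ (cnt w) := by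
        rw [← pow_add, Nat.sub_add_cancel hle]
      rw [e1]
      show ((Rm v) ^ (M - cnt w)) (((Rm v) ^ (cnt w)) (v * wd (u j) y w * v)) = _
      rw [mul_wd, show cnt w = (toL w).count true from rfl, exchange (hu j), ← mul_wd]
      have e2 := (hcommv j).pow_pow (M - (toL w).count true) ((toL w).count true)
      have e3 : ((Rm v) ^ (M - (toL w).count true) * (Rm (u j)) ^ ((toL w).count true))
          (v * wd v y w * v) = ((Rm (u j)) ^ ((toL w).count true) *
          (Rm v) ^ (M - (toL w).count true)) (v * wd v y w * v) := by rw [e2]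
      exact e3
    rw [Finset.sum_congr rfl h1]
    have h2 : ∀ d : Fin (M + 1), ((Rm (u j)) ^ (d : ℕ)) (((Rm v) ^ (M - (d : ℕ))) (f d * v))
        = ∑ w ∈ W with cnt w = (d : ℕ),
          c w • ((Rm (u j)) ^ (cnt w)) (((Rm v) ^ (M - cnt w)) (v * wd v y w * v)) := by
      intro d
      show ((Rm (u j)) ^ (d : ℕ)) (((Rm v) ^ (M - (d : ℕ)))
        ((∑ w ∈ W with cnt w = (d : ℕ), c w • (v * wd v y w)) * v)) = _
      rw [Finset.sum_mul, map_sum, map_sum]
      apply Finset.sum_congr rfl
      intro w hw
      rw [Finset.mem_filter] at hw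
      rw [smul_mul_assoc, map_zsmul, map_zsmul, hw.2]
    rw [Finset.sum_congr rfl (fun d _ => h2 d)]
    rw [← Finset.sum_fiberwise_of_maps_to (s := W) (t := Finset.range (M + 1)) (g := cnt)
      (fun w hw => Finset.mem_range.2 (Nat.lt_succ_of_le (hM w hw)))]
    rw [Finset.sum_range]
  have hz := vdm_end (fun i => Rm (u i)) hcomm (by
    intro i j hij a ha
    by_contra hne
    have : a * u i = a * u j := ha
    exact hij (hinj (mul_cancel_l hd hne this)))
    (fun d : Fin (M + 1) => ((Rm v) ^ (M - (d : ℕ))) (f d * v)) key ⟨1, by omega⟩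
  have hpow : ∀ (k : ℕ) (a : R), ((Rm v) ^ k) a = 0 → a = 0 := by
    intro k
    induction k with
    | zero => intro a ha; exact ha
    | succ k ih =>
      intro a ha
      rw [pow_succ'] at ha
      have : ((Rm v) ^ k) a * v = 0 := ha
      rcases hd _ _ this with h | h
      · exact ih a h
      · exact absurd h hv
  have h3 : f 1 * v = 0 := hpow _ _ hz
  have h4 : f 1 = 0 := by
    rcases hd _ _ h3 with h | h
    · exact h
    · exact absurd h hv
  have h5 : f 1 = v * engel N v y := by
    rw [← hlin v y, Finset.mul_sum]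
    apply Finset.sum_congr rfl
    intro w _
    rw [mul_smul_comm]
  rw [h5] at h4
  rcases hd _ _ h4 with h | h
  · exact absurd h hv
  · exact h

end

end Pool.Agent.N57.EN
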